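import Pool.Agent.LibAC34.TrApi

/-!
[AC34 A1] points and intermediate fields. Proofs. `coo_mp`: `hc_mp` (LibCHd/B6) and `map_div₀`.
`exists_pt`: for `P = .some x y h` we have `x = hc P 0 / hc P 2` and `y = hc P 1 / hc P 2`
(`hc P 2 = 1`), so `x, y ∈ L`; the point `⟨x, _⟩, ⟨y, _⟩` of `E⁄L` is nonsingular because the map
`L → F` is injective (`WeierstrassCurve.Affine.map_nonsingular`/`baseChange_nonsingular`), compare
`spG_resField` in LibCHd/Small.lean; for `P = 0` take `0`.
`adjoin_coo_add`: write `L` for the field on one side; by `exists_pt` we have `ξ = mp L.val p` and the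
range of `i` lies in `L`, so that `i = L.val ∘ i'` for `i' : M₀ →ₐ[k] L` (`AlgHom.codRestrict` to
`L.toSubalgebra`), hence `ξ + mp i b = mp L.val (p + mp i' b)` and `coo_mp` gives `⊆ L`. The same with
`-b` gives the other inclusion (`mp i (-b) = -mp i b`).
-/

open WeierstrassCurve Pool.Agent.LibBH2 Pool.Agent.LibIG50 Pool.Agent.LibCHd
open scoped Classical

namespace Pool.Agent.LibAC34

variable {k : Type} [Field k] {E : WeierstrassCurve k}

theorem coo_mp {F G : Type} [Field F] [Algebra k F] [Field G] [Algebra k G] (f : F →ₐ[k] G)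
    (P : (E⁄F).toAffine.Point) : coo (mp f P) = f '' coo P := by
  ext c
  constructor
  · rintro ⟨a, b, rfl⟩
    refine ⟨hc P a / hc P b, ⟨a, b, rfl⟩, ?_⟩
    rw [map_div₀, hc_mp, hc_mp]
  · rintro ⟨_, ⟨a, b, rfl⟩, rfl⟩
    refine ⟨a, b, ?_⟩
    rw [map_div₀, hc_mp, hc_mp]

theorem exists_pt {F : Type} [Field F] [Algebra k F] (L : IntermediateField k F)
    (P : (E⁄F).toAffine.Point) (h : coo P ⊆ L) : ∃ p : (E⁄L).toAffine.Point, mp L.val p = P := by
  match P with
  | .zero => exact ⟨0, mp_zero _⟩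
  | .some x y hxy =>
    have hx : x ∈ L := h ⟨0, 2, by simp [hc]⟩
    have hy : y ∈ L := h ⟨1, 2, by simp [hc]⟩
    have h' : (E⁄L).toAffine.Nonsingular (⟨x, hx⟩ : L) ⟨y, hy⟩ :=
      (Affine.baseChange_nonsingular E (f := L.val) L.val.injective _ _).1 hxy
    obtain ⟨h2, e⟩ := mp_some L.val (⟨x, hx⟩ : L) ⟨y, hy⟩ h'
    exact ⟨.some _ _ h', e⟩

private theorem A1_mp {A B C : Type} [Field A] [Algebra k A] [Field B] [Algebra k B] [Field C]
    [Algebra k C] (f : A →ₐ[k] B) (g : B →ₐ[k] C) (P : (E⁄A).toAffine.Point) :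
    mp g (mp f P) = mp (g.comp f) P := by
  match P with
  | .zero =>
    have h0 : (.zero : (E⁄A).toAffine.Point) = 0 := rfl
    rw [h0, mp_zero, mp_zero, mp_zero]
  | .some x y h =>
    obtain ⟨h1, e1⟩ := mp_some f x y h
    obtain ⟨h2, e2⟩ := mp_some g (f x) (f y) h1
    obtain ⟨h3, e3⟩ := mp_some (g.comp f) x y h
    rw [e1, e2, e3]
    rfl

private theorem A1_exadd {A B : Type} [Field A] [Algebra k A] [Field B] [Algebra k B]
    (f : A →ₐ[k] B) (P Q : (E⁄A).toAffine.Point) :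
    ∃ R : (E⁄A).toAffine.Point, mp f R = mp f P + mp f Q := ⟨P + Q, map_add _ _ _⟩

private theorem A1_exneg {A B : Type} [Field A] [Algebra k A] [Field B] [Algebra k B]
    (f : A →ₐ[k] B) (P : (E⁄A).toAffine.Point) :
    ∃ R : (E⁄A).toAffine.Point, mp f R = -mp f P := ⟨-P, map_neg _ _⟩

private theorem A1_sub {F : Type} [Field F] [Algebra k F] (L : IntermediateField k F)
    (p : (E⁄L).toAffine.Point) : coo (mp L.val p) ⊆ L := by
  rw [coo_mp]
  rintro _ ⟨c, -, rfl⟩
  exact c.2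

private theorem A1_le {M₀ M : Type} [Field M₀] [Algebra k M₀] [Field M] [Algebra k M]
    (i : M₀ →ₐ[k] M) (ξ : (E⁄M).toAffine.Point) (b : (E⁄M₀).toAffine.Point) :
    IntermediateField.adjoin k (Set.range i ∪ coo (ξ + mp i b)) ≤
      IntermediateField.adjoin k (Set.range i ∪ coo ξ) := by
  obtain ⟨L, hL⟩ : ∃ L, L = IntermediateField.adjoin k (Set.range i ∪ coo ξ) := ⟨_, rfl⟩
  rw [← hL]
  have h1 : Set.range i ∪ coo ξ ⊆ (L : Set M) := by
    rw [hL]
    exact IntermediateField.subset_adjoin k _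
  have hi : ∀ m, i m ∈ L := fun m => h1 (Or.inl ⟨m, rfl⟩)
  obtain ⟨p, hp⟩ := exists_pt L ξ fun c hc' => h1 (Or.inr hc')
  obtain ⟨q, hq⟩ := A1_exadd L.val p (mp (i.codRestrict L.toSubalgebra hi) b)
  have h3 : mp L.val (mp (i.codRestrict L.toSubalgebra hi) b) = mp i b :=
    A1_mp (i.codRestrict L.toSubalgebra hi) L.val b
  have h2 : mp L.val q = ξ + mp i b := by rw [hq, hp, h3]
  rw [IntermediateField.adjoin_le_iff]
  rintro c (⟨m, rfl⟩ | hc')
  · exact hi m
  · rw [← h2] at hc'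
    exact A1_sub L _ hc'

theorem adjoin_coo_add {M₀ M : Type} [Field M₀] [Algebra k M₀] [Field M] [Algebra k M]
    (i : M₀ →ₐ[k] M) (ξ : (E⁄M).toAffine.Point) (b : (E⁄M₀).toAffine.Point) :
    IntermediateField.adjoin k (Set.range i ∪ coo (ξ + mp i b)) =
      IntermediateField.adjoin k (Set.range i ∪ coo ξ) := by
  refine le_antisymm (A1_le i ξ b) ?_
  have h := A1_le i (ξ + mp i b) (-b)
  rw [map_neg, add_neg_cancel_right] at h
  exact h

private theorem A1_neg {M₀ M : Type} [Field M₀] [Algebra k M₀] [Field M] [Algebra k M]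
    (i : M₀ →ₐ[k] M) (ξ : (E⁄M).toAffine.Point) :
    IntermediateField.adjoin k (Set.range i ∪ coo (-ξ)) ≤
      IntermediateField.adjoin k (Set.range i ∪ coo ξ) := by
  obtain ⟨L, hL⟩ : ∃ L, L = IntermediateField.adjoin k (Set.range i ∪ coo ξ) := ⟨_, rfl⟩
  rw [← hL]
  have h1 : Set.range i ∪ coo ξ ⊆ (L : Set M) := by
    rw [hL]
    exact IntermediateField.subset_adjoin k _
  obtain ⟨p, hp⟩ := exists_pt L ξ fun c hc' => h1 (Or.inr hc')
  obtain ⟨q, hq⟩ := A1_exneg L.val p
  have h2 : mp L.val q = -ξ := by rw [hq, hp]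
  rw [IntermediateField.adjoin_le_iff]
  rintro c (⟨m, rfl⟩ | hc')
  · exact h1 (Or.inl ⟨m, rfl⟩)
  · rw [← h2] at hc'
    exact A1_sub L _ hc'

theorem adjoin_coo_neg {M₀ M : Type} [Field M₀] [Algebra k M₀] [Field M] [Algebra k M]
    (i : M₀ →ₐ[k] M) (ξ : (E⁄M).toAffine.Point) :
    IntermediateField.adjoin k (Set.range i ∪ coo (-ξ)) =
      IntermediateField.adjoin k (Set.range i ∪ coo ξ) := by
  refine le_antisymm (A1_neg i ξ) ?_
  have h := A1_neg i (-ξ)
  rw [neg_neg] at h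
  exact h

/-- the coordinates of a point `(x, y)` generate the same field as `x` and `y` -/
theorem adjoin_coo_some {M : Type} [Field M] [Algebra k M] (S : Set M) (x y : M)
    (h : (E⁄M).toAffine.Nonsingular x y) :
    IntermediateField.adjoin k (S ∪ coo (.some x y h : (E⁄M).toAffine.Point)) =
      IntermediateField.adjoin k (S ∪ {x, y}) := by
  refine le_antisymm ?_ ?_
  · rw [IntermediateField.adjoin_le_iff]
    have h0 : S ∪ {x, y} ⊆ (IntermediateField.adjoin k (S ∪ {x, y}) : Set M) :=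
      IntermediateField.subset_adjoin k _
    have h1 : ∀ a : Fin 3, hc (.some x y h : (E⁄M).toAffine.Point) a ∈
        IntermediateField.adjoin k (S ∪ {x, y}) := by
      intro a
      fin_cases a
      · exact h0 (Or.inr (Or.inl rfl))
      · exact h0 (Or.inr (Or.inr rfl))
      · exact one_mem _
    rintro c (hc' | ⟨a, b, rfl⟩)
    · exact h0 (Or.inl hc')
    · exact div_mem (h1 a) (h1 b)
  · rw [IntermediateField.adjoin_le_iff]
    have h0 := IntermediateField.subset_adjoin k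
      (S ∪ coo (.some x y h : (E⁄M).toAffine.Point))
    rintro c (hc' | hc' | hc')
    · exact h0 (Or.inl hc')
    · exact h0 (Or.inr ⟨0, 2, by rw [hc']; simp [hc]⟩)
    · exact h0 (Or.inr ⟨1, 2, by rw [Set.mem_singleton_iff.1 hc']; simp [hc]⟩)

end Pool.Agent.LibAC34
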