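import Pool.Agent.LibAC34.A1

/-!
[AC34 A2] `Gen1` from the dimension. Proof. If `ξ = 0` then `coo ξ ⊆ {0, 1}` and
`adjoin k (range i) = ⊤`, so `i` is surjective and `trdeg k M = trdeg k M₀ ≤ d`, contradiction. So
`ξ = (x, y)`; `adjoin_coo_some`. Suppose `eval₂ i x G = 0` with `G ≠ 0`: `x` is algebraic over the
subfield `i(M₀)` (as an intermediate field `i.fieldRange`), `y` is a root of the monic quadratic
Weierstrass polynomial over `k(x)`, so `M = i(M₀)(x, y)` is algebraic over `i(M₀)`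
(`IntermediateField.isAlgebraic_adjoin`), hence `trdeg k M ≤ trdeg k (i.fieldRange) = trdeg k M₀ ≤ d`
(`Algebra.trdeg_add_eq`, `trdeg_add_eq`, `trdeg_eq_zero_iff`: compare `cyc_eq_zero_of_fld` in
LibCHd/A.lean), contradiction with `d + 1`.
-/

open WeierstrassCurve Pool.Agent.LibBH2 Pool.Agent.LibIG50 Pool.Agent.LibCHd
open scoped Classical

namespace Pool.Agent.LibAC34

variable {k : Type} [Field k] {E : WeierstrassCurve k}

private theorem A2_alg {M₀ M : Type} [Field M₀] [Algebra k M₀] [Field M] [Algebra k M]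
    (i : M₀ →ₐ[k] M) {d : ℕ} (h0 : Algebra.trdeg k M₀ ≤ d)
    (h1 : Algebra.trdeg k M = (d + 1 : ℕ)) (S : Set M)
    (hgen : IntermediateField.adjoin k (Set.range i ∪ S) = ⊤)
    (hS : ∀ x ∈ S, (i : M₀ →+* M).IsIntegralElem x) : False := by
  let _ : Algebra M₀ M := (i : M₀ →+* M).toAlgebra
  have _t : IsScalarTower k M₀ M := IsScalarTower.of_algebraMap_eq fun r => (i.commutes r).symm
  have hS' : ∀ x ∈ S, IsIntegral M₀ x := hS
  have h2 := IntermediateField.isAlgebraic_adjoin hS'
  have h3 : ∀ z : M, z ∈ IntermediateField.adjoin M₀ S := by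
    intro z
    have h4 : IntermediateField.adjoin k (Set.range i ∪ S) ≤
        (IntermediateField.adjoin M₀ S).restrictScalars k := by
      rw [IntermediateField.adjoin_le_iff]
      rintro w (⟨a, rfl⟩ | hw)
      · exact (IntermediateField.adjoin M₀ S).algebraMap_mem a
      · exact IntermediateField.subset_adjoin M₀ S hw
    rw [hgen] at h4
    exact h4 (IntermediateField.mem_top (x := z))
  have h5 : Algebra.IsAlgebraic M₀ M := by
    refine ⟨fun z => ?_⟩
    have h6 := h2.isAlgebraic ⟨z, h3 z⟩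
    exact (isAlgebraic_algebraMap_iff (A := M)
      (algebraMap (IntermediateField.adjoin M₀ S) M).injective).2 h6
  have h6 : Algebra.trdeg k M = Algebra.trdeg k M₀ := by
    rw [← trdeg_add_eq k M₀ (A := M), trdeg_eq_zero_iff.2 h5, add_zero]
  rw [h1] at h6
  rw [← h6] at h0
  have h7 : d + 1 ≤ d := by exact_mod_cast h0
  omega

private theorem A2_zero (M : Type) [Field M] [Algebra k M] :
    ∀ c ∈ coo (0 : (E⁄M).toAffine.Point), c = 0 ∨ c = 1 := by
  rintro c ⟨i, j, rfl⟩
  have h : ∀ n, hc (0 : (E⁄M).toAffine.Point) n = (![0, 1, 0] : Fin 3 → M) n := fun n => rfl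
  rw [h, h]
  fin_cases i <;> fin_cases j <;> simp

private theorem A2_y {M₀ M : Type} [Field M₀] [Algebra k M₀] [Field M] [Algebra k M]
    (i : M₀ →ₐ[k] M) {x y : M} (h : (E⁄M).toAffine.Nonsingular x y)
    (hx : (i : M₀ →+* M).IsIntegralElem x) : (i : M₀ →+* M).IsIntegralElem y := by
  let _ : Algebra M₀ M := (i : M₀ →+* M).toAlgebra
  have _t : IsScalarTower k M₀ M := IsScalarTower.of_algebraMap_eq fun r => (i.commutes r).symm
  have hx' : IsIntegral M₀ x := hx
  have hk : ∀ a : k, IsIntegral M₀ (algebraMap k M a) := by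
    intro a
    rw [IsScalarTower.algebraMap_apply k M₀ M]
    exact isIntegral_algebraMap
  have he := (WeierstrassCurve.Affine.equation_iff x y).1 h.1
  have e1 : (E⁄M).toAffine.a₁ = algebraMap k M E.a₁ := rfl
  have e2 : (E⁄M).toAffine.a₂ = algebraMap k M E.a₂ := rfl
  have e3 : (E⁄M).toAffine.a₃ = algebraMap k M E.a₃ := rfl
  have e4 : (E⁄M).toAffine.a₄ = algebraMap k M E.a₄ := rfl
  have e6 : (E⁄M).toAffine.a₆ = algebraMap k M E.a₆ := rfl
  rw [e1, e2, e3, e4, e6] at he
  set p : M := algebraMap k M E.a₁ * x + algebraMap k M E.a₃ with hp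
  set q : M := x ^ 3 + algebraMap k M E.a₂ * x ^ 2 + algebraMap k M E.a₄ * x +
    algebraMap k M E.a₆ with hq
  have hpi : IsIntegral M₀ p := ((hk _).mul hx').add (hk _)
  have hqi : IsIntegral M₀ q :=
    (((hx'.pow 3).add ((hk _).mul (hx'.pow 2))).add ((hk _).mul hx')).add (hk _)
  have hy : IsIntegral (integralClosure M₀ M) y := by
    refine ⟨Polynomial.X ^ 2 + (Polynomial.C (⟨p, hpi⟩ : integralClosure M₀ M) * Polynomial.X -
      Polynomial.C (⟨q, hqi⟩ : integralClosure M₀ M)), ?_, ?_⟩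
    · apply Polynomial.monic_X_pow_add
      refine lt_of_le_of_lt (Polynomial.degree_sub_le _ _) ?_
      refine max_lt (lt_of_le_of_lt (Polynomial.degree_C_mul_X_le _) (by norm_num)) ?_
      exact lt_of_le_of_lt Polynomial.degree_C_le (by norm_num)
    · rw [Polynomial.eval₂_add, Polynomial.eval₂_pow, Polynomial.eval₂_X, Polynomial.eval₂_sub,
        Polynomial.eval₂_mul, Polynomial.eval₂_C, Polynomial.eval₂_C, Polynomial.eval₂_X]
      show y ^ 2 + (p * y - q) = 0
      rw [hp, hq]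
      linear_combination he
  have hfin : IsIntegral M₀ y := isIntegral_trans (A := integralClosure M₀ M) y hy
  exact hfin

theorem gen1_of_dim {M₀ M : Type} [Field M₀] [Algebra k M₀] [Field M] [Algebra k M]
    (i : M₀ →ₐ[k] M) (ξ : (E⁄M).toAffine.Point) {d : ℕ} (h0 : Algebra.trdeg k M₀ ≤ d)
    (h1 : Algebra.trdeg k M = (d + 1 : ℕ))
    (hgen : IntermediateField.adjoin k (Set.range i ∪ coo ξ) = ⊤) : Gen1 i E ξ := by
  rcases ξ with _ | ⟨x, y, h⟩
  · exfalso
    refine A2_alg i h0 h1 _ hgen fun c hc => ?_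
    rcases A2_zero (E := E) M c hc with rfl | rfl
    · exact (i : M₀ →+* M).isIntegralElem_zero
    · exact (i : M₀ →+* M).isIntegralElem_one
  · rw [adjoin_coo_some] at hgen
    refine ⟨x, y, h, rfl, fun G hG h2 => ?_, hgen⟩
    have hx : (i : M₀ →+* M).IsIntegralElem x := by
      let _ : Algebra M₀ M := (i : M₀ →+* M).toAlgebra
      have h3 : IsAlgebraic M₀ x := ⟨G, hG, h2⟩
      exact h3.isIntegral
    refine A2_alg i h0 h1 _ hgen fun c hc => ?_
    rcases hc with rfl | hc
    · exact hx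
    · rw [Set.mem_singleton_iff.1 hc]
      exact A2_y i h hx

end Pool.Agent.LibAC34
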