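import Pool.Agent.LibAC34.A1

/-!
[AC34 A3] the universal property of the generic point. Proof. Let `R = (E⁄M₀).toAffine.CoordinateRing`
(Mathlib). For a point `(a, b)` of `E` over a field `F` and `κ : M₀ →ₐ[k] F` there is a ring
homomorphism `c : R →+* F` with `c (constant m) = κ m`, `c X = a`, `c Y = b`. It is injective if `a` is
transcendental over `κ` (norm to `M₀[X]`). Let `c₁ : R → M` and `c₂ : R → F` be these maps for `ξ` and
`P`; they extend to the fraction field `Q` of `R`, and `Q → M` is bijective.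
-/

open WeierstrassCurve Pool.Agent.LibBH2 Pool.Agent.LibIG50 Pool.Agent.LibCHd
open scoped Classical

namespace Pool.Agent.LibAC34

variable {k : Type} [Field k] {E : WeierstrassCurve k}

open Polynomial in
private theorem A3_hom {M₀ G : Type} [Field M₀] [Algebra k M₀] [Field G] [Algebra k G]
    (φ : M₀ →ₐ[k] G) (a b : G) (h : (E⁄G).toAffine.Equation a b)
    (ht : ∀ P : Polynomial M₀, P ≠ 0 → Polynomial.eval₂ (φ : M₀ →+* G) a P ≠ 0) :
    ∃ c : (E⁄M₀).toAffine.CoordinateRing →+* G, Function.Injective c ∧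
      (∀ m : M₀, c (Affine.CoordinateRing.mk (E⁄M₀).toAffine (C (C m))) = φ m) ∧
      c (Affine.CoordinateRing.mk (E⁄M₀).toAffine (C X)) = a ∧
      c (Affine.CoordinateRing.mk (E⁄M₀).toAffine X) = b := by
  have hcoef : ∀ x : k, φ (algebraMap k M₀ x) = algebraMap k G x := fun x => φ.commutes x
  have hev : (E⁄M₀).toAffine.polynomial.eval₂ (eval₂RingHom (φ : M₀ →+* G) a) b = 0 := by
    rw [Affine.equation_iff] at h
    have e1 : (E⁄G).toAffine.a₁ = algebraMap k G E.a₁ := rfl
    have e2 : (E⁄G).toAffine.a₂ = algebraMap k G E.a₂ := rfl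
    have e3 : (E⁄G).toAffine.a₃ = algebraMap k G E.a₃ := rfl
    have e4 : (E⁄G).toAffine.a₄ = algebraMap k G E.a₄ := rfl
    have e6 : (E⁄G).toAffine.a₆ = algebraMap k G E.a₆ := rfl
    have f1 : (E⁄M₀).toAffine.a₁ = algebraMap k M₀ E.a₁ := rfl
    have f2 : (E⁄M₀).toAffine.a₂ = algebraMap k M₀ E.a₂ := rfl
    have f3 : (E⁄M₀).toAffine.a₃ = algebraMap k M₀ E.a₃ := rfl
    have f4 : (E⁄M₀).toAffine.a₄ = algebraMap k M₀ E.a₄ := rfl
    have f6 : (E⁄M₀).toAffine.a₆ = algebraMap k M₀ E.a₆ := rfl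
    rw [Affine.polynomial]
    simp only [eval₂_add, eval₂_sub, eval₂_mul, eval₂_pow, eval₂_X, eval₂_C, coe_eval₂RingHom,
      f1, f2, f3, f4, f6, RingHom.coe_coe, hcoef]
    rw [e1, e2, e3, e4, e6] at h
    linear_combination h
  refine ⟨AdjoinRoot.lift (eval₂RingHom (φ : M₀ →+* G) a) b hev, ?_, ?_, ?_, ?_⟩
  · rw [injective_iff_map_eq_zero]
    intro z hz
    obtain ⟨p, q, rfl⟩ := Affine.CoordinateRing.exists_smul_basis_eq z
    have hn := Affine.CoordinateRing.coe_norm_smul_basis (W' := (E⁄M₀).toAffine) p q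
    set c := AdjoinRoot.lift (eval₂RingHom (φ : M₀ →+* G) a) b hev with hc
    have h1 : c (algebraMap M₀[X] (E⁄M₀).toAffine.CoordinateRing
        (Algebra.norm M₀[X] (p • (1 : (E⁄M₀).toAffine.CoordinateRing) +
          q • Affine.CoordinateRing.mk (E⁄M₀).toAffine X))) = 0 := by
      have h2 : (algebraMap M₀[X] (E⁄M₀).toAffine.CoordinateRing
        (Algebra.norm M₀[X] (p • (1 : (E⁄M₀).toAffine.CoordinateRing) +
          q • Affine.CoordinateRing.mk (E⁄M₀).toAffine X))) = _ := hn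
      rw [h2, map_mul, map_mul]
      have h3 : c (Affine.CoordinateRing.mk (E⁄M₀).toAffine (C p + C q * X)) = 0 := by
        have h4 : (Affine.CoordinateRing.mk (E⁄M₀).toAffine (C p + C q * X)) =
            p • (1 : (E⁄M₀).toAffine.CoordinateRing) +
              q • Affine.CoordinateRing.mk (E⁄M₀).toAffine X := by
          rw [Affine.CoordinateRing.smul, Affine.CoordinateRing.smul, mul_one, map_add, map_mul]
        rw [h4]
        exact hz
      rw [h3, zero_mul]
    have h5 : Algebra.norm M₀[X] (p • (1 : (E⁄M₀).toAffine.CoordinateRing) +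
          q • Affine.CoordinateRing.mk (E⁄M₀).toAffine X) = 0 := by
      by_contra hne
      apply ht _ hne
      have h6 : c (algebraMap M₀[X] (E⁄M₀).toAffine.CoordinateRing
        (Algebra.norm M₀[X] (p • (1 : (E⁄M₀).toAffine.CoordinateRing) +
          q • Affine.CoordinateRing.mk (E⁄M₀).toAffine X))) =
          eval₂RingHom (φ : M₀ →+* G) a (Algebra.norm M₀[X]
            (p • (1 : (E⁄M₀).toAffine.CoordinateRing) +
              q • Affine.CoordinateRing.mk (E⁄M₀).toAffine X)) :=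
        AdjoinRoot.lift_of hev
      rw [h1, coe_eval₂RingHom] at h6
      exact h6.symm
    have h7 := Affine.CoordinateRing.degree_norm_smul_basis (W' := (E⁄M₀).toAffine) p q
    rw [h5, degree_zero] at h7
    have hp : p = 0 := by
      by_contra hp0
      have h8 : (2 : ℕ) • p.degree ≤ ⊥ := (le_max_left _ _).trans h7.ge
      rw [degree_eq_natDegree hp0] at h8
      have h9 : ((2 : ℕ) • (p.natDegree : WithBot ℕ)) = ((2 * p.natDegree : ℕ) : WithBot ℕ) := by
        rw [nsmul_eq_mul]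
        push_cast
        rfl
      rw [h9, le_bot_iff] at h8
      exact WithBot.coe_ne_bot h8
    have hq : q = 0 := by
      by_contra hq0
      have h8 : (2 : ℕ) • q.degree + 3 ≤ ⊥ := (le_max_right _ _).trans h7.ge
      rw [degree_eq_natDegree hq0] at h8
      have h9 : ((2 : ℕ) • (q.natDegree : WithBot ℕ)) + 3 =
          ((2 * q.natDegree + 3 : ℕ) : WithBot ℕ) := by
        rw [nsmul_eq_mul]
        push_cast
        rfl
      rw [h9, le_bot_iff] at h8
      exact WithBot.coe_ne_bot h8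
    rw [hp, hq, zero_smul, zero_smul, add_zero]
  · intro m
    rw [AdjoinRoot.lift_mk, eval₂_C, coe_eval₂RingHom, eval₂_C]
    rfl
  · rw [AdjoinRoot.lift_mk, eval₂_C, coe_eval₂RingHom, eval₂_X]
  · rw [AdjoinRoot.lift_mk, eval₂_X]

theorem gen1_lift {M₀ M F : Type} [Field M₀] [Algebra k M₀] [Field M] [Algebra k M] [Field F]
    [Algebra k F] (i : M₀ →ₐ[k] M) (ξ : (E⁄M).toAffine.Point) (hξ : Gen1 i E ξ)
    (κ : M₀ →ₐ[k] F) (x y : F) (h : (E⁄F).toAffine.Nonsingular x y)
    (hx : ∀ G : Polynomial M₀, G ≠ 0 → Polynomial.eval₂ (κ : M₀ →+* F) x G ≠ 0) :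
    ∃ j : M →ₐ[k] F, (∀ m, j (i m) = κ m) ∧ mp j ξ = .some x y h := by
  obtain ⟨x₁, y₁, h₁, rfl, ht₁, hgen⟩ := hξ
  obtain ⟨c₁, hc₁, hm₁, hx₁, hy₁⟩ := A3_hom i x₁ y₁ h₁.1 ht₁
  obtain ⟨c₂, hc₂, hm₂, hx₂, hy₂⟩ := A3_hom κ x y h.1 hx
  set R := (E⁄M₀).toAffine.CoordinateRing with hR
  set e₁ : FractionRing R →+* M := IsFractionRing.lift hc₁ with he₁
  set e₂ : FractionRing R →+* F := IsFractionRing.lift hc₂ with he₂
  have a₁ : ∀ z : R, e₁ (algebraMap R (FractionRing R) z) = c₁ z := fun z =>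
    IsFractionRing.lift_algebraMap hc₁ z
  have a₂ : ∀ z : R, e₂ (algebraMap R (FractionRing R) z) = c₂ z := fun z =>
    IsFractionRing.lift_algebraMap hc₂ z
  let L : IntermediateField k M :=
    { e₁.fieldRange with
      algebraMap_mem' := fun c => by
        refine ⟨algebraMap R (FractionRing R) (Affine.CoordinateRing.mk (E⁄M₀).toAffine
          (Polynomial.C (Polynomial.C (algebraMap k M₀ c)))), ?_⟩
        rw [a₁, hm₁, AlgHom.commutes] }
  have hL : ∀ z : M, z ∈ L ↔ ∃ q, e₁ q = z := fun z => Iff.rfl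
  have htop : (⊤ : IntermediateField k M) ≤ L := by
    rw [← hgen, IntermediateField.adjoin_le_iff]
    rintro z (⟨m, rfl⟩ | hz)
    · exact ⟨algebraMap R (FractionRing R) (Affine.CoordinateRing.mk (E⁄M₀).toAffine
        (Polynomial.C (Polynomial.C m))), by rw [a₁, hm₁]⟩
    · rcases hz with rfl | hz
      · exact ⟨algebraMap R (FractionRing R) (Affine.CoordinateRing.mk (E⁄M₀).toAffine
          (Polynomial.C Polynomial.X)), by rw [a₁, hx₁]⟩
      · rw [Set.mem_singleton_iff] at hz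
        subst hz
        exact ⟨algebraMap R (FractionRing R) (Affine.CoordinateRing.mk (E⁄M₀).toAffine
          Polynomial.X), by rw [a₁, hy₁]⟩
  have hsurj : Function.Surjective e₁ := fun z => (hL z).1 (htop IntermediateField.mem_top)
  set ε : FractionRing R ≃+* M := RingEquiv.ofBijective e₁ ⟨e₁.injective, hsurj⟩ with hε
  have b₁ : ∀ q, ε.symm (e₁ q) = q := fun q => ε.symm_apply_apply q
  have hji : ∀ m, e₂ (ε.symm (i m)) = κ m := by
    intro m
    rw [← hm₁ m, ← a₁, b₁, a₂, hm₂]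
  let j : M →ₐ[k] F :=
    { e₂.comp ε.symm.toRingHom with
      commutes' := fun c => by
        show e₂ (ε.symm (algebraMap k M c)) = algebraMap k F c
        rw [← i.commutes c, hji, AlgHom.commutes] }
  have hj : ∀ z, j z = e₂ (ε.symm z) := fun z => rfl
  have jx : j x₁ = x := by rw [hj, ← hx₁, ← a₁, b₁, a₂, hx₂]
  have jy : j y₁ = y := by rw [hj, ← hy₁, ← a₁, b₁, a₂, hy₂]
  refine ⟨j, hji, ?_⟩
  obtain ⟨h', hmp⟩ := mp_some (W := E) j x₁ y₁ h₁
  rw [hmp]
  subst jx jy
  rfl

end Pool.Agent.LibAC34
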