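import Pool.Agent.LibAC34.A3
import Pool.Agent.LibCHd.A
import Pool.Agent.LibCHd.B0
import Pool.Agent.LibCHd.B1
import Pool.Agent.LibCHd.B5
import Pool.Agent.LibCHd.B5d

/-!
[AC34 A4] generic points and compositums. Proofs. `funF_KE`: `KE E` is generated over `k(s)`,
`s = (DE E).s`, by one element of degree two (look for an existing proof in LibCHd, LibIG50:
`funF_one`, or directly: `t = fun _ => s`). `gen1_of_cps`: the point is `(i s, i y)`, `s = (DE E).s`
transcendental over `k`: `IsCps.eval₂_ne_zero`; `IsCps.adjoin_eq_top` and `KE E = k(s, y)`.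
`exists_cps_KE`: a place of `KE E` by
`place_exists` (LibBH2/Curve), `Rat` by `rat_of_funF`, then `exists_laurent` and `exists_cps`.
`gen1_cps`: let `K'` be the compositum of `KE E` and `M` (`exists_cps_KE`), `IsCps i' j'`, its
generic point `P' = mp i' (genPt E)` is `Gen1 j' E P'` (`gen1_of_cps`). `gen1_lift` (with `M₀ := M`,
`M := K'`, `κ := j`) gives `θ : K' →ₐ[k] K` with `θ ∘ j' = j` and `mp θ P' = P`. Put `i = θ ∘ i'`. Then
`phi i j = θ ∘ phi i' j'` is injective, and `θ` is surjective, because its range contains `range j`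
and the coordinates of `P`, so `gen` follows from `gen` for `K'`.
-/

open WeierstrassCurve Pool.Agent.LibBH2 Pool.Agent.LibIG50 Pool.Agent.LibCHd
open scoped Classical

namespace Pool.Agent.LibAC34

variable {k : Type} [Field k] [CharZero k] {E : WeierstrassCurve k}

theorem funF_KE : FunF k 1 (KE E) := funF_one (DE E).ι (DE E).finite

private theorem a4_trans : Transcendental k (DE E).s := by
  intro h
  exact RatFunc.transcendental_X
    ((isAlgebraic_algHom_iff (DE E).ι (DE E).ι.toRingHom.injective).1 h)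

private theorem a4_iota_mem (L : IntermediateField k (KE E)) (hs : (DE E).s ∈ L)
    (a : RatFunc k) : (DE E).ι a ∈ L := by
  have h1 : IntermediateField.adjoin k {(DE E).s} = (DE E).ι.fieldRange := by
    have h2 : (DE E).s = (DE E).ι RatFunc.X := rfl
    rw [h2, ← Set.image_singleton, ← IntermediateField.adjoin_map,
        RatFunc.adjoin_X, ← AlgHom.fieldRange_eq_map]
  have h3 : IntermediateField.adjoin k {(DE E).s} ≤ L := by
    rw [IntermediateField.adjoin_le_iff]
    intro z hz
    rw [Set.mem_singleton_iff.1 hz]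
    exact hs
  apply h3
  rw [h1]
  exact ⟨a, rfl⟩

private theorem a4_top (L : IntermediateField k (KE E)) (hs : (DE E).s ∈ L)
    (hy : (DE E).w - algebraMap k (KE E) (1 / 2) *
      (algebraMap k (KE E) E.a₁ * (DE E).s + algebraMap k (KE E) E.a₃) ∈ L) : L = ⊤ := by
  have hw : (DE E).w ∈ L := by
    have h1 : algebraMap k (KE E) (1 / 2) *
      (algebraMap k (KE E) E.a₁ * (DE E).s + algebraMap k (KE E) E.a₃) ∈ L :=
      L.mul_mem (L.algebraMap_mem _) (L.add_mem (L.mul_mem (L.algebraMap_mem _) hs)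
        (L.algebraMap_mem _))
    have h2 := L.add_mem hy h1
    rwa [sub_add_cancel] at h2
  rw [eq_top_iff]
  intro g _
  obtain ⟨a, b, rfl⟩ := (DE E).gen g
  exact L.add_mem (a4_iota_mem L hs a) (L.mul_mem (a4_iota_mem L hs b) hw)

theorem adjoin_genPt [E.IsElliptic] : IntermediateField.adjoin k (coo (genPt E)) = ⊤ := by
  have h1 := adjoin_coo_some (k := k) (E := E) (M := KE E) ∅ (DE E).s
    ((DE E).w - algebraMap k (KE E) (1 / 2) *
      (algebraMap k (KE E) E.a₁ * (DE E).s + algebraMap k (KE E) E.a₃))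
    ((Affine.equation_iff_nonsingular_of_Δ_ne_zero
      (W := E⁄(KE E)) (baseChange_Δ_ne (KE E) E)).1 (gen_equation E))
  rw [Set.empty_union, Set.empty_union] at h1
  refine h1.trans (a4_top _ ?_ ?_)
  · exact IntermediateField.subset_adjoin _ _ (by simp)
  · exact IntermediateField.subset_adjoin _ _ (by simp)

theorem gen1_of_cps [E.IsElliptic] {M K : Type} [Field M] [Algebra k M] [Field K] [Algebra k K]
    {i : KE E →ₐ[k] K} {j : M →ₐ[k] K} (hc : IsCps i j) : Gen1 j E (mp i (genPt E)) := by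
  obtain ⟨h', e⟩ := mp_some (W := E) i (DE E).s
    ((DE E).w - algebraMap k (KE E) (1 / 2) *
      (algebraMap k (KE E) E.a₁ * (DE E).s + algebraMap k (KE E) E.a₃))
    ((Affine.equation_iff_nonsingular_of_Δ_ne_zero
      (W := E⁄(KE E)) (baseChange_Δ_ne (KE E) E)).1 (gen_equation E))
  refine ⟨_, _, h', e, fun G hG => hc.eval₂_ne_zero _ a4_trans G hG, ?_⟩
  rw [eq_top_iff, ← hc.adjoin_eq_top, IntermediateField.adjoin_le_iff]
  rintro z (⟨f, rfl⟩ | ⟨m, rfl⟩)
  · have h1 : (IntermediateField.adjoin k (Set.range j ∪ {i (DE E).s,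
        i ((DE E).w - algebraMap k (KE E) (1 / 2) *
          (algebraMap k (KE E) E.a₁ * (DE E).s + algebraMap k (KE E) E.a₃))})).comap i = ⊤ := by
      apply a4_top
      · exact IntermediateField.subset_adjoin _ _ (by simp)
      · exact IntermediateField.subset_adjoin _ _ (by simp)
    have h2 : f ∈ (⊤ : IntermediateField k (KE E)) := IntermediateField.mem_top
    rw [← h1] at h2
    exact h2
  · exact IntermediateField.subset_adjoin _ _ (Or.inl ⟨m, rfl⟩)

theorem exists_cps_KE [IsAlgClosed k] (E : WeierstrassCurve k) [E.IsElliptic] (M : Type) [Field M]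
    [Algebra k M] : ∃ (K : Type) (_ : Field K) (_ : Algebra k K) (i : KE E →ₐ[k] K)
      (j : M →ₐ[k] K), IsCps i j := by
  obtain ⟨v, _⟩ := place_exists (W := E) 0
  obtain ⟨e, hk, _, he⟩ := exists_laurent M v (rat_of_funF funF_KE v)
  exact exists_cps e hk he

theorem gen1_cps [IsAlgClosed k] [E.IsElliptic] {M K : Type} [Field M] [Algebra k M] [Field K]
    [Algebra k K] (j : M →ₐ[k] K) (P : (E⁄K).toAffine.Point) (h : Gen1 j E P) :
    ∃ i : KE E →ₐ[k] K, mp i (genPt E) = P ∧ IsCps i j := by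
  obtain ⟨K', _, _, i', j', hc⟩ := exists_cps_KE E M
  obtain ⟨x, y, hxy, rfl, hx, hgen⟩ := h
  obtain ⟨θ, hθj, hθ⟩ := gen1_lift j' (mp i' (genPt E)) (gen1_of_cps hc) j x y hxy hx
  have hphi : ∀ z, phi (θ.comp i') j z = θ (phi i' j' z) := by
    intro z
    have h1 : phi (θ.comp i') j = θ.comp (phi i' j') := by
      apply Algebra.TensorProduct.ext'
      intro f m
      rw [phi_tmul, AlgHom.comp_apply, AlgHom.comp_apply, phi_tmul, map_mul, hθj]
    rw [h1, AlgHom.comp_apply]
  have hcomp : mp (θ.comp i') (genPt E) = mp θ (mp i' (genPt E)) :=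
    (WeierstrassCurve.Affine.Point.map_map i' θ (genPt E)).symm
  refine ⟨θ.comp i', hcomp.trans hθ, ⟨?_, ?_⟩⟩
  · intro a b hab
    rw [hphi, hphi] at hab
    exact hc.inj (θ.toRingHom.injective hab)
  · have hsurj : θ.fieldRange = ⊤ := by
      rw [eq_top_iff, ← hgen, IntermediateField.adjoin_le_iff]
      obtain ⟨x', y', hxy', e', _, _⟩ := gen1_of_cps hc
      rw [e'] at hθ
      obtain ⟨h'', e''⟩ := mp_some (W := E) θ x' y' hxy'
      rw [e''] at hθ
      have hx2 : θ x' = x ∧ θ y' = y := by simpa using hθ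
      rintro z (⟨m, rfl⟩ | hz)
      · exact ⟨j' m, hθj m⟩
      · rcases hz with rfl | hz
        · exact ⟨x', hx2.1⟩
        · rw [Set.mem_singleton_iff] at hz
          subst hz
          exact ⟨y', hx2.2⟩
    intro z
    have hz : z ∈ θ.fieldRange := by rw [hsurj]; exact IntermediateField.mem_top
    obtain ⟨z', rfl⟩ := hz
    obtain ⟨a, b, hb, hab⟩ := hc.gen z'
    refine ⟨a, b, ?_, ?_⟩
    · rw [hphi]
      exact (map_ne_zero θ).2 hb
    · rw [hphi, hphi, ← hab, map_mul]
      rfl

end Pool.Agent.LibAC34
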