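import Pool.Agent.LibAC34.A2
import Pool.Agent.LibAC34.A3

/-!
[AC34 A5] changes of the generic point (the plan contains also A5b). Proofs. `gen1_trdeg`: `trdeg k M = trdeg k M₀ + 1`:
`M` is algebraic over `i(M₀)(x)` and `x` is transcendental over `i(M₀)`.
`gen1_add`, `gen1_neg`: `gen1_of_dim` needs a finite dimension; here directly (no dimension): let
`ξ = (x, y)`. `gen1_of_dim` with `d = trdeg k M₀` if finite; we only need it in this case, so it is
an hypothesis (`hd`). `gen1_aut`: `gen1_lift` with `κ = i` gives `σ : M →ₐ[k] M`, `σ ∘ i = i`,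
`mp σ ξ = ξ'`; its range is an intermediate field which contains `range i` and the coordinates of
`ξ'`, so everything, and `σ` is bijective (`AlgEquiv.ofBijective`). `swap`: `κ = j ∘ i`; `x(P)` is
transcendental over `j(M)`, hence over `κ(M₀)`; `gen1_lift` gives `j'`. `Gen1 j' E (mp j ξ)`:
`gen1_of_dim`: `trdeg k M = d + 1`, `trdeg k K = d + 2` (`gen1_trdeg` twice), and
`adjoin (range j' ∪ coo (mp j ξ))` contains `range κ`, the coordinates of `P = mp j' ξ` (`coo_mp`)
and those of `mp j ξ`, so it contains `range j` (`range j = j(M₀(x, y))`) and `coo P`: everything.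
-/

open WeierstrassCurve Pool.Agent.LibBH2 Pool.Agent.LibIG50 Pool.Agent.LibCHd
open scoped Classical

namespace Pool.Agent.LibAC34

variable {k : Type} [Field k] {E : WeierstrassCurve k} {M₀ M : Type} [Field M₀] [Algebra k M₀]
  [Field M] [Algebra k M] {i : M₀ →ₐ[k] M} {ξ : (E⁄M).toAffine.Point}

theorem gen1_adjoin (h : Gen1 i E ξ) :
    IntermediateField.adjoin k (Set.range i ∪ coo ξ) = ⊤ := by
  obtain ⟨x, y, hxy, rfl, -, hgen⟩ := h
  rw [adjoin_coo_some, hgen]

/-- the transcendence degree of `M` over `k` -/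
theorem A5_trdeg (h : Gen1 i E ξ) : Algebra.trdeg k M = Algebra.trdeg k M₀ + 1 := by
  obtain ⟨x, y, hxy, -, hx, hgen⟩ := h
  let _ : Algebra M₀ M := (i : M₀ →+* M).toAlgebra
  have : IsScalarTower k M₀ M := IsScalarTower.of_algebraMap_eq fun r => (i.commutes r).symm
  have hadd : Algebra.trdeg k M₀ + Algebra.trdeg M₀ M = Algebra.trdeg k M :=
    trdeg_add_eq k M₀ (A := M)
  rw [← hadd]
  congr 1
  apply le_antisymm
  · -- `M` is algebraic over `M₀[x]`
    set R := Algebra.adjoin M₀ ({x} : Set M) with hR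
    have hxR : x ∈ R := Algebra.subset_adjoin rfl
    have hiR : ∀ m : M₀, i m ∈ R := fun m => R.algebraMap_mem m
    have hfaith : Function.Injective (algebraMap R M) := Subtype.val_injective
    have hmem : ∀ z : M, z ∈ R → IsAlgebraic R z := fun z hz => isAlgebraic_algebraMap (⟨z, hz⟩ : R)
    have hy : IsAlgebraic R y := by
      have heq := hxy.1
      rw [WeierstrassCurve.Affine.equation_iff] at heq
      have ha : ∀ c : k, algebraMap k M c ∈ R := by
        intro c
        rw [← i.commutes c]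
        exact hiR _
      set b : R := ⟨(E⁄M).toAffine.a₁ * x + (E⁄M).toAffine.a₃,
        R.add_mem (R.mul_mem (ha _) hxR) (ha _)⟩ with hb
      set c : R := ⟨-(x ^ 3 + (E⁄M).toAffine.a₂ * x ^ 2 + (E⁄M).toAffine.a₄ * x + (E⁄M).toAffine.a₆),
        R.neg_mem (R.add_mem (R.add_mem (R.add_mem (R.pow_mem hxR 3)
          (R.mul_mem (ha _) (R.pow_mem hxR 2))) (R.mul_mem (ha _) hxR)) (ha _))⟩ with hc
      have hint : IsIntegral R y := by
        refine ⟨Polynomial.X ^ 2 + (Polynomial.C b * Polynomial.X + Polynomial.C c),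
          Polynomial.monic_X_pow_add Polynomial.degree_linear_lt, ?_⟩
        have e1 : algebraMap R M b = (E⁄M).toAffine.a₁ * x + (E⁄M).toAffine.a₃ := rfl
        have e2 : algebraMap R M c =
          -(x ^ 3 + (E⁄M).toAffine.a₂ * x ^ 2 + (E⁄M).toAffine.a₄ * x + (E⁄M).toAffine.a₆) := rfl
        simp only [Polynomial.eval₂_add, Polynomial.eval₂_mul, Polynomial.eval₂_pow,
          Polynomial.eval₂_X, Polynomial.eval₂_C]
        rw [e1, e2]
        linear_combination heq
      exact hint.isAlgebraic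
    have halg : ∀ z : M, IsAlgebraic R z := by
      let L : IntermediateField k M :=
        { carrier := {z | IsAlgebraic R z}
          mul_mem' := fun {a b} ha hb => IsAlgebraic.mul ha hb
          add_mem' := fun {a b} ha hb => IsAlgebraic.add ha hb
          algebraMap_mem' := fun r => by
            rw [← i.commutes r]
            exact hmem _ (hiR _)
          inv_mem' := fun a ha => IsAlgebraic.inv ha }
      have hL : L = ⊤ := by
        rw [eq_top_iff, ← hgen, IntermediateField.adjoin_le_iff]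
        rintro z (⟨m, rfl⟩ | hz)
        · exact hmem _ (hiR m)
        · rcases hz with rfl | hz
          · exact hmem _ hxR
          · rw [Set.mem_singleton_iff] at hz
            rw [hz]
            exact hy
      intro z
      have : z ∈ L := by rw [hL]; trivial
      exact this
    have : Algebra.IsAlgebraic (Algebra.adjoin M₀ ({x} : Set M)) M := ⟨halg⟩
    have := Algebra.IsAlgebraic.trdeg_le_cardinalMk M₀ ({x} : Set M)
    simpa using this
  · have htr : Transcendental M₀ x := by
      rintro ⟨p, hp0, hp⟩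
      exact hx p hp0 hp
    have : Algebra.Transcendental M₀ M := ⟨⟨x, htr⟩⟩
    exact Cardinal.one_le_iff_pos.2 (trdeg_pos (R := M₀) (A := M))

theorem gen1_trdeg (h : Gen1 i E ξ) {d : ℕ} (hd : Algebra.trdeg k M = (d + 1 : ℕ)) :
    Algebra.trdeg k M₀ = d := by
  have h1 := A5_trdeg h
  rw [hd] at h1
  push_cast at h1
  exact (Cardinal.add_one_inj.1 h1).symm

theorem gen1_trdeg' (h : Gen1 i E ξ) {d : ℕ} (hd : Algebra.trdeg k M₀ = d) :
    Algebra.trdeg k M = (d + 1 : ℕ) := by
  rw [A5_trdeg h, hd]
  push_cast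
  rfl

theorem gen1_add (h : Gen1 i E ξ) {d : ℕ} (hd : Algebra.trdeg k M = (d + 1 : ℕ))
    (b : (E⁄M₀).toAffine.Point) : Gen1 i E (ξ + mp i b) :=
  gen1_of_dim i _ (gen1_trdeg h hd).le hd (by rw [adjoin_coo_add, gen1_adjoin h])

theorem gen1_neg (h : Gen1 i E ξ) {d : ℕ} (hd : Algebra.trdeg k M = (d + 1 : ℕ)) :
    Gen1 i E (-ξ) :=
  gen1_of_dim i _ (gen1_trdeg h hd).le hd (by rw [adjoin_coo_neg, gen1_adjoin h])

end Pool.Agent.LibAC34
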