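import Pool.Agent.LibAC34.A5

/-!
[AC34 A5b] automorphisms and the exchange of two generic points: the plan is in the header of A5.
-/

open WeierstrassCurve Pool.Agent.LibBH2 Pool.Agent.LibIG50 Pool.Agent.LibCHd
open scoped Classical

namespace Pool.Agent.LibAC34

variable {k : Type} [Field k] {E : WeierstrassCurve k} {M₀ M : Type} [Field M₀] [Algebra k M₀]
  [Field M] [Algebra k M] {i : M₀ →ₐ[k] M} {ξ : (E⁄M).toAffine.Point}

theorem gen1_aut (h : Gen1 i E ξ) {ξ' : (E⁄M).toAffine.Point} (h' : Gen1 i E ξ') :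
    ∃ σ : M ≃ₐ[k] M, (∀ m, σ (i m) = i m) ∧ mp (σ : M →ₐ[k] M) ξ = ξ' := by
  obtain ⟨x', y', hn', rfl, htr', hgen'⟩ := h'
  obtain ⟨j, hj1, hj2⟩ := gen1_lift i ξ h i x' y' hn' htr'
  obtain ⟨x, y, hn, rfl, htr, hgen⟩ := h
  obtain ⟨hn2, e2⟩ := mp_some j x y hn
  rw [e2] at hj2
  have e3 : j x = x' ∧ j y = y' := by
    simpa using hj2
  have hsurj : Function.Surjective j := by
    intro m
    have h1 : IntermediateField.adjoin k (Set.range i ∪ {x', y'}) ≤ j.fieldRange := by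
      rw [IntermediateField.adjoin_le_iff]
      rintro c (⟨m, rfl⟩ | hc)
      · exact ⟨i m, hj1 m⟩
      · rcases hc with rfl | hc
        · exact ⟨x, e3.1⟩
        · rw [Set.mem_singleton_iff] at hc
          subst hc
          exact ⟨y, e3.2⟩
    rw [hgen'] at h1
    exact h1 (IntermediateField.mem_top (F := k) (E := M) (x := m))
  refine ⟨AlgEquiv.ofBijective j ⟨j.toRingHom.injective, hsurj⟩, fun m => hj1 m, ?_⟩
  have e4 : ((AlgEquiv.ofBijective j ⟨j.toRingHom.injective, hsurj⟩ : M ≃ₐ[k] M) : M →ₐ[k] M) =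
      j := AlgHom.ext fun m => rfl
  rw [e4, e2]
  exact hj2

theorem gen1_swap (h : Gen1 i E ξ) {d : ℕ} (hd : Algebra.trdeg k M = (d + 1 : ℕ)) {K : Type}
    [Field K] [Algebra k K] {j : M →ₐ[k] K} {P : (E⁄K).toAffine.Point} (hP : Gen1 j E P) :
    ∃ j' : M →ₐ[k] K, (∀ m, j' (i m) = j (i m)) ∧ mp j' ξ = P ∧ Gen1 j' E (mp j ξ) := by
  have hP' := hP
  obtain ⟨xP, yP, hn, rfl, htr, hgen⟩ := hP'
  have htr' : ∀ G : Polynomial M₀, G ≠ 0 →
      Polynomial.eval₂ ((j.comp i : M₀ →ₐ[k] K) : M₀ →+* K) xP G ≠ 0 := by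
    intro G hG
    have h1 : G.map (i : M₀ →+* M) ≠ 0 := by
      rwa [Ne, Polynomial.map_eq_zero]
    have h2 := htr _ h1
    rw [Polynomial.eval₂_map] at h2
    exact h2
  obtain ⟨j', hj1, hj2⟩ := gen1_lift i ξ h (j.comp i) xP yP hn htr'
  refine ⟨j', fun m => hj1 m, hj2, ?_⟩
  refine gen1_of_dim j' (mp j ξ) (d := d + 1) hd.le (gen1_trdeg' hP hd) ?_
  rw [eq_top_iff, ← gen1_adjoin hP, IntermediateField.adjoin_le_iff]
  have hj : ∀ m : M, j m ∈ IntermediateField.adjoin k (Set.range j' ∪ coo (mp j ξ)) := by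
    intro m
    have h1 : IntermediateField.adjoin k (Set.range i ∪ coo ξ) ≤
        (IntermediateField.adjoin k (Set.range j' ∪ coo (mp j ξ))).comap j := by
      rw [IntermediateField.adjoin_le_iff]
      rintro c (⟨m, rfl⟩ | hc)
      · show j (i m) ∈ IntermediateField.adjoin k (Set.range j' ∪ coo (mp j ξ))
        have h2 := hj1 m
        rw [AlgHom.comp_apply] at h2
        rw [← h2]
        exact IntermediateField.subset_adjoin k _ (Or.inl ⟨_, rfl⟩)
      · show j c ∈ IntermediateField.adjoin k (Set.range j' ∪ coo (mp j ξ))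
        refine IntermediateField.subset_adjoin k _ (Or.inr ?_)
        rw [coo_mp]
        exact ⟨c, hc, rfl⟩
    rw [gen1_adjoin h] at h1
    exact h1 (IntermediateField.mem_top (F := k) (E := M) (x := m))
  rintro c (⟨m, rfl⟩ | hc)
  · exact hj m
  · rw [← hj2, coo_mp] at hc
    obtain ⟨b, -, rfl⟩ := hc
    exact IntermediateField.subset_adjoin k _ (Or.inl ⟨_, rfl⟩)

end Pool.Agent.LibAC34
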