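import Pool.Agent.LibAC34.A2

/-!
[AC34 A6] the intermediate fields of a function field of a product. Proof of `trdeg_adjoin_le`:
induction on the finite set `S` (`Finset.induction_on`). For `S = ∅` the field is `l.fieldRange`
(`IntermediateField.adjoin` of the range of an `AlgHom`), isomorphic to `L`, `trdeg = e`
(`FunF.trdeg`). Adding the coordinates of one point: if the point is `0` nothing new; if it is
`(x, y)`: the new field is algebraic over the old field with `x` adjoined, so the transcendence
degree grows by at most one (`Algebra.trdeg` of a simple extension; `trdeg_add_eq`).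
`exists_base`: `M₀ = adjoin k (range l ∪ coordinates of ξ b, b ≠ a)`; `l'` and the points `ξ' b` by
`AlgHom.codRestrict` and `exists_pt`; `gen1_of_dim` with `d = e + D - 1`, `FunF.trdeg` for `K`.
-/

open WeierstrassCurve Pool.Agent.LibBH2 Pool.Agent.LibIG50 Pool.Agent.LibCHd
open scoped Classical

namespace Pool.Agent.LibAC34

variable {k : Type} [Field k] {L K : Type} [Field L] [Algebra k L] [Field K] [Algebra k K]
  {l : L →ₐ[k] K} {D : ℕ} {V : Fin D → WeierstrassCurve k} {ξ : ∀ a, ((V a)⁄K).toAffine.Point}

section Aux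

open scoped IntermediateField.algebraAdjoinAdjoin in
private theorem A6_trdeg_adjoin {F K : Type} [Field F] [Field K] [Algebra F K] (s : Set K) :
    Algebra.trdeg F (IntermediateField.adjoin F s) ≤ Cardinal.mk s := by
  have h1 : Algebra.trdeg F (MvPolynomial.aeval (Subtype.val : s → K) :
      MvPolynomial s F →ₐ[F] K).range ≤ Cardinal.mk s := by
    refine (trdeg_le_of_surjective (MvPolynomial.aeval (Subtype.val : s → K) :
      MvPolynomial s F →ₐ[F] K).rangeRestrict (AlgHom.rangeRestrict_surjective _)).trans ?_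
    rw [MvPolynomial.trdeg_of_isDomain, Cardinal.lift_id]
  rw [← Algebra.adjoin_eq_range] at h1
  have h3 := trdeg_add_eq F (Algebra.adjoin F s) (A := IntermediateField.adjoin F s)
  rw [trdeg_eq_zero (R := Algebra.adjoin F s), add_zero] at h3
  rw [← h3]
  exact h1

private theorem A6_trdeg_le {F K : Type} [Field F] [Field K] [Algebra F K] (s : Set K)
    (L : IntermediateField F K)
    (h : L ≤ (algebraicClosure (IntermediateField.adjoin F s) K).restrictScalars F) :
    Algebra.trdeg F L ≤ Cardinal.mk s := by
  refine (trdeg_le_of_injective (IntermediateField.inclusion h)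
    (IntermediateField.inclusion_injective h)).trans ?_
  have h3 := trdeg_add_eq F (IntermediateField.adjoin F s)
    (A := algebraicClosure (IntermediateField.adjoin F s) K)
  rw [trdeg_eq_zero (R := IntermediateField.adjoin F s), add_zero] at h3
  have h4 : Algebra.trdeg F
      ((algebraicClosure (IntermediateField.adjoin F s) K).restrictScalars F) =
    Algebra.trdeg F (algebraicClosure (IntermediateField.adjoin F s) K) := rfl
  rw [h4, ← h3]
  exact A6_trdeg_adjoin s

private theorem A6_quad {F K : Type} [Field F] [Field K] [Algebra F K]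
    (A : IntermediateField F K) (b c y : K) (hb : b ∈ A) (hc : c ∈ A)
    (h : y ^ 2 + b * y + c = 0) : IsAlgebraic A y := by
  refine ⟨Polynomial.X ^ 2 + Polynomial.C ⟨b, hb⟩ * Polynomial.X + Polynomial.C ⟨c, hc⟩,
    ?_, ?_⟩
  · intro h0
    have := congrArg (fun p => Polynomial.coeff p 2) h0
    simp at this
  · simp only [map_add, map_mul, map_pow, Polynomial.aeval_X, Polynomial.aeval_C]
    exact h

/-- the coordinates of a point are algebraic over the field generated by `x` -/
private theorem A6_coo {k L K : Type} [Field k] [Field L] [Algebra k L] [Field K] [Algebra k K]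
    [Algebra L K] [IsScalarTower k L K] {E : WeierstrassCurve k} (P : (E⁄K).toAffine.Point)
    (s : Set K) (hs : hc P 0 ∈ s) (c : K) (hc' : c ∈ coo P) :
    c ∈ (algebraicClosure (IntermediateField.adjoin L s) K).restrictScalars L := by
  have hx : hc P 0 ∈ IntermediateField.adjoin L s := IntermediateField.subset_adjoin _ _ hs
  have hkA : ∀ a : k, algebraMap k K a ∈ IntermediateField.adjoin L s := fun a => by
    rw [IsScalarTower.algebraMap_apply k L K]
    exact (IntermediateField.adjoin L s).algebraMap_mem _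
  have hA : ∀ z ∈ IntermediateField.adjoin L s,
      z ∈ (algebraicClosure (IntermediateField.adjoin L s) K).restrictScalars L := fun z hz =>
    mem_algebraicClosure_iff.2
      (isAlgebraic_algebraMap (R := IntermediateField.adjoin L s) (⟨z, hz⟩ :
        IntermediateField.adjoin L s))
  have hall : ∀ j : Fin 3,
      hc P j ∈ (algebraicClosure (IntermediateField.adjoin L s) K).restrictScalars L := by
    intro j
    match P, hx with
    | .zero, hx =>
      fin_cases j
      · exact zero_mem _
      · exact one_mem _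
      · exact zero_mem _
    | .some x y h, hx =>
      have hx' : x ∈ IntermediateField.adjoin L s := hx
      fin_cases j
      · exact hA x hx'
      · refine mem_algebraicClosure_iff.2 (A6_quad _
          ((E⁄K).toAffine.a₁ * x + (E⁄K).toAffine.a₃)
          (-(x ^ 3 + (E⁄K).toAffine.a₂ * x ^ 2 + (E⁄K).toAffine.a₄ * x + (E⁄K).toAffine.a₆))
          y ?_ ?_ ?_)
        · exact add_mem (mul_mem (hkA _) hx') (hkA _)
        · exact neg_mem (add_mem (add_mem (add_mem (pow_mem hx' 3)
            (mul_mem (hkA _) (pow_mem hx' 2))) (mul_mem (hkA _) hx')) (hkA _))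
        · have he := (WeierstrassCurve.Affine.equation_iff _ _).1 h.1
          linear_combination he
      · exact one_mem _
  obtain ⟨i, j, rfl⟩ := hc'
  exact div_mem (hall i) (hall j)

end Aux

theorem trdeg_adjoin_le {e : ℕ} (hL : FunF k e L) (l : L →ₐ[k] K)
    (ξ : ∀ a, ((V a)⁄K).toAffine.Point) (S : Finset (Fin D)) :
    Algebra.trdeg k (IntermediateField.adjoin k
      (Set.range l ∪ {c | ∃ a ∈ S, c ∈ coo (ξ a)})) ≤ (e + S.card : ℕ) := by
  let _ : Algebra L K := l.toRingHom.toAlgebra
  have hT : IsScalarTower k L K := IsScalarTower.of_algebraMap_eq fun x => (l.commutes x).symm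
  let s : Set K := (fun a => hc (ξ a) 0) '' (S : Set (Fin D))
  let C := (algebraicClosure (IntermediateField.adjoin L s) K).restrictScalars L
  have h1 : IntermediateField.adjoin k (Set.range l ∪ {c | ∃ a ∈ S, c ∈ coo (ξ a)}) ≤
      C.restrictScalars k := by
    rw [IntermediateField.adjoin_le_iff]
    rintro c (⟨z, rfl⟩ | ⟨a, ha, hca⟩)
    · exact C.algebraMap_mem z
    · exact A6_coo (ξ a) s ⟨a, ha, rfl⟩ c hca
  refine (trdeg_le_of_injective (IntermediateField.inclusion h1)
    (IntermediateField.inclusion_injective h1)).trans ?_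
  have h2 : Algebra.trdeg k (C.restrictScalars k) = Algebra.trdeg k C := rfl
  have h3 := trdeg_add_eq k L (A := C)
  have h4 : Algebra.trdeg L C ≤ Cardinal.mk s := A6_trdeg_le s C le_rfl
  have h5 : Cardinal.mk s ≤ (S.card : ℕ) := by
    exact Cardinal.mk_image_le.trans (Cardinal.mk_coe_finset (s := S)).le
  rw [h2, ← h3, hL.trdeg, Nat.cast_add]
  exact add_le_add le_rfl (h4.trans h5)

/-- the function field of the product without the factor `a` -/
theorem exists_base {e : ℕ} (h : IsGen e l V ξ) (a : Fin D) :
    ∃ (M₀ : IntermediateField k K) (l' : L →ₐ[k] M₀)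
      (ξ' : ∀ b, b ≠ a → ((V b)⁄M₀).toAffine.Point), (∀ x, M₀.val (l' x) = l x) ∧
      (∀ b hb, mp M₀.val (ξ' b hb) = ξ b) ∧ Gen1 M₀.val (V a) (ξ a) := by
  let S : Finset (Fin D) := Finset.univ.erase a
  let M₀ : IntermediateField k K :=
    IntermediateField.adjoin k (Set.range l ∪ {c | ∃ b ∈ S, c ∈ coo (ξ b)})
  have hl : ∀ x, l x ∈ M₀ := fun x =>
    IntermediateField.subset_adjoin _ _ (Or.inl ⟨x, rfl⟩)
  have hξ : ∀ b, b ≠ a → coo (ξ b) ⊆ M₀ := fun b hb c hc' =>
    IntermediateField.subset_adjoin _ _
      (Or.inr ⟨b, Finset.mem_erase.2 ⟨hb, Finset.mem_univ _⟩, hc'⟩)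
  let l' : L →ₐ[k] M₀ := l.codRestrict M₀.toSubalgebra hl
  refine ⟨M₀, l', fun b hb => (exists_pt M₀ (ξ b) (hξ b hb)).choose, fun x => rfl,
    fun b hb => (exists_pt M₀ (ξ b) (hξ b hb)).choose_spec, ?_⟩
  have hD : 0 < D := Fin.pos a
  have hcard : S.card = D - 1 := by
    rw [Finset.card_erase_of_mem (Finset.mem_univ _), Finset.card_univ, Fintype.card_fin]
  refine gen1_of_dim (d := e + (D - 1)) M₀.val (ξ a) ?_ ?_ ?_
  · have h1 := trdeg_adjoin_le h.dimL l ξ S
    rw [hcard] at h1
    exact h1
  · rw [h.dim.trdeg]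
    congr 1
    omega
  · rw [eq_top_iff, ← h.gen, IntermediateField.adjoin_le_iff]
    rintro c (⟨x, rfl⟩ | ⟨b, i, j, rfl⟩)
    · exact IntermediateField.subset_adjoin _ _ (Or.inl ⟨⟨l x, hl x⟩, rfl⟩)
    · by_cases hb : b = a
      · subst hb
        exact IntermediateField.subset_adjoin _ _ (Or.inr ⟨i, j, rfl⟩)
      · exact IntermediateField.subset_adjoin _ _
          (Or.inl ⟨⟨hc (ξ b) i / hc (ξ b) j, hξ b hb ⟨i, j, rfl⟩⟩, rfl⟩)

end Pool.Agent.LibAC34
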