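import Pool.Agent.LibAC34.A4

/-!
[AC34 B1] the place of a compositum at the origin of the curve. Proofs. `spR_zero_iff`, `spR_neg`,
`spR_zsmul`: from `SpR_iff` and `spG_neg` (LibCHd/R6, RedAdd2), `SpR_add`, induction.
`exists_pl`: let `v` be the place of `KE E` with `Spec v (genPt E) 0` (`place_exists`), `Rat v` by
`rat_of_funF funF_KE`; `exists_gs` gives `w` with `IsGs i j v w`. `ordx`: `ord_inf` (LibBH2/Curve) and
`hw.onH`. `uniq`: for `v'` with `SpR v' (mp i (genPt E)) 0` the order of `i s` is negative;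
`exists_restrict` gives a place `v₁` of `KE E` with `v'.ord (i f) = e * v₁.ord f`, `0 < e`, so
`v₁.ord s < 0`, i.e. `Spec v₁ (genPt E) 0`, `v₁ = v` (`place_unique`), and `gs_unique`.
-/

open WeierstrassCurve Pool.Agent.LibBH2 Pool.Agent.LibIG50 Pool.Agent.LibCHd
open scoped Classical

namespace Pool.Agent.LibAC34

variable {k : Type} [Field k] {E : WeierstrassCurve k} {M K : Type} [Field M] [Algebra k M]
  [Field K] [Algebra k K]

theorem spR_zero_iff {v : Place k K} {P : (E⁄K).toAffine.Point} :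
    SpR v P 0 ↔ P = 0 ∨ v.ord (hc P 0) < 0 := by
  match P with
  | .zero => exact ⟨fun _ => Or.inl rfl, fun _ => rfl⟩
  | .some x y h =>
    constructor
    · intro h'
      exact Or.inr h'
    · rintro (h' | h')
      · exact absurd h' (by intro h''; cases h'')
      · exact h'

theorem spR_neg {v : Place k K} {P : (E⁄K).toAffine.Point} {p : (E⁄(RF v)).toAffine.Point}
    [E.IsElliptic] (h : SpR v P p) : SpR v (-P) (-p) :=
  SpR_iff.2 (spG_neg (isRes_resF v) (SpR_iff.1 h))

private theorem B1_zero (v : Place k K) :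
    SpR v (0 : (E⁄K).toAffine.Point) (0 : (E⁄(RF v)).toAffine.Point) :=
  spR_zero_iff.2 (Or.inl rfl)

private theorem B1_nsmul {v : Place k K} {P : (E⁄K).toAffine.Point}
    {p : (E⁄(RF v)).toAffine.Point} [E.IsElliptic] (n : ℕ) (h : SpR v P p) :
    SpR v (n • P) (n • p) := by
  induction n with
  | zero =>
    have h1 : (0 : ℕ) • P = 0 := zero_nsmul P
    have h2 : (0 : ℕ) • p = 0 := zero_nsmul p
    rw [h1, h2]
    exact B1_zero v
  | succ n ih =>
    rw [succ_nsmul, succ_nsmul]
    exact SpR_add ih h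

theorem spR_zsmul {v : Place k K} {P : (E⁄K).toAffine.Point} {p : (E⁄(RF v)).toAffine.Point}
    [E.IsElliptic] (n : ℤ) (h : SpR v P p) : SpR v (n • P) (n • p) := by
  match n with
  | Int.ofNat n =>
    rw [Int.ofNat_eq_natCast, natCast_zsmul, natCast_zsmul]
    exact B1_nsmul n h
  | Int.negSucc n =>
    rw [negSucc_zsmul, negSucc_zsmul]
    exact spR_neg (B1_nsmul (n + 1) h)

theorem spR_tr {v : Place k K} {P : (E⁄K).toAffine.Point} {p : (E⁄(RF v)).toAffine.Point}
    (W : WeierstrassCurve k) (h : SpR v P p) : SpR v (tr E W P) (tr E W p) := by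
  by_cases hW : E = W
  · subst hW
    rw [tr_self, tr_self]
    exact h
  · rw [tr_ne hW, tr_ne hW]
    exact B1_zero v

/-- `w` is the place at the origin of the curve `E`, trivial on `M`, of the function field `K` of the
curve `E` over `M` -/
structure Pl [CharZero k] [E.IsElliptic] (i : KE E →ₐ[k] K) (j : M →ₐ[k] K) (w : Place k K) :
    Prop where
  triv : ∀ m, w.ord (j m) = 0
  res : ∀ z, w.Reg z → ∃ m, w.Zer (z - j m)
  ordx : w.ord (hc (mp i (genPt E)) 0) = -2
  uniq : ∀ v : Place k K, (∀ m, v.ord (j m) = 0) → SpR v (mp i (genPt E)) 0 → v = w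

private theorem B1_hc [CharZero k] [E.IsElliptic] (i : KE E →ₐ[k] K) :
    hc (mp i (genPt E)) 0 = i (DE E).s := by
  rw [hc_mp]
  rfl

theorem exists_pl [CharZero k] [IsAlgClosed k] [E.IsElliptic] {i : KE E →ₐ[k] K} {j : M →ₐ[k] K}
    (hc : IsCps i j) : ∃ w, Pl i j w := by
  obtain ⟨v, hv⟩ := place_exists (W := E) (0 : E.toAffine.Point)
  obtain ⟨w, hw⟩ := exists_gs i j hc v (rat_of_funF funF_KE v)
  refine ⟨w, hw.onM, hw.res, ?_, fun v' hM hsp => ?_⟩
  · rw [B1_hc, hw.onH]
    exact (ord_inf v hv).1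
  · have h1 : v'.ord (i (DE E).s) < 0 := by
      rcases spR_zero_iff.1 hsp with h | h
      · exfalso
        obtain ⟨h', hh⟩ := mp_some i _ _ _
        have h2 : mp i (genPt E) = .some _ _ h' := hh
        rw [h] at h2
        cases h2
      · rwa [B1_hc] at h
    obtain ⟨v₁, e, he, h2⟩ := exists_restrict i v' (DE E).s h1.ne
    have h3 : v₁.ord (DE E).s < 0 := by
      rw [h2] at h1
      by_contra hcon
      push Not at hcon
      have : (0 : ℤ) ≤ e * v₁.ord (DE E).s := mul_nonneg (by positivity) hcon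
      omega
    have h4 : Spec v₁ (genPt E) 0 := h3
    have h5 : v₁ = v := place_unique 0 v₁ v h4 hv
    rw [h5] at h2
    exact gs_unique i j hc v (rat_of_funF funF_KE v) w hw v' e he h2 hM

theorem Pl.sp [CharZero k] [E.IsElliptic] {i : KE E →ₐ[k] K} {j : M →ₐ[k] K} {w : Place k K}
    (h : Pl i j w) : SpR w (mp i (genPt E)) 0 := by
  refine spR_zero_iff.2 (Or.inr ?_)
  rw [h.ordx]
  norm_num

end Pool.Agent.LibAC34
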