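import Pool.Agent.LibAC34.B1

/-!
[AC34 B2] orders of differences of abscissas. Proof of `ord_near`: if `P = 0`, both sides are zero.
Let `P = (x₁, y₁)`, `Q = (x₂, y₂)` (`Q ≠ 0` and `q ≠ 0` because `2 • q ≠ 0`: if `Q = 0` then `q = 0`;
if `q = 0` then `2 • q = 0`), `P + Q = (x₃, y₃)`, `v.ord x₁ < 0`, `x₂, y₂` regular, so `x₁ ≠ x₂`,
`x₃ = t ^ 2 + a₁ t - a₂ - x₁ - x₂`, `t = (y₁ - y₂) / (x₁ - x₂)` (`Affine.Point.add_some`, `addX`,
`slope_of_X_ne`; compare LibCHd/RedAdd.lean, RedAdd3.lean), and by the two Weierstrass equations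
`(x₃ - x₂) (x₁ - x₂) ^ 2 = - y₁ (2 y₂ + a₁ x₂ + a₃) + α x₁ + β` with
`α, β` polynomials in `x₂, y₂` over `k`, so regular:
`(y₁-y₂)^2 + a₁(y₁-y₂)(x₁-x₂) - (a₂ + x₁ + 2x₂)(x₁-x₂)^2` and
`y₁^2 + a₁x₁y₁ + a₃y₁ = x₁^3 + a₂x₁^2 + a₄x₁ + a₆` and the same for `x₂, y₂`.
`2 v.ord y₁ = 3 v.ord x₁` by the Weierstrass equation (`x₁` has a pole). `2 y₂ + a₁ x₂ + a₃` has order
zero because its residue is `y - negY x y` at `q = (x, y)`, which is not zero since `2 • q ≠ 0`
(`Affine.Point.add_self_of_Y_eq` or similar). With `v.ord x₁ = -2n`, `v.ord y₁ = -3n`, `n > 0`: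
the right side has order `-3n`, `(x₁ - x₂)^2` has order `-4n`, so `v.ord (x₃ - x₂) = n`.
-/

open WeierstrassCurve Pool.Agent.LibBH2 Pool.Agent.LibIG50 Pool.Agent.LibCHd
open scoped Classical

namespace Pool.Agent.LibAC34

variable {k : Type} [Field k] {E : WeierstrassCurve k} {K : Type} [Field K] [Algebra k K]

private theorem B2_dom {v : Place k K} {f g : K} (hf : f ≠ 0) (hg : g = 0 ∨ v.ord f < v.ord g) :
    f + g ≠ 0 ∧ v.ord (f + g) = v.ord f := by
  by_cases h0 : g = 0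
  · subst h0
    rw [add_zero]
    exact ⟨hf, rfl⟩
  · have hlt := hg.resolve_left h0
    have hne : f + g ≠ 0 := by
      intro h
      have h1 : g = -f := by linear_combination h
      rw [h1, v.ord_neg] at hlt
      exact lt_irrefl _ hlt
    refine ⟨hne, ?_⟩
    have h1 := v.ord_add f g hf h0 hne
    have h2 := v.ord_add (f + g) (-g) hne (neg_ne_zero.2 h0) (by rwa [add_neg_cancel_right])
    rw [add_neg_cancel_right, v.ord_neg] at h2
    omega

private theorem B2_add {v : Place k K} {n : ℤ} {f g : K} (hf : f = 0 ∨ n < v.ord f)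
    (hg : g = 0 ∨ n < v.ord g) : f + g = 0 ∨ n < v.ord (f + g) := by
  by_cases h0 : f + g = 0
  · exact Or.inl h0
  rcases hf with hf | hf
  · subst hf
    rw [zero_add]
    exact hg
  rcases hg with hg | hg
  · subst hg
    rw [add_zero]
    exact Or.inr hf
  by_cases hf0 : f = 0
  · subst hf0
    rw [zero_add]
    exact Or.inr hg
  by_cases hg0 : g = 0
  · subst hg0
    rw [add_zero]
    exact Or.inr hf
  have h1 := v.ord_add f g hf0 hg0 h0
  right
  omega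

private theorem B2_mul {v : Place k K} {n : ℤ} {c f : K} (hc : v.Reg c)
    (hf : f = 0 ∨ n < v.ord f) : c * f = 0 ∨ n < v.ord (c * f) := by
  by_cases h0 : c * f = 0
  · exact Or.inl h0
  have hc0 : c ≠ 0 := left_ne_zero_of_mul h0
  have hf0 : f ≠ 0 := right_ne_zero_of_mul h0
  have h1 := hc.resolve_left hc0
  have h2 := hf.resolve_left hf0
  right
  rw [v.ord_mul _ _ hc0 hf0]
  omega

private theorem B2_reg {v : Place k K} {n : ℤ} (hn : n < 0) {c : K} (hc : v.Reg c) :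
    c = 0 ∨ n < v.ord c := by
  rcases hc with h | h
  · exact Or.inl h
  · exact Or.inr (by omega)

/-- the orders of the coordinates at a pole -/
private theorem B2_pole {v : Place k K} {x y : K} (h : (E⁄K).toAffine.Equation x y)
    (hx : v.ord x < 0) : y ≠ 0 ∧ 2 * v.ord y = 3 * v.ord x := by
  have e := ((E⁄K).toAffine.equation_iff x y).1 h
  rw [a₁_eq, a₂_eq, a₃_eq, a₄_eq, a₆_eq] at e
  have hx0 : x ≠ 0 := by
    rintro rfl
    rw [v.ord_zero] at hx
    exact lt_irrefl _ hx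
  have o2 : v.ord (x ^ 2) = 2 * v.ord x := by rw [v.ord_pow]; norm_num
  have o3 : v.ord (x ^ 3) = 3 * v.ord x := by rw [v.ord_pow]; norm_num
  -- the right side
  have hR : (algebraMap k K E.a₂ * x ^ 2 + algebraMap k K E.a₄ * x + algebraMap k K E.a₆) = 0 ∨
      v.ord (x ^ 3) < v.ord (algebraMap k K E.a₂ * x ^ 2 + algebraMap k K E.a₄ * x +
        algebraMap k K E.a₆) := by
    rw [o3]
    refine B2_add (B2_add (B2_mul (v.reg_const _) (Or.inr ?_))
      (B2_mul (v.reg_const _) (Or.inr ?_))) (B2_reg (by omega) (v.reg_const _))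
    · rw [o2]; omega
    · omega
  have h1 := B2_dom (pow_ne_zero 3 hx0) hR
  have e1 : x ^ 3 + (algebraMap k K E.a₂ * x ^ 2 + algebraMap k K E.a₄ * x +
      algebraMap k K E.a₆) = y ^ 2 + (algebraMap k K E.a₁ * (x * y) + algebraMap k K E.a₃ * y) := by
    linear_combination -e
  rw [e1, o3] at h1
  have hy0 : y ≠ 0 := by
    rintro rfl
    apply h1.1
    ring
  refine ⟨hy0, ?_⟩
  have oy : v.ord (y ^ 2) = 2 * v.ord y := by rw [v.ord_pow]; norm_num
  have oxy : v.ord (x * y) = v.ord x + v.ord y := v.ord_mul _ _ hx0 hy0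
  rcases lt_trichotomy (2 * v.ord y) (3 * v.ord x) with h2 | h2 | h2
  · exfalso
    have h3 : (algebraMap k K E.a₁ * (x * y) + algebraMap k K E.a₃ * y) = 0 ∨
        v.ord (y ^ 2) < v.ord (algebraMap k K E.a₁ * (x * y) + algebraMap k K E.a₃ * y) := by
      rw [oy]
      refine B2_add (B2_mul (v.reg_const _) (Or.inr ?_)) (B2_mul (v.reg_const _) (Or.inr ?_))
      · rw [oxy]; omega
      · omega
    have h4 := B2_dom (pow_ne_zero 2 hy0) h3
    rw [h1.2, oy] at h4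
    omega
  · exact h2
  · exfalso
    have h3 : (y ^ 2 + (algebraMap k K E.a₁ * (x * y) + algebraMap k K E.a₃ * y)) = 0 ∨
        3 * v.ord x < v.ord (y ^ 2 + (algebraMap k K E.a₁ * (x * y) + algebraMap k K E.a₃ * y)) := by
      refine B2_add (Or.inr ?_) (B2_add (B2_mul (v.reg_const _) (Or.inr ?_))
        (B2_mul (v.reg_const _) (Or.inr ?_)))
      · rw [oy]; exact h2
      · rw [oxy]; omega
      · omega
    rcases h3 with h3 | h3
    · exact h1.1 h3
    · rw [h1.2] at h3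
      exact lt_irrefl _ h3

theorem ord_near [E.IsElliptic] {v : Place k K} {P Q : (E⁄K).toAffine.Point}
    {q : (E⁄(RF v)).toAffine.Point} (hP : SpR v P 0) (hQ : SpR v Q q) (hq : (2 : ℤ) • q ≠ 0) :
    2 * v.ord (hc (P + Q) 0 - hc Q 0) = - v.ord (hc P 0) := by
  match P, Q, q with
  | .zero, Q, q =>
    have h1 : (.zero : (E⁄K).toAffine.Point) + Q = Q := zero_add Q
    rw [h1, sub_self, v.ord_zero]
    have h2 : hc (.zero : (E⁄K).toAffine.Point) 0 = 0 := rfl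
    rw [h2, v.ord_zero]
    rfl
  | .some x₁ y₁ h₁, .zero, q =>
    exfalso
    have h1 : q = 0 := hQ
    apply hq
    rw [h1, two_zsmul, add_zero]
  | .some x₁ y₁ h₁, .some x₂ y₂ h₂, .zero =>
    exfalso
    apply hq
    rw [two_zsmul]
    exact add_zero 0
  | .some x₁ y₁ h₁, .some x₂ y₂ h₂, .some x₀ y₀ h₀ =>
    have hx1 : v.ord x₁ < 0 := hP
    have hr2 : Red v x₂ x₀ ∧ Red v y₂ y₀ := hQ
    obtain ⟨hrx, hry⟩ := hr2
    have hx10 : x₁ ≠ 0 := by
      rintro rfl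
      rw [v.ord_zero] at hx1
      exact lt_irrefl _ hx1
    obtain ⟨hy10, hy1⟩ := B2_pole h₁.1 hx1
    -- the difference of the abscissas
    have hd := B2_dom (f := x₁) (g := -x₂) hx10 (B2_reg hx1 hrx.reg.neg)
    rw [← sub_eq_add_neg] at hd
    have hne : x₁ ≠ x₂ := sub_ne_zero.1 hd.1
    have hxy : ¬ (x₁ = x₂ ∧ y₁ = (E⁄K).toAffine.negY x₂ y₂) := fun h => hne h.1
    rw [Affine.Point.add_some hxy]
    show 2 * v.ord ((E⁄K).toAffine.addX x₁ x₂ ((E⁄K).toAffine.slope x₁ x₂ y₁ y₂) - x₂) =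
      - v.ord x₁
    rw [addX_eq, Affine.slope_of_X_ne hne]
    -- the residue of the third factor
    have hR0 : 2 * y₀ + algebraMap k (RF v) E.a₁ * x₀ + algebraMap k (RF v) E.a₃ ≠ 0 := by
      intro h
      apply hq
      have h3 : y₀ = (E⁄(RF v)).toAffine.negY x₀ y₀ := by
        rw [negY_eq]
        linear_combination h
      rw [two_zsmul]
      exact Affine.Point.add_of_Y_eq rfl h3
    have hRr : Red v (2 * y₂ + algebraMap k K E.a₁ * x₂ + algebraMap k K E.a₃)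
        (2 * y₀ + algebraMap k (RF v) E.a₁ * x₀ + algebraMap k (RF v) E.a₃) := by
      rw [two_mul, two_mul]
      exact ((hry.add hry).add ((red_const v _).mul hrx)).add (red_const v _)
    have hR1 := hRr.ord_eq_zero hR0
    have hR2 := hRr.ne_zero hR0
    have e₁ := ((E⁄K).toAffine.equation_iff x₁ y₁).1 h₁.1
    have e₂ := ((E⁄K).toAffine.equation_iff x₂ y₂).1 h₂.1
    rw [a₁_eq, a₂_eq, a₃_eq, a₄_eq, a₆_eq] at e₁ e₂
    generalize hA1 : algebraMap k K E.a₁ = A₁ at *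
    generalize hA2 : algebraMap k K E.a₂ = A₂ at *
    generalize hA3 : algebraMap k K E.a₃ = A₃ at *
    generalize hA4 : algebraMap k K E.a₄ = A₄ at *
    generalize hA6 : algebraMap k K E.a₆ = A₆ at *
    have r1 : v.Reg A₁ := hA1 ▸ v.reg_const _
    have r2 : v.Reg A₂ := hA2 ▸ v.reg_const _
    have r3 : v.Reg A₃ := hA3 ▸ v.reg_const _
    have r4 : v.Reg A₄ := hA4 ▸ v.reg_const _
    have r6 : v.Reg A₆ := hA6 ▸ v.reg_const _
    have rx := hrx.reg
    have ry := hry.reg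
    have rn : ∀ n : ℕ, v.Reg (n : K) := fun n => by
      have := v.reg_const (n : k)
      rwa [map_natCast] at this
    have r3' : v.Reg (3 : K) := by exact_mod_cast rn 3
    have r2' : v.Reg (2 : K) := by exact_mod_cast rn 2
    have hdne : x₁ - x₂ ≠ 0 := hd.1
    have e3 : (((y₁ - y₂) / (x₁ - x₂)) ^ 2 + A₁ * ((y₁ - y₂) / (x₁ - x₂)) - A₂ - x₁ - x₂ - x₂) *
        (x₁ - x₂) ^ 2 = -(y₁ * (2 * y₂ + A₁ * x₂ + A₃)) +
        ((3 * x₂ ^ 2 + 2 * A₂ * x₂ + A₄ - A₁ * y₂) * x₁ +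
          (A₄ * x₂ + 2 * A₆ - A₃ * y₂ - x₂ ^ 3)) := by
      field_simp
      linear_combination e₁ + e₂
    have o1 : v.ord (-(y₁ * (2 * y₂ + A₁ * x₂ + A₃))) = v.ord y₁ := by
      rw [v.ord_neg, v.ord_mul _ _ hy10 hR2, hR1, add_zero]
    have hT := B2_dom (v := v) (f := -(y₁ * (2 * y₂ + A₁ * x₂ + A₃)))
      (g := (3 * x₂ ^ 2 + 2 * A₂ * x₂ + A₄ - A₁ * y₂) * x₁ +
          (A₄ * x₂ + 2 * A₆ - A₃ * y₂ - x₂ ^ 3)) (neg_ne_zero.2 (mul_ne_zero hy10 hR2)) (by
        rw [o1]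
        refine B2_add (B2_mul ?_ (Or.inr (by omega))) (B2_reg (by omega) ?_)
        · exact (((r3'.mul (rx.pow 2)).add ((r2'.mul r2).mul rx)).add r4).sub (r1.mul ry)
        · exact (((r4.mul rx).add (r2'.mul r6)).sub (r3.mul ry)).sub (rx.pow 3))
    rw [← e3, o1] at hT
    have hz : ((y₁ - y₂) / (x₁ - x₂)) ^ 2 + A₁ * ((y₁ - y₂) / (x₁ - x₂)) - A₂ - x₁ - x₂ - x₂ ≠ 0 :=
      left_ne_zero_of_mul hT.1
    have h5 := hT.2
    rw [v.ord_mul _ _ hz (pow_ne_zero 2 hdne), v.ord_pow, hd.2] at h5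
    push_cast at h5
    omega

end Pool.Agent.LibAC34
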