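import Pool.Agent.LibAC34.B1

/-!
[AC34 B3] zeros and poles of the difference of two abscissas.
-/

open WeierstrassCurve Pool.Agent.LibBH2 Pool.Agent.LibIG50 Pool.Agent.LibCHd
open scoped Classical

namespace Pool.Agent.LibAC34

variable {k : Type} [Field k] {E : WeierstrassCurve k} {K : Type} [Field K] [Algebra k K]

theorem ord_far {v : Place k K} {f g : K} (hf : v.ord f < 0) (hg : v.Reg g) :
    v.ord (f - g) = v.ord f := by
  have hf0 : f ≠ 0 := by
    rintro rfl
    rw [v.ord_zero] at hf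
    exact lt_irrefl _ hf
  by_cases hg0 : g = 0
  · rw [hg0, sub_zero]
  · have h1 : 0 ≤ v.ord g := hg.resolve_left hg0
    rw [sub_eq_add_neg]
    exact (v.ord_add_of_lt hf0 (neg_ne_zero.2 hg0) (by rw [v.ord_neg]; omega)).2

theorem classify [E.IsElliptic] {v : Place k K} {P Q : (E⁄K).toAffine.Point}
    (h : v.ord (hc P 0 - hc Q 0) ≠ 0) :
    SpR v P 0 ∨ SpR v Q 0 ∨ SpR v (P - Q) 0 ∨ SpR v (P + Q) 0 := by
  obtain ⟨p, hp⟩ := SpR_exists v P
  obtain ⟨q, hq⟩ := SpR_exists v Q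
  by_cases hp0 : p = 0
  · subst hp0; exact Or.inl hp
  by_cases hq0 : q = 0
  · subst hq0; exact Or.inr (Or.inl hq)
  right; right
  match P, Q, p, q, hp, hq with
  | .zero, _, p, _, hp, _ => exact absurd hp hp0
  | _, .zero, _, q, _, hq => exact absurd hq hq0
  | .some x₁ y₁ h₁, .some x₂ y₂ h₂, .zero, _, _, _ => exact absurd rfl hp0
  | .some x₁ y₁ h₁, .some x₂ y₂ h₂, _, .zero, _, _ => exact absurd rfl hq0
  | .some x₁ y₁ h₁, .some x₂ y₂ h₂, .some a₁ b₁ k₁, .some a₂ b₂ k₂, hp, hq =>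
    have e1 : Red v (x₁ - x₂) (a₁ - a₂) := Red.sub hp.1 hq.1
    have e2 : a₁ - a₂ = 0 := by
      by_contra hne
      exact h (e1.ord_eq_zero hne)
    have e3 : a₁ = a₂ := sub_eq_zero.1 e2
    subst e3
    have e4 := Affine.Y_eq_of_X_eq k₁.1 k₂.1 rfl
    rcases e4 with e4 | e4
    · left
      subst e4
      have h5 := SpR_add hp (spR_neg hq)
      rw [← sub_eq_add_neg, ← sub_eq_add_neg, sub_self] at h5
      exact h5
    · right
      have h5 := SpR_add hp hq
      rw [Affine.Point.add_of_Y_eq rfl e4] at h5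
      exact h5

end Pool.Agent.LibAC34
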