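import Pool.Agent.LibAC34.B1

/-!
[AC34 B4] specialisations at the place at the origin, and at the other places.
-/

open WeierstrassCurve Pool.Agent.LibBH2 Pool.Agent.LibIG50 Pool.Agent.LibCHd
open scoped Classical

namespace Pool.Agent.LibAC34

variable {k : Type} [Field k] [CharZero k] {E : WeierstrassCurve k} [E.IsElliptic] {M K : Type}
  [Field M] [Algebra k M] [Field K] [Algebra k K] {r : ℕ} {W : Fin r → WeierstrassCurve k}
  {Y : Prj k} {i : KE E →ₐ[k] K} {j : M →ₐ[k] K}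

theorem spV_pl (hW : ∀ n, (W n).IsElliptic) {w : Place k K} (h : Pl i j w) (ε : M →ₐ[k] RF w)
    (hε : ∀ m, Red w (j m) (ε m)) (t : Fin r → ℤ) (u : Pnt W Y M) :
    SpV w (Pnt.add (fun n => t n • tr E (W n) (mp i (genPt E))) (u.map j)) (u.map ε) := by
  refine ⟨fun n => ?_, 1, one_ne_zero, fun a => ?_⟩
  · have := hW n
    have h1 : SpR w (t n • tr E (W n) (mp i (genPt E)))
        (t n • tr E (W n) (0 : (E⁄(RF w)).toAffine.Point)) :=
      spR_zsmul (t n) (spR_tr (W n) h.sp)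
    have h2 := SpR_of_triv j w ε hε (u.z n)
    have h3 := SpR_add h1 h2
    rw [tr_zero, smul_zero, zero_add] at h3
    exact h3
  · rw [one_mul]
    exact hε (u.y a)

theorem cyc_zero_pl [IsAlgClosed k] (hW : ∀ n, (W n).IsElliptic) {d : ℕ} (hM : FunF k d M)
    (v : Place k K) (hv : SpR v (mp i (genPt E)) 0) (m₀ : M) (hm₀ : v.ord (j m₀) ≠ 0)
    (hF : FunF k d (RF v)) (t : Fin r → ℤ) (u : Pnt W Y M) (q : Pnt W Y (RF v))
    (hq : SpV v (Pnt.add (fun n => t n • tr E (W n) (mp i (genPt E))) (u.map j)) q) :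
    cyc q = 0 := by
  have hφ : v.ord (i (DE E).s) ≠ 0 := by
    obtain ⟨h', hs⟩ := mp_some i (DE E).s _ ((Affine.equation_iff_nonsingular_of_Δ_ne_zero
      (W := E⁄(KE E)) (baseChange_Δ_ne (KE E) E)).1 (gen_equation E))
    have hs' : mp i (genPt E) = _ := hs
    rcases spR_zero_iff.1 hv with h | h
    · rw [hs'] at h
      exact absurd h (WeierstrassCurve.Affine.Point.some_ne_zero _)
    · rw [hs'] at h
      exact ne_of_lt h
  refine cyc_eq_zero hW funF_KE hM i j (fun n => t n • tr E (W n) (genPt E)) u v (DE E).s hφ m₀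
    hm₀ hF q ?_
  have h1 : (fun n => mp i (t n • tr E (W n) (genPt E))) =
      fun n => t n • tr E (W n) (mp i (genPt E)) := by
    funext n
    rw [map_zsmul, mp_tr]
  rw [h1]
  exact hq

omit [E.IsElliptic] in
theorem two_ne {M₀ : Type} [Field M₀] [Algebra k M₀] {i : M₀ →ₐ[k] M}
    {ξ : (E⁄M).toAffine.Point} (h : Gen1 i E ξ) : (2 : ℤ) • ξ ≠ 0 := by
  obtain ⟨x, y, hxy, rfl, htr, -⟩ := h
  intro h2
  have hc0 : CharZero M₀ := charZero_of_injective_algebraMap (algebraMap k M₀).injective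
  rw [two_zsmul] at h2
  have h3 := eq_neg_of_add_eq_zero_left h2
  rw [WeierstrassCurve.Affine.Point.neg_some] at h3
  have h4 : y = (E⁄M).toAffine.negY x y := by
    injection h3
  have heq := (WeierstrassCurve.Affine.equation_iff _ _).1 hxy.1
  rw [WeierstrassCurve.Affine.negY] at h4
  refine htr (Polynomial.C 4 * Polynomial.X ^ 3 +
    Polynomial.C (algebraMap k M₀ E.b₂) * Polynomial.X ^ 2 +
    Polynomial.C (algebraMap k M₀ (2 * E.b₄)) * Polynomial.X +
    Polynomial.C (algebraMap k M₀ E.b₆)) ?_ ?_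
  · intro h5
    have h6 := congrArg (fun G => Polynomial.coeff G 3) h5
    simp [Polynomial.coeff_X, Polynomial.coeff_C] at h6
  · simp only [Polynomial.eval₂_add, Polynomial.eval₂_mul, Polynomial.eval₂_C,
      Polynomial.eval₂_X_pow, Polynomial.eval₂_X, RingHom.coe_coe, AlgHom.commutes]
    have e1 : (E⁄M).a₁ = algebraMap k M E.a₁ := rfl
    have e2 : (E⁄M).a₂ = algebraMap k M E.a₂ := rfl
    have e3 : (E⁄M).a₃ = algebraMap k M E.a₃ := rfl
    have e4 : (E⁄M).a₄ = algebraMap k M E.a₄ := rfl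
    have e6 : (E⁄M).a₆ = algebraMap k M E.a₆ := rfl
    rw [e1, e3] at h4
    rw [e1, e2, e3, e4, e6] at heq
    rw [WeierstrassCurve.b₂, WeierstrassCurve.b₄, WeierstrassCurve.b₆]
    simp only [map_add, map_mul, map_pow, map_ofNat]
    linear_combination (2 * y + algebraMap k M E.a₁ * x + algebraMap k M E.a₃) * h4 - 4 * heq

end Pool.Agent.LibAC34
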