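import Pool.Agent.LibAC34.A5b
import Pool.Agent.LibAC34.B2
import Pool.Agent.LibAC34.B3
import Pool.Agent.LibAC34.B4

/-!
[AC34 B5] the parallelogram law. Proof. Let `K` be the compositum of `KE E` and `M`
(`exists_cps_KE`), with `i₁, j₁`, `P = mp i₁ (genPt E)`, `Q = mp j₁ ξ`; `Gen1 j₁ E P`
(`gen1_of_cps`). `gen1_swap`: `j₂` with `j₂ ∘ i = j₁ ∘ i`, `mp j₂ ξ = P`, `Gen1 j₂ E Q`; `gen1_cps`:
`i₂` with `mp i₂ (genPt E) = Q`, `IsCps i₂ j₂`. `gen1_add`: `Gen1 j₁ E (P - Q)` (`b = -ξ`) and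
`Gen1 j₂ E (Q + P)` (`b = ξ`); `gen1_cps`: `i₃` with `mp i₃ (genPt E) = P - Q`, `IsCps i₃ j₁`, and `i₄`
with `mp i₄ (genPt E) = Q + P`, `IsCps i₄ j₂`. `exists_pl` gives places `w₁, w₂, w₃, w₄`.
(The transcendence degree of `K` is `d + 1`: `IsCps.funF`, `funF_KE`, `FunF.trdeg`.)
Let `κ = j₁ ∘ i = j₂ ∘ i`, `u = v P + w Q + T` (`Pnt.add (fun n => v n • tr P + w n • tr Q) (T.map κ)`)
and `g = hc P 0 - hc Q 0`. In terms of the four structures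
`u = v P + (ph w).map j₁ = w Q + (ph v).map j₂ = v (P - Q) + (ph (v + w)).map j₁ =
w (P + Q) + (ph (v - w)).map j₂`.
`exists_res_equiv` gives `ε_n : M ≃ RF w_n`, and `spV_pl` the specialisations `(ph ..).map ε_n` at
the four places, with cycles `cyc (ph w)`, `cyc (ph v)`, `cyc (ph (v + w))`, `cyc (ph (v - w))`
(`cyc_map`). Orders of `g`: at `w₁`: `ordx` and `ord_far` (`hc Q 0 = j₁ (hc ξ 0)`, `hc_mp`): `-2`; at
`w₂`: the same with `ord_neg` (`g = -(hc Q 0 - hc P 0)`): `-2`; at `w₃`: `ord_near` with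
`P - Q`, `Q`: `2 ord = 2`, so `1` (the value of `Q` is `mp ε₃ ξ`, `SpR_of_triv`; `2 • mp ε₃ ξ ≠ 0` by
`two_ne` and injectivity of `mp`); at `w₄`: `ord_near` with `Q + P`, `-P`:
`hc (-P) 0 = hc P 0`, `(Q + P) + (-P) = Q`, so `ord (hc Q 0 - hc P 0) = 1`. The places are different:
`w₁, w₂` and `w₃, w₄` by the order of `g`; `w₁ ≠ w₂`: `hc P 0` has a pole at `w₁` and is `j₂ (hc ξ 0)`,
without pole at `w₂`; `w₃ ≠ w₄`: at `w₃` the value of `P + Q = (P - Q) + 2 Q` is `2 ξ ≠ 0`, at `w₄` it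
is `0` (`SpR_unique`). Other places `v'` with `v'.ord g ≠ 0`: `classify` gives `R` among `P`, `Q`,
`P - Q`, `P + Q` with `SpR v' R 0`; if `v'` is trivial on `j M` (the `j` of this `R`), then `v'` is one
of the four places (`uniq`), otherwise `cyc_zero_pl`. `IsDiv` with
`S = {w₁, w₂, w₃, w₄}`: `∑ = (-2) cyc (ph w) + (-2) cyc (ph v) + cyc (ph (v + w)) + cyc (ph (v - w))`.
Compare `key` in LibCHd/Key.lean.
-/

open WeierstrassCurve Pool.Agent.LibBH2 Pool.Agent.LibIG50 Pool.Agent.LibCHd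
open scoped Classical

namespace Pool.Agent.LibAC34

variable {k : Type} [Field k] [CharZero k] [IsAlgClosed k] {E : WeierstrassCurve k}
  [E.IsElliptic] {M₀ M : Type} [Field M₀] [Algebra k M₀] [Field M] [Algebra k M]
  {r : ℕ} {W : Fin r → WeierstrassCurve k} {Y : Prj k} {i : M₀ →ₐ[k] M}
  {ξ : (E⁄M).toAffine.Point}

/-- the four structures on the function field of `E × E` -/
theorem exists_four (h : Gen1 i E ξ) {d : ℕ} (hM : FunF k (d + 1) M) :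
    ∃ (K : Type) (_ : Field K) (_ : Algebra k K) (i₁ i₂ i₃ i₄ : KE E →ₐ[k] K)
      (j₁ j₂ : M →ₐ[k] K) (P Q : (E⁄K).toAffine.Point),
      FunF k (d + 2) K ∧ (∀ m, j₂ (i m) = j₁ (i m)) ∧
      IsCps i₁ j₁ ∧ IsCps i₂ j₂ ∧ IsCps i₃ j₁ ∧ IsCps i₄ j₂ ∧
      mp i₁ (genPt E) = P ∧ mp i₂ (genPt E) = Q ∧ mp i₃ (genPt E) = P - Q ∧
      mp i₄ (genPt E) = P + Q ∧ mp j₁ ξ = Q ∧ mp j₂ ξ = P := by
  obtain ⟨K, iK, aK, i₁, j₁, hc₁⟩ := exists_cps_KE E M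
  have hP : Gen1 j₁ E (mp i₁ (genPt E)) := gen1_of_cps hc₁
  have hK : FunF k (d + 2) K := IsCps.funF i₁ j₁ hc₁ funF_KE hM
  obtain ⟨j₂, hj, hj₂, hQ⟩ := gen1_swap h (d := d) hM.trdeg hP
  obtain ⟨i₂, hi₂, hc₂⟩ := gen1_cps j₂ (mp j₁ ξ) hQ
  have h3 := gen1_add hP (d := d + 1) hK.trdeg (-ξ)
  obtain ⟨i₃, hi₃, hc₃⟩ := gen1_cps j₁ _ h3
  have h4 := gen1_add hQ (d := d + 1) hK.trdeg ξ
  obtain ⟨i₄, hi₄, hc₄⟩ := gen1_cps j₂ _ h4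
  refine ⟨K, iK, aK, i₁, i₂, i₃, i₄, j₁, j₂, mp i₁ (genPt E), mp j₁ ξ, hK, hj, hc₁, hc₂, hc₃, hc₄,
    rfl, hi₂, ?_, ?_, rfl, hj₂⟩
  · rw [hi₃, map_neg, ← sub_eq_add_neg]
  · rw [hi₄, hj₂, add_comm]

end Pool.Agent.LibAC34
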