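import Pool.Agent.LibAC34.A5b
import Pool.Agent.LibAC34.A6

/-!
[AC34 C1] change of the generic point, and the columns of the matrix. Proofs. `ph_map`: `Pnt` is a
structure with proofs: prove equality of the fields `z`, `y` (a lemma `Pnt.ext`); `mp` is additive,
`mp_tr`; `σ ∘ i = i`. `cyc_ph`: `gen1_aut` gives `σ`, `ph_map`, `cyc_map` (LibCHd/B6).
`exists_ph`: `exists_base` gives `M₀`, `l'`, `ξ'`; put
`T.z n = constPt M₀ (g n) + (∑ b ∈ {b | b ≠ a}, N n b • tr (V b) (W n) (ξ' b)) + mp l' (u.z n)`,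
`T.y = l' ∘ u.y`; `mp_constPt` (`mp f (constPt _ p) = constPt _ p`: by cases), `mp_tr`.
-/

open WeierstrassCurve Pool.Agent.LibBH2 Pool.Agent.LibIG50 Pool.Agent.LibCHd
open scoped Classical

namespace Pool.Agent.LibAC34

variable {k : Type} [Field k] {E : WeierstrassCurve k} {r : ℕ} {W : Fin r → WeierstrassCurve k}
  {Y : Prj k}

theorem pnt_ext {M : Type} [Field M] [Algebra k M] {u v : Pnt W Y M} (hz : u.z = v.z)
    (hy : u.y = v.y) : u = v := by
  cases u; cases v; cases hz; cases hy; rfl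

theorem mp_constPt {F G : Type} [Field F] [Algebra k F] [Field G] [Algebra k G] (f : F →ₐ[k] G)
    (p : E.toAffine.Point) : mp f (constPt F p) = constPt G p := mp_const f p

private theorem C1_comp {F G H : Type} [Field F] [Algebra k F] [Field G] [Algebra k G] [Field H]
    [Algebra k H] (f : F →ₐ[k] G) (g : G →ₐ[k] H) (fg : F →ₐ[k] H) (h : ∀ m, g (f m) = fg m)
    (p : (E⁄F).toAffine.Point) : mp g (mp f p) = mp fg p := by
  match p with
  | .zero =>
    have h1 : mp f (.zero : (E⁄F).toAffine.Point) = 0 := mp_zero f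
    have h2 : mp fg (.zero : (E⁄F).toAffine.Point) = 0 := mp_zero fg
    rw [h1, h2, mp_zero]
  | .some x y hxy =>
    obtain ⟨h1, e1⟩ := mp_some f x y hxy
    obtain ⟨h2, e2⟩ := mp_some g (f x) (f y) h1
    obtain ⟨h3, e3⟩ := mp_some fg x y hxy
    rw [e1, e2, e3]
    congr 1
    · exact h x
    · exact h y

section one
variable {M₀ M : Type} [Field M₀] [Algebra k M₀] [Field M] [Algebra k M] {i : M₀ →ₐ[k] M}
  {ξ ξ' : (E⁄M).toAffine.Point}

theorem ph_map (σ : M →ₐ[k] M) (hσ : ∀ m, σ (i m) = i m) (T : Pnt W Y M₀) (v : Fin r → ℤ) :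
    (ph i E ξ T v).map σ = ph i E (mp σ ξ) T v := by
  apply pnt_ext
  · funext n
    change mp σ (v n • tr E (W n) ξ + mp i (T.z n)) = v n • tr E (W n) (mp σ ξ) + mp i (T.z n)
    rw [map_add, map_zsmul, mp_tr, C1_comp i σ i hσ]
  · funext c
    exact hσ (T.y c)

theorem cyc_ph (h : Gen1 i E ξ) (h' : Gen1 i E ξ') (T : Pnt W Y M₀) (v : Fin r → ℤ) :
    cyc (ph i E ξ' T v) = cyc (ph i E ξ T v) := by
  obtain ⟨σ, hσ, hξ⟩ := gen1_aut h h'
  rw [← hξ, ← ph_map (σ : M →ₐ[k] M) hσ T v, cyc_map]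

end one

variable {L K : Type} [Field L] [Algebra k L] [Field K] [Algebra k K] {l : L →ₐ[k] K} {D : ℕ}
  {V : Fin D → WeierstrassCurve k} {ξ : ∀ a, ((V a)⁄K).toAffine.Point}

private theorem C1_core {F : Type} [Field F] [Algebra k F] (i : F →ₐ[k] K) (l' : L →ₐ[k] F)
    (a : Fin D) (ξ' : ∀ b, b ≠ a → ((V b)⁄F).toAffine.Point) (hl : ∀ x, i (l' x) = l x)
    (hξ : ∀ b hb, mp i (ξ' b hb) = ξ b) (r : ℕ) (W : Fin r → WeierstrassCurve k) (Y : Prj k)
    (N : Matrix (Fin r) (Fin D) ℤ) (g : Pts W) (u : Pnt W Y L) :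
    ∃ T : Pnt W Y F, ∀ (η : ((V a)⁄K).toAffine.Point) (v : Fin r → ℤ),
        lin l (Function.update ξ a η) (N.updateCol a v) g u = ph i (V a) η T v := by
  refine ⟨trl g (Pnt.add (fun n => ∑ b, N n b • tr (V b) (W n)
    (if hb : b ≠ a then ξ' b hb else 0)) (u.map l')), ?_⟩
  intro η v
  apply pnt_ext
  · funext n
    simp only [lin, ph, trl, Pnt.add, Pnt.map]
    rw [map_add, map_add, mp_constPt, C1_comp l' i l hl, map_sum,
      ← Finset.add_sum_erase Finset.univ _ (Finset.mem_univ a),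
      ← Finset.add_sum_erase Finset.univ (fun b => mp i (N n b • tr (V b) (W n)
        (if hb : b ≠ a then ξ' b hb else 0))) (Finset.mem_univ a)]
    have e1 : mp i (N n a • tr (V a) (W n) (if hb : a ≠ a then ξ' a hb else 0)) = 0 := by
      rw [dif_neg (fun h => h rfl), tr_zero, smul_zero, mp_zero]
    have e2 : ∀ b ∈ Finset.univ.erase a, (N.updateCol a v) n b • tr (V b) (W n)
        (Function.update ξ a η b) = mp i (N n b • tr (V b) (W n)
        (if hb : b ≠ a then ξ' b hb else 0)) := by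
      intro b hb
      have hba : b ≠ a := Finset.ne_of_mem_erase hb
      rw [Matrix.updateCol_ne hba, Function.update_of_ne hba, dif_pos hba, map_zsmul, mp_tr, hξ]
    rw [Finset.sum_congr rfl e2, e1, Matrix.updateCol_self, Function.update_self]
    abel
  · funext c
    exact (hl (u.y c)).symm

/-- the point `N ξ + g + u` as a point `v ξ_a + T`, where `v` is the column `a` of the matrix -/
theorem exists_ph {e : ℕ} (h : IsGen e l V ξ) (a : Fin D) :
    ∃ (M₀ : IntermediateField k K) (l' : L →ₐ[k] M₀)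
      (ξ' : ∀ b, b ≠ a → ((V b)⁄M₀).toAffine.Point), (∀ x, M₀.val (l' x) = l x) ∧
      (∀ b hb, mp M₀.val (ξ' b hb) = ξ b) ∧ Gen1 M₀.val (V a) (ξ a) ∧
      ∀ (r : ℕ) (W : Fin r → WeierstrassCurve k) (Y : Prj k) (N : Matrix (Fin r) (Fin D) ℤ)
        (g : Pts W) (u : Pnt W Y L), ∃ T : Pnt W Y M₀, ∀ (η : ((V a)⁄K).toAffine.Point)
        (v : Fin r → ℤ),
        lin l (Function.update ξ a η) (N.updateCol a v) g u = ph M₀.val (V a) η T v := by
  obtain ⟨M₀, l', ξ', hl, hξ, hG⟩ := exists_base h a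
  exact ⟨M₀, l', ξ', hl, hξ, hG, C1_core M₀.val l' a ξ' hl hξ⟩

end Pool.Agent.LibAC34
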