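import Pool.Agent.LibAC34.HG2

/-!
Matrices with entries in orders of imaginary quadratic fields.
-/

open WeierstrassCurve Pool.Agent.LibBH2 Pool.Agent.LibIG50 Pool.Agent.LibCHd
open scoped Classical

namespace Pool.Agent.LibAC34

variable {k : Type} [Field k]

/-- for an endomorphism `w` of the curve `E` and `c = (x, y)` the endomorphism `x + y w` of `E(F)` -/
noncomputable def sm {E : WeierstrassCurve k} (w : Hm E E) (F : Type) [Field F] [Algebra k F]
    (c : ℤ × ℤ) : (E⁄F).toAffine.Point →+ (E⁄F).toAffine.Point :=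
  AddMonoidHom.mk' (fun P => c.1 • P + c.2 • w.f F P) fun P Q => by
    rw [map_add, smul_add, smul_add]
    abel

/-- the same for points over `k` -/
noncomputable def smk {E : WeierstrassCurve k} (w : Hm E E) (c : ℤ × ℤ) (p : E.toAffine.Point) :
    E.toAffine.Point :=
  c.1 • p + c.2 • w.k0 p

/-- The point `φ (N ξ + g) + u` of `W 1 × ... × W r × Y`, where `u` is a point with coordinates in `L`:
its component in the curve `W i` is the image under `φ i : W' i → W i` of the point
`g i + ∑ N i a ξ a`, plus the component of `u`, the sum being over the indices `a` with `V a = W' i`;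
the pair `N i a = (x, y)` acts as `x + y w`, `w` being the given endomorphism of `W' i`. The component
in `Y` is that of `u`. -/
noncomputable def linC (w : ∀ E : WeierstrassCurve k, Hm E E) {L K : Type} [Field L] [Algebra k L]
    [Field K] [Algebra k K] (l : L →ₐ[k] K) {D r : ℕ} {V : Fin D → WeierstrassCurve k}
    {W' W : Fin r → WeierstrassCurve k} (φ : ∀ i, Hm (W' i) (W i)) {Y : Prj k}
    (ξ : ∀ a, ((V a)⁄K).toAffine.Point) (N : Matrix (Fin r) (Fin D) (ℤ × ℤ)) (g : Pts W')
    (u : Pnt W Y L) : Pnt W Y K :=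
  Pnt.add (fun i => (φ i).f K (constPt K (g i) +
    ∑ a, sm (w (W' i)) K (N i a) (tr (V a) (W' i) (ξ a)))) (u.map l)

/-- the class of the cycle of the point `φ (N ξ + g) + u` -/
noncomputable def clC (w : ∀ E : WeierstrassCurve k, Hm E E) {L K : Type} [Field L] [Algebra k L]
    [Field K] [Algebra k K] (l : L →ₐ[k] K) (m : ℕ) {D r : ℕ} {V : Fin D → WeierstrassCurve k}
    {W' W : Fin r → WeierstrassCurve k} (φ : ∀ i, Hm (W' i) (W i)) {Y : Prj k}
    (ξ : ∀ a, ((V a)⁄K).toAffine.Point) (u : Pnt W Y L) (N : Matrix (Fin r) (Fin D) (ℤ × ℤ))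
    (g : Pts W') : CH W Y m :=
  QuotientAddGroup.mk (cyc (linC w l φ ξ N g u))

/-- the pair of `w (x + y w)` if `w ^ 2 = t w - n` -/
def mulw (t n : ℤ) (c : ℤ × ℤ) : ℤ × ℤ := (-n * c.2, c.1 + t * c.2)

/-- the relation `w ^ 2 = t w - n` -/
def Quad {E : WeierstrassCurve k} (w : Hm E E) (t n : ℤ) : Prop :=
  ∀ (F : Type) [Field F] [Algebra k F] (P : (E⁄F).toAffine.Point),
    w.f F (w.f F P) = t • w.f F P - n • P

section rules
variable {E : WeierstrassCurve k} (w : Hm E E) {F G : Type} [Field F] [Algebra k F] [Field G]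
  [Algebra k G]

theorem sm_apply (c : ℤ × ℤ) (P : (E⁄F).toAffine.Point) :
    sm w F c P = c.1 • P + c.2 • w.f F P := rfl

theorem sm_add' (c d : ℤ × ℤ) (P : (E⁄F).toAffine.Point) :
    sm w F (c + d) P = sm w F c P + sm w F d P := by
  simp only [sm_apply, Prod.fst_add, Prod.snd_add, add_smul]
  abel

theorem sm_sub' (c d : ℤ × ℤ) (P : (E⁄F).toAffine.Point) :
    sm w F (c - d) P = sm w F c P - sm w F d P := by
  simp only [sm_apply, Prod.fst_sub, Prod.snd_sub, sub_smul]
  abel

theorem mp_sm (σ : F →ₐ[k] G) (c : ℤ × ℤ) (P : (E⁄F).toAffine.Point) :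
    mp σ (sm w F c P) = sm w G c (mp σ P) := by
  rw [sm_apply, sm_apply, map_add, map_zsmul, map_zsmul, ← w.nat]

theorem spR_sm [E.IsElliptic] {K : Type} [Field K] [Algebra k K] {v : Place k K} (c : ℤ × ℤ)
    {P : (E⁄K).toAffine.Point} {p : (E⁄(RF v)).toAffine.Point} (h : SpR v P p) :
    SpR v (sm w K c P) (sm w (RF v) c p) :=
  SpR_add (spR_zsmul _ h) (spR_zsmul _ (w.sp K v _ _ h))

theorem sm_mulw {t n : ℤ} (hw : Quad w t n) (c : ℤ × ℤ) (P : (E⁄F).toAffine.Point) :
    sm w F (mulw t n c) P = sm w F c (w.f F P) := by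
  simp only [sm_apply, mulw, hw F P]
  rw [smul_sub, smul_smul, smul_smul, add_smul, mul_comm t c.2, neg_mul, neg_smul,
    mul_comm n c.2]
  abel

theorem sm_comm (c : ℤ × ℤ) (P : (E⁄F).toAffine.Point) :
    sm w F c (w.f F P) = w.f F (sm w F c P) := by
  rw [sm_apply, sm_apply, map_add, map_zsmul, map_zsmul]

theorem sm_const (c : ℤ × ℤ) (p : E.toAffine.Point) :
    sm w F c (constPt F p) = constPt F (smk w c p) := by
  rw [sm_apply, smk, HG_const_add, HG_const_zsmul, HG_const_zsmul, w.const]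

end rules

/-- the endomorphisms `w` and the transport of points between equal curves -/
theorem tr_w (w : ∀ E : WeierstrassCurve k, Hm E E) {F : Type} [Field F] [Algebra k F]
    (V W : WeierstrassCurve k) (P : (V⁄F).toAffine.Point) :
    tr V W ((w V).f F P) = (w W).f F (tr V W P) := by
  by_cases h : V = W
  · subst h; rw [tr_self, tr_self]
  · rw [tr_ne h, tr_ne h, map_zero]

end Pool.Agent.LibAC34
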