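import Pool.Agent.LibAC34.CG

/-!
Multiplication of a column by an endomorphism multiplies the cycle by a number.
-/

open WeierstrassCurve Pool.Agent.LibBH2 Pool.Agent.LibIG50 Pool.Agent.LibCHd
open scoped Classical

namespace Pool.Agent.LibAC34

variable {k : Type} [Field k]

section map
variable {r : ℕ} {W : Fin r → WeierstrassCurve k} {Y : Prj k}
variable {M M' : Type} [Field M] [Algebra k M] [Field M'] [Algebra k M']

theorem fld_map' (ε : M →ₐ[k] M') (u : Pnt W Y M) : fld (u.map ε) = (fld u).map ε := by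
  unfold fld
  rw [IntermediateField.adjoin_map]
  congr 1
  rw [Set.image_union]
  congr 1
  · ext c
    simp only [Set.mem_ofPred_eq, Set.mem_image]
    constructor
    · rintro ⟨i, a, b, rfl⟩
      refine ⟨_, ⟨i, a, b, rfl⟩, ?_⟩
      rw [map_div₀, ← hc_mp, ← hc_mp]
      rfl
    · rintro ⟨_, ⟨i, a, b, rfl⟩, rfl⟩
      refine ⟨i, a, b, ?_⟩
      rw [map_div₀, ← hc_mp, ← hc_mp]
      rfl
  · ext c
    simp only [Set.mem_ofPred_eq, Set.mem_image]
    constructor
    · rintro ⟨a, b, rfl⟩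
      exact ⟨_, ⟨a, b, rfl⟩, by rw [map_div₀]; rfl⟩
    · rintro ⟨_, ⟨a, b, rfl⟩, rfl⟩
      exact ⟨a, b, by rw [map_div₀]; rfl⟩

/-- the cycle in a larger field is multiplied by the degree -/
theorem cyc_map_deg (ε : M →ₐ[k] M') (u : Pnt W Y M) :
    cyc (u.map ε) = Module.finrank ε.fieldRange M' • cyc u := by
  have h1 : Module.finrank (fld (u.map ε)) M' =
      Module.finrank ε.fieldRange M' * Module.finrank (fld u) M := by
    rw [fld_map', AlgHom.fieldRange_eq_map,
      ← IntermediateField.relfinrank_mul_finrank_top (IntermediateField.map_mono ε (le_top :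
        fld u ≤ ⊤)), IntermediateField.relfinrank_map_map,
      IntermediateField.relfinrank_top_right, mul_comm]
  rw [cyc, cyc, eqs_map, h1, Finsupp.smul_single]
  congr 1

end map

/-- polynomials in an element with a pole, over a field on which the place is trivial -/
theorem ord_eval₂ {M₀ M : Type} [Field M₀] [Algebra k M₀] [Field M] [Algebra k M] (i : M₀ →ₐ[k] M)
    (v : Place k M) (hv : ∀ m, v.ord (i m) = 0) {x : M} (hx : v.ord x < 0) (n : ℕ) :
    ∀ G : Polynomial M₀, G ≠ 0 → G.natDegree = n →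
      Polynomial.eval₂ (i : M₀ →+* M) x G ≠ 0 ∧
        v.ord (Polynomial.eval₂ (i : M₀ →+* M) x G) = n * v.ord x := by
  have hx0 : x ≠ 0 := by
    rintro rfl
    rw [v.ord_zero] at hx
    exact lt_irrefl _ hx
  induction n with
  | zero =>
    intro G hG hn
    obtain ⟨c, rfl⟩ := Polynomial.natDegree_eq_zero.1 hn
    have hc : c ≠ 0 := by
      rintro rfl
      exact hG (map_zero _)
    rw [Polynomial.eval₂_C]
    refine ⟨(map_ne_zero _).2 hc, ?_⟩
    rw [Nat.cast_zero, zero_mul]
    exact hv c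
  | succ n ih =>
    intro G hG hn
    have h1 : G.divX ≠ 0 := by
      intro h
      have h2 := Polynomial.divX_mul_X_add G
      rw [h, zero_mul, zero_add] at h2
      rw [← h2, Polynomial.natDegree_C] at hn
      exact absurd hn (by omega)
    have h2 : G.divX.natDegree = n := by
      rw [Polynomial.natDegree_divX_eq_natDegree_tsub_one, hn]
      rfl
    obtain ⟨h3, h4⟩ := ih _ h1 h2
    have h5 : Polynomial.eval₂ (i : M₀ →+* M) x G =
        Polynomial.eval₂ (i : M₀ →+* M) x G.divX * x + i (G.coeff 0) := by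
      conv_lhs => rw [← Polynomial.divX_mul_X_add G]
      rw [Polynomial.eval₂_add, Polynomial.eval₂_mul, Polynomial.eval₂_X, Polynomial.eval₂_C]
      rfl
    have h6 : v.ord (Polynomial.eval₂ (i : M₀ →+* M) x G.divX * x) = (n + 1 : ℕ) * v.ord x := by
      rw [v.ord_mul _ _ h3 hx0, h4]
      push_cast
      ring
    have h7 := mul_ne_zero h3 hx0
    rw [h5]
    by_cases hc : G.coeff 0 = 0
    · rw [hc, map_zero, add_zero]
      exact ⟨h7, h6⟩
    · have h8 := v.ord_add_of_lt h7 ((map_ne_zero i).2 hc) (by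
        rw [h6, hv]
        have : (0 : ℤ) < (n + 1 : ℕ) := by positivity
        exact mul_neg_of_pos_of_neg this hx)
      exact ⟨h8.1, by rw [h8.2, h6]⟩

variable [CharZero k] [IsAlgClosed k]

/-- the image of a generic point under a non-zero homomorphism is generic -/
theorem gen1_w {E : WeierstrassCurve k} [E.IsElliptic] {M₀ M : Type} [Field M₀] [Algebra k M₀]
    [Field M] [Algebra k M] {i : M₀ →ₐ[k] M} {ξ : (E⁄M).toAffine.Point} (h : Gen1 i E ξ)
    {E' : WeierstrassCurve k} (w : Hm E E') (hw : ∃ p : E.toAffine.Point, w.k0 p ≠ 0) :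
    ∃ (x y : M) (h : (E'⁄M).toAffine.Nonsingular x y), w.f M ξ = .some x y h ∧
      ∀ G : Polynomial M₀, G ≠ 0 → Polynomial.eval₂ (i : M₀ →+* M) x G ≠ 0 := by
  obtain ⟨i₁, hi, hc⟩ := gen1_cps i ξ h
  obtain ⟨v, hv⟩ := exists_pl hc
  have h0 : SpR v (w.f M ξ) 0 := by
    have h1 := w.sp M v _ _ hv.sp
    rwa [map_zero, hi] at h1
  have hne : w.f M ξ ≠ 0 := by
    intro h1
    obtain ⟨p, hp⟩ := hw
    obtain ⟨v', hv'⟩ := place_exists p
    have h2 : mp i₁ (w.f (KE E) (genPt E)) = 0 := by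
      rw [← w.nat, hi, h1]
    have h3 : w.f (KE E) (genPt E) = 0 := B6_mp_inj i₁ h2
    have h4 := w.sp (KE E) v' _ _ (spec_iff_spR.1 hv')
    rw [h3, w.const] at h4
    have h5 : (constPt (RF v') (w.k0 p) : (E'⁄(RF v')).toAffine.Point) = 0 := h4
    apply hp
    revert h5
    match w.k0 p with
    | .zero => exact fun _ => rfl
    | .some x y h => exact fun h5 => absurd h5 (by intro h''; cases h'')
  match hη : w.f M ξ with
  | .zero => exact absurd hη hne
  | .some x y hxy =>
    refine ⟨x, y, hxy, rfl, fun G hG => ?_⟩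
    rw [hη] at h0
    have hx : v.ord x < 0 := h0
    exact (ord_eval₂ i v hv.triv hx _ G hG rfl).1

variable {w : ∀ E : WeierstrassCurve k, Hm E E} {D : ℕ} {V : Fin D → WeierstrassCurve k}
  {L K : Type} [Field L] [Algebra k L] [Field K] [Algebra k K] {l : L →ₐ[k] K}
  {ξ : ∀ a, ((V a)⁄K).toAffine.Point}

/-- multiplication of a column by the endomorphism `w` -/
theorem C_deg {e : ℕ} (h : IsGen e l V ξ) (a : Fin D) (hV : (V a).IsElliptic) (t n : ℤ)
    (hq : Quad (w (V a)) t n) (hw : ∃ p : (V a).toAffine.Point, (w (V a)).k0 p ≠ 0) :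
    ∃ δ : ℕ, ∀ (r : ℕ) (W' W : Fin r → WeierstrassCurve k) (φ : ∀ i, Hm (W' i) (W i)) (Y : Prj k)
      (u : Pnt W Y L) (N : Matrix (Fin r) (Fin D) (ℤ × ℤ)) (g : Pts W'),
      (∀ m, V a ≠ W' m → N m a = 0) →
      clC w l (e + D) φ ξ u (N.updateCol a fun m => mulw t n (N m a)) g =
        δ • clC w l (e + D) φ ξ u N g := by
  obtain ⟨M₀, ξ', hξ, hG, H⟩ := exists_phC w h a
  obtain ⟨x, y, hxy, hη, hx⟩ := gen1_w hG (w (V a)) hw
  obtain ⟨σ, hσ, hσξ⟩ := gen1_lift M₀.val (ξ a) hG M₀.val x y hxy hx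
  rw [← hη] at hσξ
  refine ⟨Module.finrank σ.fieldRange K, fun r W' W φ Y u N g hN => ?_⟩
  obtain ⟨T, hT⟩ := H r W' W φ Y N g u
  have e1 : ∀ v, linC w l φ ξ (N.updateCol a v) g u =
      Pnt.add (fun n => (φ n).f K (sm (w (W' n)) K (v n) (tr (V a) (W' n) (ξ a))))
        (T.map M₀.val) := by
    intro v
    rw [← hT (ξ a) v, Function.update_eq_self]
  have e2 : linC w l φ ξ (N.updateCol a fun m => mulw t n (N m a)) g u =
      (linC w l φ ξ N g u).map σ := by
    have e3 := e1 (fun m => N m a)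
    rw [show N.updateCol a (fun m => N m a) = N from Matrix.updateCol_eq_self N a] at e3
    rw [e1, e3]
    apply pnt_ext
    · funext m
      change (φ m).f K (sm (w (W' m)) K (mulw t n (N m a)) (tr (V a) (W' m) (ξ a))) +
        mp M₀.val (T.z m) = mp σ ((φ m).f K (sm (w (W' m)) K (N m a) (tr (V a) (W' m) (ξ a))) +
        mp M₀.val (T.z m))
      rw [map_add, ← (φ m).nat, mp_sm, mp_tr, hσξ, tr_w, HG_comp M₀.val σ M₀.val hσ]
      congr 2
      by_cases hm : V a = W' m
      · rw [← sm_mulw (w (W' m)) (hm ▸ hq)]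
      · rw [hN m hm]
        have h0 : mulw t n (0 : ℤ × ℤ) = 0 := by simp [mulw]
        rw [h0]
        simp only [sm_apply, Prod.fst_zero, Prod.snd_zero, zero_smul]
    · funext c
      exact (hσ (T.y c)).symm
  unfold clC
  rw [e2, cyc_map_deg]
  exact map_nsmul (QuotientAddGroup.mk' (RatEq W Y (e + D))) _ _

end Pool.Agent.LibAC34
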