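import Pool.Agent.LibAC34.CGam
import Pool.Agent.LibAC84H.Alg

/-!
Assembly: geometry and hermitian algebra give the theorem on cycles of all dimensions on products of
arbitrary elliptic curves.
-/

open WeierstrassCurve Pool.Agent.LibBH2 Pool.Agent.LibIG50 Pool.Agent.LibCHd Pool.Agent.LibGG
open scoped Classical ComplexConjugate

namespace Pool.Agent.LibAC34

theorem constPt_inj {E : WeierstrassCurve Qb} {F : Type} [Field F] [Algebra Qb F]
    {p q : E.toAffine.Point} (h : (constPt F p : (E⁄F).toAffine.Point) = constPt F q) : p = q := by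
  match p, q, h with
  | .zero, .zero, _ => rfl
  | .zero, .some x y h, h' => exact absurd h' (by intro h''; cases h'')
  | .some x y h, .zero, h' => exact absurd h' (by intro h''; cases h'')
  | .some x y h, .some x' y' h', h'' =>
    injection h'' with e1 e2
    have e1' : x = x' := (algebraMap Qb F).injective e1
    have e2' : y = y' := (algebraMap Qb F).injective e2
    subst e1' e2'
    rfl

/-- the orders of the complex multiplications -/
def CM.ord (c : CM) : LibAC84H.Ord (WeierstrassCurve Qb) where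
  ω := c.ω
  t := c.t
  n := c.n
  ht := c.trace
  hn := c.norm

theorem CM.k0_quad (c : CM) (E : WeierstrassCurve Qb) (p : E.toAffine.Point) :
    (c.w E).k0 ((c.w E).k0 p) = c.t E • (c.w E).k0 p - c.n E • p := by
  apply constPt_inj (F := Qb)
  have h1 := c.quad E Qb (constPt Qb p)
  rw [(c.w E).const, (c.w E).const] at h1
  rw [h1, sub_eq_add_neg, sub_eq_add_neg, HG_const_add, HG_const_zsmul, ← neg_smul, ← neg_smul,
    HG_const_zsmul]

theorem CM.k0_real (c : CM) (E : WeierstrassCurve Qb) (h : (c.ω E).im = 0)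
    (p : E.toAffine.Point) : (c.w E).k0 p = 0 := by
  apply constPt_inj (F := Qb)
  rw [← (c.w E).const, (c.real E h).2]
  rfl

/-- the endomorphisms on the grid -/
noncomputable def CM.wG (c : CM) {Γ : Grid} (hF : Fun Γ) (E : WeierstrassCurve Qb) :
    Γ E →+ Γ E :=
  AddMonoidHom.mk' (fun x => ⟨(c.w E).k0 x, hF E E (c.w E) x x.2⟩) fun x y =>
    Subtype.ext (by
      change (c.w E).k0 ((x : E.toAffine.Point) + y) = (c.w E).k0 x + (c.w E).k0 y
      exact (c.w E).k0_add _ _)

theorem cstH_coe (Γ : Grid) (E E' : WeierstrassCurve Qb) (x : Γ E) :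
    ((LibAC84H.cst (G := fun E => Γ E) E E' x : Γ E') : E'.toAffine.Point) =
      trk E E' (x : E.toAffine.Point) := by
  unfold LibAC84H.cst trk
  by_cases h : E = E'
  · subst h
    rw [dif_pos rfl, dif_pos rfl]
  · rw [dif_neg h, dif_neg h]
    rfl

theorem trk_w (c : CM) (V W : WeierstrassCurve Qb) (p : V.toAffine.Point) :
    trk V W ((c.w V).k0 p) = (c.w W).k0 (trk V W p) := by
  by_cases h : V = W
  · subst h; rw [trk_self, trk_self]
  · rw [trk_ne h, trk_ne h]
    exact (map_zero (c.w W).k0H).symm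

/-- **Cycles of all dimensions on products of arbitrary elliptic curves.** -/
theorem all_dimC {Γ : Grid} (hΓ : Orth Γ) (hF : Fun Γ) (c : CM) : AllDimC Γ c := by
  intro r W' W φ hW' hW D V hV Y e L _ _ u K _ _ l ξ hgen J _ m N g hN hg hom AJ
  set F : Matrix (Fin r) (Fin D) (ℤ × ℤ) → (∀ i, Γ (W' i)) → CH W Y (e + D) :=
    fun N g => clC c.w l (e + D) φ ξ u N (fun i => (g i : (W' i).toAffine.Point)) with hFdef
  have hmw : ∀ (E : WeierstrassCurve Qb) (p : ℤ × ℤ), c.ord.mw E p = mulw (c.t E) (c.n E) p := by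
    intro E p
    simp only [LibAC84H.Ord.mw, mulw, CM.ord, neg_mul]
  have hFam : LibAC84H.Fam c.ord (G := fun E => Γ E) (fun E => c.wG hF E) W' V F := by
    constructor
    · intro E _ x
      apply Subtype.ext
      exact c.k0_quad E x
    · intro N _ a v w _ _ g
      exact C_par hW' hW hV hgen u N _ a v w
    · intro N _ a b hab hVab g
      exact C_col hW' hgen u N _ a b hab hVab
    · intro N hN a b hab hVab _ g
      have h1 := C_colw (w := c.w) (φ := φ) hW' hgen u N
        (fun i => (g i : (W' i).toAffine.Point)) a b hab hVab (c.t (V a)) (c.n (V a))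
        (c.quad (V a)) (fun m hm => ((hN a) m).1 (Ne.symm hm))
      simp only [hmw]
      exact h1
    · intro a ha
      have : (V a).IsElliptic := hV a
      obtain ⟨δ, hδ⟩ := C_deg (w := c.w) hgen a (hV a) (c.t (V a)) (c.n (V a)) (c.quad (V a))
        (c.exists_ne (V a) ha)
      refine ⟨δ, fun N hN g => ?_⟩
      have h1 := hδ r W' W φ Y u N (fun i => (g i : (W' i).toAffine.Point))
        (fun m hm => ((hN a) m).1 (Ne.symm hm))
      simp only [hmw]
      exact h1
    · intro N _ a x
      have h1 := C_tr (w := c.w) (φ := φ) hW' hgen u N 0 a (x : (V a).toAffine.Point)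
      have h2 : (fun i => (((N i a).1 • LibAC84H.cst (G := fun E => Γ E) (V a) (W' i) x +
          (N i a).2 • LibAC84H.cst (G := fun E => Γ E) (V a) (W' i) (c.wG hF (V a) x) :
            Γ (W' i)) : (W' i).toAffine.Point)) = (0 : Pts W') +
            fun n => smk (c.w (W' n)) (N n a) (trk (V a) (W' n) (x : (V a).toAffine.Point)) := by
        funext i
        rw [Pi.add_apply, Pi.zero_apply, zero_add, AddSubgroup.coe_add, AddSubgroup.coe_zsmul,
          AddSubgroup.coe_zsmul, cstH_coe, cstH_coe, smk, ← trk_w]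
        rfl
      show clC c.w l (e + D) φ ξ u N (fun i => (((N i a).1 •
          LibAC84H.cst (G := fun E => Γ E) (V a) (W' i) x +
          (N i a).2 • LibAC84H.cst (G := fun E => Γ E) (V a) (W' i) (c.wG hF (V a) x) :
            Γ (W' i)) : (W' i).toAffine.Point)) = clC c.w l (e + D) φ ξ u N _
      rw [h2]
      exact h1
    · intro N _ g h
      exact clC_add hΓ hF c.w φ hW u l ξ hgen.dim N _ _ (fun i => (g i).2) (fun i => (h i).2)
  have hB : ∀ M : Matrix (Fin r) (Fin D) (ℤ × ℤ), LibAC84H.Blk c.ord W' V M → MatC c V W' M := by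
    intro M hM i a
    refine ⟨fun h => ((hM a) i).1 (Ne.symm h), fun h => ((hM a) i).2 fun h' => h' h⟩
  refine LibAC84H.main (G := fun E => Γ E) hFam Finset.univ m N (fun j i => ⟨g j i, hg j i⟩)
    (fun j _ a i => ⟨fun h => ((hN j) i a).1 (Ne.symm h), fun h => ((hN j) i a).2
      (not_not.1 h)⟩)
    (fun M hM => hom M (hB M hM)) ?_
  intro M hM E z hz lam hlam
  obtain ⟨mu, hmu1, hmu2⟩ := exists_ext (c.w E).k0H (ω := c.ω E) (c.k0_quad E) (c.trace E)
    (c.norm E) (Γ E) (fun x hx => hF E E (c.w E) x hx) lam (by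
      intro x
      by_cases h : (c.ω E).im = 0
      · have h1 : (⟨(c.w E).k0H x, hF E E (c.w E) x x.2⟩ : Γ E) = 0 :=
          Subtype.ext (c.k0_real E h x)
        rw [h1, map_zero, (c.real E h).1, zero_mul]
      · exact hlam h x)
    (fun h => ⟨(c.real E h).1, fun x => c.k0_real E h x⟩)
  have h2 := AJ M (hB M hM) E z hz mu hmu1
  refine Eq.trans ?_ h2
  refine Finset.sum_congr rfl fun j _ => ?_
  have h3 : (fun i => lam (LibAC84H.cst (G := fun E => Γ E) (W' i) E ⟨g j i, hg j i⟩)) =
      fun i => mu (trk (W' i) E (g j i)) := by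
    funext i
    rw [← hmu2, cstH_coe]
  rw [h3]
  rfl

end Pool.Agent.LibAC34
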