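import Pool.Agent.LibAC34.CDefs

/-!
The rules for matrices with entries in orders of imaginary quadratic fields.
-/

open WeierstrassCurve Pool.Agent.LibBH2 Pool.Agent.LibIG50 Pool.Agent.LibCHd
open scoped Classical

namespace Pool.Agent.LibAC34

variable {k : Type} [Field k]

/-- the endomorphism `c` of `W'` and the homomorphism `φ`, on the curve `V` -/
noncomputable def Hm.colC {W' W : WeierstrassCurve k} [W'.IsElliptic] (φ : Hm W' W)
    (w : Hm W' W') (V : WeierstrassCurve k) (c : ℤ × ℤ) : Hm V W where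
  f F _ _ := AddMonoidHom.mk' (fun P => φ.f F (sm w F c (tr V W' P))) fun P Q => by
    rw [tr_add, map_add, map_add]
  nat F G _ _ _ _ σ P := by
    change φ.f G (sm w G c (tr V W' (mp σ P))) = mp σ (φ.f F (sm w F c (tr V W' P)))
    rw [← φ.nat, mp_sm, mp_tr]
  sp K _ _ v P p h := φ.sp K v _ _ (spR_sm w c (spR_tr W' h))

variable {w : ∀ E : WeierstrassCurve k, Hm E E} {r : ℕ} {W' W : Fin r → WeierstrassCurve k}
  {Y : Prj k} {φ : ∀ i, Hm (W' i) (W i)}
  {L K : Type} [Field L] [Algebra k L] [Field K] [Algebra k K] {l : L →ₐ[k] K} {D : ℕ}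
  {V : Fin D → WeierstrassCurve k} {ξ : ∀ a, ((V a)⁄K).toAffine.Point}

theorem CG_core {F : Type} [Field F] [Algebra k F] (i : F →ₐ[k] K) (l' : L →ₐ[k] F)
    (a : Fin D) (ξ' : ∀ b, b ≠ a → ((V b)⁄F).toAffine.Point) (hl : ∀ x, i (l' x) = l x)
    (hξ : ∀ b hb, mp i (ξ' b hb) = ξ b) (φ : ∀ i, Hm (W' i) (W i))
    (N : Matrix (Fin r) (Fin D) (ℤ × ℤ)) (g : Pts W') (u : Pnt W Y L) :
    ∃ T : Pnt W Y F, ∀ (η : ((V a)⁄K).toAffine.Point) (v : Fin r → ℤ × ℤ),
        linC w l φ (Function.update ξ a η) (N.updateCol a v) g u =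
          Pnt.add (fun n => (φ n).f K (sm (w (W' n)) K (v n) (tr (V a) (W' n) η)))
            (T.map i) := by
  refine ⟨Pnt.add (fun n => (φ n).f F (constPt F (g n) + ∑ b, sm (w (W' n)) F (N n b)
    (tr (V b) (W' n) (if hb : b ≠ a then ξ' b hb else 0)))) (u.map l'), ?_⟩
  intro η v
  apply pnt_ext
  · funext n
    have e1 : mp i ((φ n).f F (constPt F (g n) + ∑ b, sm (w (W' n)) F (N n b)
        (tr (V b) (W' n) (if hb : b ≠ a then ξ' b hb else 0))) + mp l' (u.z n)) =
        (φ n).f K (constPt K (g n) + ∑ b, mp i (sm (w (W' n)) F (N n b) (tr (V b) (W' n)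
        (if hb : b ≠ a then ξ' b hb else 0)))) + mp l (u.z n) := by
      rw [map_add, HG_comp l' i l hl, ← (φ n).nat, map_add, mp_constPt, map_sum]
    have e2 : ∑ b, sm (w (W' n)) K ((N.updateCol a v) n b) (tr (V b) (W' n)
        (Function.update ξ a η b)) = sm (w (W' n)) K (v n) (tr (V a) (W' n) η) +
        ∑ b, mp i (sm (w (W' n)) F (N n b) (tr (V b) (W' n)
        (if hb : b ≠ a then ξ' b hb else 0))) := by
      rw [← Finset.add_sum_erase Finset.univ _ (Finset.mem_univ a),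
        ← Finset.add_sum_erase Finset.univ (fun b => mp i (sm (w (W' n)) F (N n b)
          (tr (V b) (W' n) (if hb : b ≠ a then ξ' b hb else 0)))) (Finset.mem_univ a)]
      have e3 : mp i (sm (w (W' n)) F (N n a) (tr (V a) (W' n)
          (if hb : a ≠ a then ξ' a hb else 0))) = 0 := by
        rw [dif_neg (fun h => h rfl), tr_zero, map_zero, mp_zero]
      have e4 : ∀ b ∈ Finset.univ.erase a, sm (w (W' n)) K ((N.updateCol a v) n b)
          (tr (V b) (W' n) (Function.update ξ a η b)) = mp i (sm (w (W' n)) F (N n b)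
          (tr (V b) (W' n) (if hb : b ≠ a then ξ' b hb else 0))) := by
        intro b hb
        have hba : b ≠ a := Finset.ne_of_mem_erase hb
        rw [Matrix.updateCol_ne hba, Function.update_of_ne hba, dif_pos hba, mp_sm, mp_tr, hξ]
      rw [Finset.sum_congr rfl e4, e3, Matrix.updateCol_self, Function.update_self, zero_add]
    change (φ n).f K (constPt K (g n) + ∑ b, sm (w (W' n)) K ((N.updateCol a v) n b)
      (tr (V b) (W' n) (Function.update ξ a η b))) + mp l (u.z n) =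
      (φ n).f K (sm (w (W' n)) K (v n) (tr (V a) (W' n) η)) + mp i ((φ n).f F
        (constPt F (g n) + ∑ b, sm (w (W' n)) F (N n b) (tr (V b) (W' n)
          (if hb : b ≠ a then ξ' b hb else 0))) + mp l' (u.z n))
    rw [e1, e2, ← add_assoc ((φ n).f K (sm (w (W' n)) K (v n) (tr (V a) (W' n) η))), ← map_add]
    congr 2
    exact add_left_comm _ _ _
  · funext c
    exact (hl (u.y c)).symm

/-- the point `φ (N ξ + g) + u` as a point `φ (v ξ_a) + T`, where `v` is the column `a` -/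
theorem exists_phC (w : ∀ E : WeierstrassCurve k, Hm E E) {e : ℕ} (h : IsGen e l V ξ) (a : Fin D) :
    ∃ (M₀ : IntermediateField k K) (ξ' : ∀ b, b ≠ a → ((V b)⁄M₀).toAffine.Point),
      (∀ b hb, mp M₀.val (ξ' b hb) = ξ b) ∧ Gen1 M₀.val (V a) (ξ a) ∧
      ∀ (r : ℕ) (W' W : Fin r → WeierstrassCurve k) (φ : ∀ i, Hm (W' i) (W i)) (Y : Prj k)
        (N : Matrix (Fin r) (Fin D) (ℤ × ℤ)) (g : Pts W') (u : Pnt W Y L),
        ∃ T : Pnt W Y M₀, ∀ (η : ((V a)⁄K).toAffine.Point) (v : Fin r → ℤ × ℤ),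
        linC w l φ (Function.update ξ a η) (N.updateCol a v) g u =
          Pnt.add (fun n => (φ n).f K (sm (w (W' n)) K (v n) (tr (V a) (W' n) η)))
            (T.map M₀.val) := by
  obtain ⟨M₀, l', ξ', hl, hξ, hG⟩ := exists_base h a
  exact ⟨M₀, ξ', hξ, hG, fun r W' W φ Y N g u => CG_core M₀.val l' a ξ' hl hξ φ N g u⟩

theorem C_par [CharZero k] [IsAlgClosed k] (hW' : ∀ n, (W' n).IsElliptic)
    (hW : ∀ n, (W n).IsElliptic) (hV : ∀ a, (V a).IsElliptic) {e : ℕ}
    (h : IsGen e l V ξ) (u : Pnt W Y L) (N : Matrix (Fin r) (Fin D) (ℤ × ℤ)) (g : Pts W')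
    (a : Fin D) (v v' : Fin r → ℤ × ℤ) :
    clC w l (e + D) φ ξ u (N.updateCol a (v + v')) g +
        clC w l (e + D) φ ξ u (N.updateCol a (v - v')) g =
      (2 : ℤ) • clC w l (e + D) φ ξ u (N.updateCol a v) g +
        (2 : ℤ) • clC w l (e + D) φ ξ u (N.updateCol a v') g := by
  obtain ⟨d, hd, hK, -⟩ := HG_dim h a
  obtain ⟨M₀, ξ', hξ, hG, H⟩ := exists_phC w h a
  obtain ⟨T, hT⟩ := H r W' W φ Y N g u
  have := hV a
  have := hW'
  have h1 := parH hW hG hK T (fun n => (φ n).colC (w (W' n)) (V a) (v n))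
    (fun n => (φ n).colC (w (W' n)) (V a) (v' n))
  have e1 : ∀ v : Fin r → ℤ × ℤ, linC w l φ ξ (N.updateCol a v) g u =
      Pnt.add (fun n => (φ n).f K (sm (w (W' n)) K (v n) (tr (V a) (W' n) (ξ a))))
        (T.map M₀.val) := by
    intro v
    rw [← hT (ξ a) v, Function.update_eq_self]
  have a1 : cyc (linC w l φ ξ (N.updateCol a (v + v')) g u) =
      cyc (Pnt.add (fun n => ((φ n).colC (w (W' n)) (V a) (v n)).f K (ξ a) +
        ((φ n).colC (w (W' n)) (V a) (v' n)).f K (ξ a)) (T.map M₀.val)) := by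
    rw [e1]
    congr 2
    funext n
    change (φ n).f K (sm (w (W' n)) K (v n + v' n) (tr (V a) (W' n) (ξ a))) =
      (φ n).f K (sm (w (W' n)) K (v n) (tr (V a) (W' n) (ξ a))) +
        (φ n).f K (sm (w (W' n)) K (v' n) (tr (V a) (W' n) (ξ a)))
    rw [← map_add, sm_add']
  have a2 : cyc (linC w l φ ξ (N.updateCol a (v - v')) g u) =
      cyc (Pnt.add (fun n => ((φ n).colC (w (W' n)) (V a) (v n)).f K (ξ a) -
        ((φ n).colC (w (W' n)) (V a) (v' n)).f K (ξ a)) (T.map M₀.val)) := by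
    rw [e1]
    congr 2
    funext n
    change (φ n).f K (sm (w (W' n)) K (v n - v' n) (tr (V a) (W' n) (ξ a))) =
      (φ n).f K (sm (w (W' n)) K (v n) (tr (V a) (W' n) (ξ a))) -
        (φ n).f K (sm (w (W' n)) K (v' n) (tr (V a) (W' n) (ξ a)))
    rw [← map_sub, sm_sub']
  have a3 : cyc (linC w l φ ξ (N.updateCol a v) g u) =
      cyc (Pnt.add (fun n => ((φ n).colC (w (W' n)) (V a) (v n)).f K (ξ a)) (T.map M₀.val)) := by
    rw [e1]
    rfl
  have a4 : cyc (linC w l φ ξ (N.updateCol a v') g u) =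
      cyc (Pnt.add (fun n => ((φ n).colC (w (W' n)) (V a) (v' n)).f K (ξ a)) (T.map M₀.val)) := by
    rw [e1]
    rfl
  rw [← a1, ← a2, ← a3, ← a4, ← hd] at h1
  have h3 : (QuotientAddGroup.mk' (RatEq W Y (e + D)))
      (cyc (linC w l φ ξ (N.updateCol a (v + v')) g u) +
      cyc (linC w l φ ξ (N.updateCol a (v - v')) g u) -
      2 • cyc (linC w l φ ξ (N.updateCol a v) g u) -
      2 • cyc (linC w l φ ξ (N.updateCol a v') g u)) = 0 := (QuotientAddGroup.eq_zero_iff _).2 h1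
  rw [map_sub, map_sub, map_add, map_nsmul, map_nsmul] at h3
  have h4 : clC w l (e + D) φ ξ u (N.updateCol a (v + v')) g +
      clC w l (e + D) φ ξ u (N.updateCol a (v - v')) g -
      2 • clC w l (e + D) φ ξ u (N.updateCol a v) g -
      2 • clC w l (e + D) φ ξ u (N.updateCol a v') g = 0 := h3
  rw [← sub_eq_zero, ← h4]
  abel

/-- the cycle does not change if a generic point is translated by a point over the other ones -/
theorem C_trans (hW' : ∀ n, (W' n).IsElliptic) {e : ℕ} (h : IsGen e l V ξ) (u : Pnt W Y L)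
    (N : Matrix (Fin r) (Fin D) (ℤ × ℤ)) (g : Pts W') (a : Fin D) :
    (∀ c : (V a).toAffine.Point,
      cyc (linC w l φ (Function.update ξ a (ξ a + constPt K c)) N g u) =
        cyc (linC w l φ ξ N g u)) ∧
    ∀ b, b ≠ a → ∀ ψ : Hm (V b) (V a),
      cyc (linC w l φ (Function.update ξ a (ξ a + ψ.f K (ξ b))) N g u) =
        cyc (linC w l φ ξ N g u) := by
  obtain ⟨d, hd, hK, hK'⟩ := HG_dim h a
  obtain ⟨M₀, ξ', hξ, hG, H⟩ := exists_phC w h a
  obtain ⟨T, hT⟩ := H r W' W φ Y N g u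
  have := hW'
  have e1 : ∀ η, linC w l φ (Function.update ξ a η) N g u =
      Pnt.add (fun n => ((φ n).colC (w (W' n)) (V a) (N n a)).f K η) (T.map M₀.val) := by
    intro η
    have h1 := hT η (fun n => N n a)
    rwa [show N.updateCol a (fun n => N n a) = N from Matrix.updateCol_eq_self N a] at h1
  have e0 : linC w l φ ξ N g u =
      Pnt.add (fun n => ((φ n).colC (w (W' n)) (V a) (N n a)).f K (ξ a)) (T.map M₀.val) := by
    rw [← e1, Function.update_eq_self]
  constructor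
  · intro c
    have h2 := gen1_add hG hK' (constPt M₀ c)
    rw [mp_constPt] at h2
    rw [e1, e0]
    exact cyc_phH hG h2 T _
  · intro b hba ψ
    have h2 := gen1_add hG hK' (ψ.f M₀ (ξ' b hba))
    rw [← ψ.nat, hξ] at h2
    rw [e1, e0]
    exact cyc_phH hG h2 T _

theorem CG_upd (N : Matrix (Fin r) (Fin D) (ℤ × ℤ)) (a : Fin D) (η : ((V a)⁄K).toAffine.Point)
    (n : Fin r) :
    ∑ b, sm (w (W' n)) K (N n b) (tr (V b) (W' n) (Function.update ξ a (ξ a + η) b)) =
      sm (w (W' n)) K (N n a) (tr (V a) (W' n) η) +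
        ∑ b, sm (w (W' n)) K (N n b) (tr (V b) (W' n) (ξ b)) := by
  rw [← Finset.add_sum_erase Finset.univ (fun b => sm (w (W' n)) K (N n b) (tr (V b) (W' n)
      (Function.update ξ a (ξ a + η) b))) (Finset.mem_univ a),
    ← Finset.add_sum_erase Finset.univ (fun b => sm (w (W' n)) K (N n b) (tr (V b) (W' n) (ξ b)))
      (Finset.mem_univ a)]
  have e2 : ∀ b ∈ Finset.univ.erase a, sm (w (W' n)) K (N n b) (tr (V b) (W' n)
      (Function.update ξ a (ξ a + η) b)) = sm (w (W' n)) K (N n b) (tr (V b) (W' n) (ξ b)) := by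
    intro b hb
    rw [Function.update_of_ne (Finset.ne_of_mem_erase hb)]
  rw [Finset.sum_congr rfl e2, Function.update_self, tr_add, map_add]
  abel

theorem linC_congr {ξ' : ∀ a, ((V a)⁄K).toAffine.Point} {N N' : Matrix (Fin r) (Fin D) (ℤ × ℤ)}
    {g g' : Pts W'} (u : Pnt W Y L)
    (h : ∀ n, constPt K (g n) + ∑ b, sm (w (W' n)) K (N n b) (tr (V b) (W' n) (ξ b)) =
      constPt K (g' n) + ∑ b, sm (w (W' n)) K (N' n b) (tr (V b) (W' n) (ξ' b))) :
    linC w l φ ξ N g u = linC w l φ ξ' N' g' u := by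
  unfold linC
  congr 1
  funext n
  rw [h]

/-- addition of a multiple of a column -/
theorem CG_col (hW' : ∀ n, (W' n).IsElliptic) {e : ℕ} (h : IsGen e l V ξ) (u : Pnt W Y L)
    (N : Matrix (Fin r) (Fin D) (ℤ × ℤ)) (g : Pts W') (a b : Fin D) (hab : a ≠ b)
    (ψ : Hm (V b) (V a)) (v : Fin r → ℤ × ℤ)
    (hv : ∀ n, sm (w (W' n)) K (v n) (tr (V b) (W' n) (ξ b)) =
      sm (w (W' n)) K (N n a) (tr (V a) (W' n) (ψ.f K (ξ b)))) :
    clC w l (e + D) φ ξ u (N.updateCol b fun n => N n b + v n) g =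
      clC w l (e + D) φ ξ u N g := by
  have h1 : linC w l φ ξ (N.updateCol b fun n => N n b + v n) g u =
      linC w l φ (Function.update ξ a (ξ a + ψ.f K (ξ b))) N g u := by
    apply linC_congr
    intro n
    rw [CG_upd, ← hv]
    rw [← Finset.add_sum_erase Finset.univ (fun c => sm (w (W' n)) K
        ((N.updateCol b fun n => N n b + v n) n c) (tr (V c) (W' n) (ξ c))) (Finset.mem_univ b),
      ← Finset.add_sum_erase Finset.univ (fun c => sm (w (W' n)) K (N n c)
        (tr (V c) (W' n) (ξ c))) (Finset.mem_univ b)]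
    have e2 : ∀ c ∈ Finset.univ.erase b, sm (w (W' n)) K
        ((N.updateCol b fun n => N n b + v n) n c) (tr (V c) (W' n) (ξ c)) =
        sm (w (W' n)) K (N n c) (tr (V c) (W' n) (ξ c)) := by
      intro c hc
      rw [Matrix.updateCol_ne (Finset.ne_of_mem_erase hc)]
    rw [Finset.sum_congr rfl e2, Matrix.updateCol_self, sm_add']
    abel
  unfold clC
  rw [h1, (C_trans hW' h u N g a).2 b hab.symm ψ]

/-- the homomorphism `tr` -/
noncomputable def Hm.trH (V W : WeierstrassCurve k) : Hm V W where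
  f F _ _ := AddMonoidHom.mk' (fun P => tr V W P) fun P Q => tr_add P Q
  nat F G _ _ _ _ σ P := (mp_tr σ P).symm
  sp K _ _ v P p h := spR_tr W h

/-- composition -/
noncomputable def Hm.comp {U V W : WeierstrassCurve k} (ψ : Hm V W) (φ : Hm U V) : Hm U W where
  f F _ _ := (ψ.f F).comp (φ.f F)
  nat F G _ _ _ _ σ P := by
    change ψ.f G (φ.f G (mp σ P)) = mp σ (ψ.f F (φ.f F P))
    rw [φ.nat, ψ.nat]
  sp K _ _ v P p h := ψ.sp K v _ _ (φ.sp K v _ _ h)

theorem C_col (hW' : ∀ n, (W' n).IsElliptic) {e : ℕ} (h : IsGen e l V ξ) (u : Pnt W Y L)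
    (N : Matrix (Fin r) (Fin D) (ℤ × ℤ)) (g : Pts W') (a b : Fin D) (hab : a ≠ b)
    (hV : V a = V b) :
    clC w l (e + D) φ ξ u (N.updateCol b fun n => N n b + N n a) g =
      clC w l (e + D) φ ξ u N g := by
  refine CG_col hW' h u N g a b hab (Hm.trH (V b) (V a)) (fun n => N n a) fun n => ?_
  change _ = sm (w (W' n)) K (N n a) (tr (V a) (W' n) (tr (V b) (V a) (ξ b)))
  rw [HG_trtr hV.symm]

theorem C_colw (hW' : ∀ n, (W' n).IsElliptic) {e : ℕ} (h : IsGen e l V ξ) (u : Pnt W Y L)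
    (N : Matrix (Fin r) (Fin D) (ℤ × ℤ)) (g : Pts W') (a b : Fin D) (hab : a ≠ b)
    (hV : V a = V b) (t n : ℤ) (hw : Quad (w (V a)) t n)
    (hN : ∀ m, V a ≠ W' m → N m a = 0) :
    clC w l (e + D) φ ξ u (N.updateCol b fun m => N m b + mulw t n (N m a)) g =
      clC w l (e + D) φ ξ u N g := by
  refine CG_col hW' h u N g a b hab ((w (V a)).comp (Hm.trH (V b) (V a)))
    (fun m => mulw t n (N m a)) fun m => ?_
  change _ = sm (w (W' m)) K (N m a) (tr (V a) (W' m) ((w (V a)).f K (tr (V b) (V a) (ξ b))))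
  rw [tr_w, HG_trtr hV.symm]
  by_cases hm : V a = W' m
  · rw [← sm_mulw (w (W' m)) (hm ▸ hw)]
  · rw [hN m hm]
    have h0 : mulw t n (0 : ℤ × ℤ) = 0 := by simp [mulw]
    rw [h0]
    simp only [sm_apply, Prod.fst_zero, Prod.snd_zero, zero_smul]

theorem C_tr (hW' : ∀ n, (W' n).IsElliptic) {e : ℕ} (h : IsGen e l V ξ) (u : Pnt W Y L)
    (N : Matrix (Fin r) (Fin D) (ℤ × ℤ)) (g : Pts W') (a : Fin D) (c : (V a).toAffine.Point) :
    clC w l (e + D) φ ξ u N (g + fun n => smk (w (W' n)) (N n a) (trk (V a) (W' n) c)) =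
      clC w l (e + D) φ ξ u N g := by
  have h1 : linC w l φ ξ N (g + fun n => smk (w (W' n)) (N n a) (trk (V a) (W' n) c)) u =
      linC w l φ (Function.update ξ a (ξ a + constPt K c)) N g u := by
    apply linC_congr
    intro n
    rw [CG_upd, Pi.add_apply, HG_const_add, ← sm_const, constPt_tr]
    abel
  unfold clC
  rw [h1, (C_trans hW' h u N g a).1 c]

/-- translations -/
theorem C_trl (u : Pnt W Y L) (N : Matrix (Fin r) (Fin D) (ℤ × ℤ)) (g : Pts W') :
    trl (fun i => (φ i).k0 (g i)) (linC w l φ ξ N 0 u) = linC w l φ ξ N g u := by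
  apply pnt_ext
  · funext n
    change constPt K ((φ n).k0 (g n)) + ((φ n).f K (constPt K ((0 : Pts W') n) +
      ∑ b, sm (w (W' n)) K (N n b) (tr (V b) (W' n) (ξ b))) + mp l (u.z n)) =
      (φ n).f K (constPt K (g n) + ∑ b, sm (w (W' n)) K (N n b) (tr (V b) (W' n) (ξ b))) +
        mp l (u.z n)
    have e0 : (constPt K ((0 : Pts W') n) : ((W' n)⁄K).toAffine.Point) = 0 := rfl
    rw [e0, zero_add, ← (φ n).const, ← add_assoc, ← map_add]
  · rfl

end Pool.Agent.LibAC34
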