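import Pool.Agent.LibAC34.Stmt

/-!
Orthogonal choices of subgroups.
-/

open WeierstrassCurve Pool.Agent.LibBH2 Pool.Agent.LibIG50 Pool.Agent.LibCHd Pool.Agent.LibGG
open scoped Classical

namespace Pool.Agent.LibAC34

/-- The groups `Γ E` are orthogonal to each other and to themselves: the zero-cycle
`zc P Q = (P, Q) - (P, 0) - (0, Q) + (0, 0)` is torsion in the Chow group of the surface `E × E'` for
all elliptic curves `E` and `E'` and all `P` in `Γ E` and `Q` in `Γ E'`. -/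
def Pw (Γ : Grid) : Prop :=
  ∀ E E' : WeierstrassCurve Qb, E.IsElliptic → E'.IsElliptic → ∀ P ∈ Γ E, ∀ Q ∈ Γ E',
    IsOfFinAddOrder (zc P Q : CH0 E E')

/-- the groups `Γ E` of the elliptic curves over `K` are stable under the Galois group of `K` -/
def GalSt (K : Type) [Field K] [Algebra K Qb] (Γ : Grid) : Prop :=
  ∀ E : WeierstrassCurve K, E.IsElliptic → ∀ (σ : Qb ≃ₐ[K] Qb), ∀ R ∈ Γ (E⁄Qb),
    gal σ R ∈ Γ (E⁄Qb)

end Pool.Agent.LibAC34
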