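import Pool.Agent.LibAC34.StmtC
import Pool.Agent.LibAC34.CDeg
import Pool.Agent.LibAC6.Final

/-!
Preparations for the assembly: additivity, norms, extension of linear maps.
-/

open WeierstrassCurve Pool.Agent.LibBH2 Pool.Agent.LibIG50 Pool.Agent.LibCHd Pool.Agent.LibGG
open scoped Classical ComplexConjugate

namespace Pool.Agent.LibAC34

/-- additivity in `g` on the grid, modulo torsion -/
theorem clC_add {Γ : Grid} (hΓ : Orth Γ) (hF : Fun Γ) (w : ∀ E : WeierstrassCurve Qb, Hm E E)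
    {r : ℕ} {W' W : Fin r → WeierstrassCurve Qb} (φ : ∀ i, Hm (W' i) (W i))
    (hW : ∀ i, (W i).IsElliptic) {D : ℕ}
    {V : Fin D → WeierstrassCurve Qb} {Y : Prj Qb} {m : ℕ}
    {L K : Type} [Field L] [Algebra Qb L] [Field K] [Algebra Qb K] (u : Pnt W Y L)
    (l : L →ₐ[Qb] K) (ξ : ∀ a, ((V a)⁄K).toAffine.Point) (hK : FunF Qb m K)
    (N : Matrix (Fin r) (Fin D) (ℤ × ℤ)) (g h : Pts W') (hg : ∀ i, g i ∈ Γ (W' i))
    (hh : ∀ i, h i ∈ Γ (W' i)) :
    IsOfFinAddOrder (clC w l m φ ξ u N (g + h) - clC w l m φ ξ u N g - clC w l m φ ξ u N h +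
      clC w l m φ ξ u N 0) := by
  set A : (Pts W →₀ ℤ) →+ CH W Y m :=
    (QuotientAddGroup.mk' (RatEq W Y m)).comp (actC (linC w l φ ξ N 0 u)) with hA
  set κ : Pts W' → Pts W := fun g i => (φ i).k0 (g i) with hκ
  have hκadd : ∀ g h, κ (g + h) = κ g + κ h := fun g h => funext fun i => (φ i).k0_add _ _
  have hκ0 : κ 0 = 0 := funext fun i => map_zero (φ i).k0H
  have hact : ∀ c : Pts W →₀ ℤ, act m c (linC w l φ ξ N 0 u) = A c := fun c => rfl
  have e : ∀ g : Pts W', clC w l m φ ξ u N g = A (Finsupp.single (κ g) 1) := by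
    intro g
    rw [hA, AddMonoidHom.comp_apply, actC_single, one_smul, hκ]
    rw [C_trl]
    rfl
  set c : Pts W →₀ ℤ := Finsupp.single (κ g + κ h) 1 + -Finsupp.single (κ g) 1 +
    -Finsupp.single (κ h) 1 + Finsupp.single 0 1 with hc
  have e1 : clC w l m φ ξ u N (g + h) - clC w l m φ ξ u N g - clC w l m φ ξ u N h +
      clC w l m φ ξ u N 0 = act m c (linC w l φ ξ N 0 u) := by
    rw [hact, hc, map_add, map_add, map_add, map_neg, map_neg, e, e, e, e, hκadd, hκ0]
    abel
  rw [e1]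
  have mem : ∀ g : Pts W', (∀ i, g i ∈ Γ (W' i)) → ∀ i, κ g i ∈ Γ (W i) := fun g hg i =>
    hF _ _ (φ i) _ (hg i)
  refine hΓ r W hW Y m K hK _ c ?_ ?_ ?_
  · intro a ha i
    have h1 : a = κ g + κ h ∨ a = κ g ∨ a = κ h ∨ a = 0 := by
      by_contra hn
      push Not at hn
      obtain ⟨h1, h2, h3, h4⟩ := hn
      apply Finsupp.mem_support_iff.1 ha
      rw [hc]
      simp [h1.symm, h2.symm, h3.symm, h4.symm]
    rcases h1 with rfl | rfl | rfl | rfl
    · exact add_mem (mem g hg i) (mem h hh i)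
    · exact mem g hg i
    · exact mem h hh i
    · exact zero_mem _
  · have h1 : ∀ c c' : Pts W →₀ ℤ, ((c + c').sum fun _ n => n) = (c.sum fun _ n => n) +
        c'.sum fun _ n => n := fun c c' =>
      Finsupp.sum_add_index' (fun _ => rfl) (fun _ _ _ => rfl)
    have h2 : ∀ c : Pts W →₀ ℤ, ((-c).sum fun _ n => n) = -(c.sum fun _ n => n) := by
      intro c
      rw [Finsupp.sum_neg_index (fun _ => rfl)]
      simp [Finsupp.sum]
    rw [hc, h1, h1, h1, h2, h2]
    simp
  · intro i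
    set S : (Pts W →₀ ℤ) →+ (W i).toAffine.Point :=
      Finsupp.liftAddHom (fun a => (zmultiplesHom _) (a i)) with hS
    have hS1 : ∀ c : Pts W →₀ ℤ, (c.sum fun a n => n • a i) = S c := fun c => rfl
    have hS2 : ∀ a : Pts W, S (Finsupp.single a 1) = a i := by
      intro a
      rw [hS, Finsupp.liftAddHom_apply_single]
      exact one_zsmul (a i)
    rw [hS1, hc, map_add, map_add, map_add, map_neg, map_neg, hS2, hS2, hS2, hS2]
    have h3 : (κ g + κ h) i + -κ g i + -κ h i + (0 : Pts W) i = 0 := by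
      rw [Pi.add_apply, Pi.zero_apply]
      abel
    rw [h3]
    exact IsOfFinAddOrder.zero

/-- a curve with complex multiplication has a point which is not killed by `w` -/
theorem CM.exists_ne (c : CM) (E : WeierstrassCurve Qb) [E.IsElliptic] (h : (c.ω E).im ≠ 0) :
    ∃ p : E.toAffine.Point, (c.w E).k0 p ≠ 0 := by
  by_contra hcon
  push Not at hcon
  have hn : c.n E ≠ 0 := by
    intro h0
    have h1 := c.norm E
    rw [h0, Int.cast_zero, Complex.mul_conj, Complex.ofReal_eq_zero,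
      Complex.normSq_eq_zero] at h1
    rw [h1] at h
    exact h rfl
  have h2 : ∀ p : E.toAffine.Point, c.n E • p = 0 := by
    intro p
    have h3 := c.quad E Qb (constPt Qb p)
    rw [(c.w E).const, (c.w E).const, hcon p] at h3
    have h4 : (constPt Qb ((c.w E).k0 0) : (E⁄Qb).toAffine.Point) = 0 := by
      rw [show (c.w E).k0 0 = 0 from map_zero (c.w E).k0H]
      rfl
    have h5 : (constPt Qb (0 : E.toAffine.Point) : (E⁄Qb).toAffine.Point) = 0 := rfl
    rw [h4, h5, smul_zero, zero_sub, eq_comm, neg_eq_zero, ← HG_const_zsmul] at h3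
    revert h3
    match c.n E • p with
    | .zero => exact fun _ => rfl
    | .some x y h => exact fun h5 => absurd h5 (by intro h''; cases h'')
  obtain ⟨Γ, -, h6, -⟩ := LibIG50.main E 0
  obtain ⟨Q, hQ⟩ := h6 E inferInstance
  have h7 := hQ.ne_zero 0
  have h8 : c.n E • Q 0 = 0 := Subtype.ext (by
    rw [AddSubgroup.coe_zsmul]
    exact h2 _)
  have h9 := (linearIndependent_iff'.1 hQ) {0} (fun _ => c.n E) (by simpa using h8) 0
    (Finset.mem_singleton_self 0)
  exact hn h9

/-- extension of linear maps to `ℂ` -/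
theorem exists_ext {G : Type} [AddCommGroup G] (w : G →+ G) {ω : ℂ} {t n : ℤ}
    (hw : ∀ x, w (w x) = t • w x - n • x) (h1 : ω + conj ω = t) (h2 : ω * conj ω = n)
    (S : AddSubgroup G) (hS : ∀ x ∈ S, w x ∈ S) (lam : S →+ ℂ)
    (hlam : ∀ x : S, lam ⟨w x, hS x x.2⟩ = ω * lam x) (hω : ω.im = 0 → ω = 0 ∧ ∀ x, w x = 0) :
    ∃ mu : G →+ ℂ, (∀ x, mu (w x) = ω * mu x) ∧ ∀ x : S, mu x = lam x := by
  obtain ⟨nu, hnu⟩ := (Module.Baer.of_divisible ℂ).extension_property_addMonoidHom
    S.subtype Subtype.val_injective lam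
  have hnu' : ∀ x : S, nu x = lam x := fun x => DFunLike.congr_fun hnu x
  by_cases h0 : ω.im = 0
  · obtain ⟨h3, h4⟩ := hω h0
    exact ⟨nu, fun x => by rw [h4, h3, map_zero, zero_mul], hnu'⟩
  · have h3 : ω - conj ω ≠ 0 := by
      intro h
      apply h0
      have h4 := congrArg Complex.im h
      simp only [Complex.sub_im, Complex.conj_im, Complex.zero_im] at h4
      linarith
    refine ⟨AddMonoidHom.mk' (fun x => (nu (w x) - conj ω * nu x) / (ω - conj ω)) fun x y => ?_,
      fun x => ?_, fun x => ?_⟩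
    · rw [map_add, map_add, map_add]
      ring
    · change (nu (w (w x)) - conj ω * nu (w x)) / (ω - conj ω) =
        ω * ((nu (w x) - conj ω * nu x) / (ω - conj ω))
      rw [hw, map_sub, map_zsmul, map_zsmul, zsmul_eq_mul, zsmul_eq_mul, ← h1, ← h2]
      ring
    · change (nu (w x) - conj ω * nu x) / (ω - conj ω) = lam x
      have h4 : nu (w x) = ω * lam x := by
        rw [← hlam x]
        exact hnu' ⟨w x, hS x x.2⟩
      rw [h4, hnu', ← sub_mul, mul_div_assoc, mul_comm, div_mul_cancel₀ _ h3]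

end Pool.Agent.LibAC34
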