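import Pool.Agent.LibCHd.Key
import Pool.Agent.LibBH2.Curve

/-!
Translates of abelian subvarieties of products of elliptic curves: definitions.
-/

open WeierstrassCurve Pool.Agent.LibBH2 Pool.Agent.LibIG50 Pool.Agent.LibCHd
open scoped Classical

namespace Pool.Agent.LibAC34

variable {k : Type} [Field k]

/-- The point `p` of the curve `V`, as a point of the curve `W`, if the two curves are equal, and the
origin otherwise. -/
noncomputable def tr {F : Type} [Field F] [Algebra k F] (V W : WeierstrassCurve k)
    (p : (V⁄F).toAffine.Point) : (W⁄F).toAffine.Point :=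
  if h : V = W then h ▸ p else 0

/-- the same for points with coordinates in `k` -/
noncomputable def trk (V W : WeierstrassCurve k) (p : V.toAffine.Point) : W.toAffine.Point :=
  if h : V = W then h ▸ p else 0

/-- `K` is the function field of the product `V 1 × ... × V D` of curves over the function field `L` of
dimension `e`, and `ξ` is its generic point: `K` has dimension `e + D` and is generated over `L` by the
coordinates of the points `ξ a`. -/
structure IsGen (e : ℕ) {L K : Type} [Field L] [Algebra k L] [Field K] [Algebra k K]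
    (l : L →ₐ[k] K) {D : ℕ} (V : Fin D → WeierstrassCurve k)
    (ξ : ∀ a, ((V a)⁄K).toAffine.Point) : Prop where
  dimL : FunF k e L
  dim : FunF k (e + D) K
  gen : IntermediateField.adjoin k
    (Set.range l ∪ {c | ∃ a i j, c = hc (ξ a) i / hc (ξ a) j}) = ⊤

/-- The point `N ξ + g + u` of `W 1 × ... × W r × Y`, where `u` is a point with coordinates in `L`: its
component in the curve `W i` is `g i + ∑ N i a ξ a` plus the component of `u`, the sum being over the
indices `a` with `V a = W i`, and its component in `Y` is that of `u`. -/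
noncomputable def lin {L K : Type} [Field L] [Algebra k L] [Field K] [Algebra k K]
    (l : L →ₐ[k] K) {D r : ℕ} {V : Fin D → WeierstrassCurve k} {W : Fin r → WeierstrassCurve k}
    {Y : Prj k} (ξ : ∀ a, ((V a)⁄K).toAffine.Point) (N : Matrix (Fin r) (Fin D) ℤ) (g : Pts W)
    (u : Pnt W Y L) : Pnt W Y K :=
  trl g (Pnt.add (fun i => ∑ a, N i a • tr (V a) (W i) (ξ a)) (u.map l))

/-- the class of the cycle of the point `N ξ + g + u` -/
noncomputable def cl {L K : Type} [Field L] [Algebra k L] [Field K] [Algebra k K]
    (l : L →ₐ[k] K) (m : ℕ) {D r : ℕ} {V : Fin D → WeierstrassCurve k}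
    {W : Fin r → WeierstrassCurve k} {Y : Prj k} (ξ : ∀ a, ((V a)⁄K).toAffine.Point)
    (u : Pnt W Y L) (N : Matrix (Fin r) (Fin D) ℤ) (g : Pts W) :
    CH W Y m :=
  QuotientAddGroup.mk (cyc (lin l ξ N g u))

/-! ### one curve over an arbitrary base field -/

/-- the coordinates of a point -/
def coo {E : WeierstrassCurve k} {F : Type} [Field F] [Algebra k F] (P : (E⁄F).toAffine.Point) :
    Set F :=
  {c | ∃ i j, c = hc P i / hc P j}

/-- `M` is the function field of the curve `E` over the field `M₀`, and `ξ` is its generic point: `ξ` is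
a point `(x, y)` with `x` transcendental over `M₀` and `M = M₀(x, y)`. -/
def Gen1 {M₀ M : Type} [Field M₀] [Algebra k M₀] [Field M] [Algebra k M] (i : M₀ →ₐ[k] M)
    (E : WeierstrassCurve k) (ξ : (E⁄M).toAffine.Point) : Prop :=
  ∃ (x y : M) (h : (E⁄M).toAffine.Nonsingular x y), ξ = .some x y h ∧
    (∀ G : Polynomial M₀, G ≠ 0 → Polynomial.eval₂ (i : M₀ →+* M) x G ≠ 0) ∧
    IntermediateField.adjoin k (Set.range i ∪ {x, y}) = ⊤

/-- the point `v ξ + T` of `W 1 × ... × W r × Y`, for integers `v i` -/
noncomputable def ph {M₀ M : Type} [Field M₀] [Algebra k M₀] [Field M] [Algebra k M]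
    {r : ℕ} {W : Fin r → WeierstrassCurve k} {Y : Prj k} (i : M₀ →ₐ[k] M)
    (E : WeierstrassCurve k) (ξ : (E⁄M).toAffine.Point) (T : Pnt W Y M₀) (v : Fin r → ℤ) :
    Pnt W Y M :=
  Pnt.add (fun n => v n • tr E (W n) ξ) (T.map i)

end Pool.Agent.LibAC34
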