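import Pool.Agent.LibAC34.Stmt2
import Pool.Agent.LibGG.G6

/-!
Cycles over a number field: finitely many tests suffice.
-/

open WeierstrassCurve Pool.Agent.LibBH2 Pool.Agent.LibIG50 Pool.Agent.LibCHd Pool.Agent.LibGG
open scoped Classical

namespace Pool.Agent.LibAC34

section quad

variable {ι G : Type} [DecidableEq ι] [AddCommGroup G]

/-- functions of integral variables which are of degree at most two in every variable -/
def Quad (f : (ι → ℤ) → G) : Prop :=
  ∀ x i, ∃ A B C : G, ∀ t : ℤ, f (Function.update x i t) = A + t • B + t ^ 2 • C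

/-- functions of integral variables which are of degree at most one in every variable -/
def Aff (f : (ι → ℤ) → ℤ) : Prop :=
  ∀ x i, ∃ A B : ℤ, ∀ t : ℤ, f (Function.update x i t) = A + t * B

theorem quad_mem [Fintype ι] (T : AddSubgroup G) (hT : ∀ x, (2 : ℤ) • x ∈ T → x ∈ T) (S : Set ι)
    (f : (ι → ℤ) → G) (hf : Quad f)
    (h0 : ∀ x, (∀ i, x i = 0 ∨ x i = 1 ∨ x i = 2) → (∀ i ∉ S, x i = 0) → f x ∈ T)
    (x : ι → ℤ) (hx : ∀ i ∉ S, x i = 0) : f x ∈ T := by
  have key : ∀ s : Finset ι, ∀ x : ι → ℤ, (∀ i ∉ s, x i = 0 ∨ x i = 1 ∨ x i = 2) →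
      (∀ i ∉ S, x i = 0) → f x ∈ T := by
    intro s
    induction s using Finset.induction_on with
    | empty => exact fun x h1 h2 => h0 x (fun i => h1 i (Finset.notMem_empty i)) h2
    | insert i s hi ih =>
      intro x h1 h2
      by_cases hiS : i ∈ S
      · obtain ⟨A, B, C, h⟩ := hf x i
        have h3 : ∀ t : ℤ, (t = 0 ∨ t = 1 ∨ t = 2) → A + t • B + t ^ 2 • C ∈ T := by
          intro t ht
          rw [← h t]
          apply ih
          · intro j hj
            by_cases hji : j = i
            · subst hji
              rw [Function.update_self]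
              exact ht
            · rw [Function.update_of_ne hji]
              exact h1 j (by simp [hji, hj])
          · intro j hj
            have hji : j ≠ i := by
              rintro rfl
              exact hj hiS
            rw [Function.update_of_ne hji]
            exact h2 j hj
        have hA : A ∈ T := by simpa using h3 0 (Or.inl rfl)
        have hBC : B + C ∈ T := by
          have h4 := T.sub_mem (h3 1 (Or.inr (Or.inl rfl))) hA
          have h5 : A + (1 : ℤ) • B + (1 : ℤ) ^ 2 • C - A = B + C := by
            rw [one_smul, one_pow, one_smul]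
            abel
          rwa [h5] at h4
        have hC : C ∈ T := by
          apply hT
          have h4 := T.sub_mem (T.sub_mem (h3 2 (Or.inr (Or.inr rfl))) hA) (T.zsmul_mem hBC 2)
          have h5 : A + (2 : ℤ) • B + (2 : ℤ) ^ 2 • C - A - (2 : ℤ) • (B + C) = (2 : ℤ) • C := by
            rw [show (2 : ℤ) ^ 2 = 2 + 2 by norm_num, add_smul, smul_add]
            abel
          rwa [h5] at h4
        have hB : B ∈ T := by
          have h4 := T.sub_mem hBC hC
          rwa [add_sub_cancel_right] at h4
        have h4 := h (x i)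
        rw [Function.update_eq_self] at h4
        rw [h4]
        exact T.add_mem (T.add_mem hA (T.zsmul_mem hB _)) (T.zsmul_mem hC _)
      · refine ih x (fun j hj => ?_) h2
        by_cases hji : j = i
        · subst hji
          exact Or.inl (h2 j hiS)
        · exact h1 j (by simp [hji, hj])
  exact key Finset.univ x (fun i hi => absurd (Finset.mem_univ i) hi) hx

theorem Aff.mul_smul {p q : (ι → ℤ) → ℤ} (hp : Aff p) (hq : Aff q) (g : G) :
    Quad (fun x => (p x * q x) • g) := by
  intro x i
  obtain ⟨A, B, h⟩ := hp x i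
  obtain ⟨A', B', h'⟩ := hq x i
  refine ⟨(A * A') • g, (A * B' + B * A') • g, (B * B') • g, fun t => ?_⟩
  change (p _ * q _) • g = _
  rw [h, h', smul_smul, smul_smul, ← add_smul, ← add_smul]
  congr 1
  ring

theorem Quad.zsmul {f : (ι → ℤ) → G} (hf : Quad f) (n : ℤ) : Quad (fun x => n • f x) := by
  intro x i
  obtain ⟨A, B, C, h⟩ := hf x i
  refine ⟨n • A, n • B, n • C, fun t => ?_⟩
  change n • f _ = _
  rw [h, smul_add, smul_add, smul_comm n t, smul_comm n (t ^ 2)]

theorem Quad.sum {J : Type} (s : Finset J) {f : J → (ι → ℤ) → G} (hf : ∀ j ∈ s, Quad (f j)) :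
    Quad (fun x => ∑ j ∈ s, f j x) := by
  intro x i
  have h : ∀ j, ∃ A B C : G, j ∈ s → ∀ t : ℤ, f j (Function.update x i t) =
      A + t • B + t ^ 2 • C := by
    intro j
    by_cases hj : j ∈ s
    · obtain ⟨A, B, C, h⟩ := hf j hj x i
      exact ⟨A, B, C, fun _ => h⟩
    · exact ⟨0, 0, 0, fun h => absurd h hj⟩
  choose A B C h using h
  refine ⟨∑ j ∈ s, A j, ∑ j ∈ s, B j, ∑ j ∈ s, C j, fun t => ?_⟩
  rw [Finset.smul_sum, Finset.smul_sum, ← Finset.sum_add_distrib, ← Finset.sum_add_distrib]
  exact Finset.sum_congr rfl fun j hj => h j hj t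

end quad

/-! ### determinants -/

section dets

theorem det_add_single {m n : Type} [Fintype m] [Fintype n] [DecidableEq m] [DecidableEq n]
    (M N : Matrix m n ℤ) (i : m) (a : n) (t : ℤ) :
    ((M + Matrix.single i a t).transpose * N).det =
      (M.transpose * N).det + t * ((M.transpose * N).updateRow a (N i)).det := by
  have h : (M + Matrix.single i a t).transpose * N =
      (M.transpose * N).updateRow a ((M.transpose * N) a + t • N i) := by
    ext b c
    rw [Matrix.transpose_add, Matrix.add_mul, Matrix.add_apply, Matrix.transpose_single]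
    by_cases hb : b = a
    · subst hb
      rw [Matrix.updateRow_self, Pi.add_apply, Pi.smul_apply, smul_eq_mul,
        Matrix.single_mul_apply_same]
    · rw [Matrix.updateRow_ne hb, Matrix.single_mul_apply_of_ne _ _ _ _ _ hb, add_zero]
  rw [h, Matrix.det_updateRow_add, Matrix.det_updateRow_smul, Matrix.updateRow_eq_self]

variable {D r : ℕ}

/-- the matrix with given entries -/
def mt (x : Fin r × Fin D → ℤ) : Matrix (Fin r) (Fin D) ℤ := Matrix.of fun i a => x (i, a)

theorem mt_update (x : Fin r × Fin D → ℤ) (i : Fin r) (a : Fin D) (t : ℤ) :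
    mt (Function.update x (i, a) t) = mt (Function.update x (i, a) 0) + Matrix.single i a t := by
  ext j b
  rw [Matrix.add_apply]
  simp only [mt, Matrix.of_apply]
  by_cases h : (j, b) = (i, a)
  · rw [h, Function.update_self, Function.update_self]
    obtain ⟨rfl, rfl⟩ := Prod.mk.inj h
    rw [Matrix.single_apply_same, zero_add]
  · rw [Function.update_of_ne h, Function.update_of_ne h, Matrix.single_apply_of_ne, add_zero]
    rintro ⟨rfl, rfl⟩
    exact h rfl

theorem bd_add_single (M : Matrix (Fin r) (Fin D) ℤ) (z : Fin r → ℤ) (i : Fin r) (a : Fin D)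
    (t : ℤ) : bd (M + Matrix.single i a t) z = bd M z + Matrix.single i (Sum.inl a) t := by
  ext j b
  rcases b with b | b
  · simp [bd, Matrix.single_apply]
  · simp [bd]

theorem aff_det (N : Matrix (Fin r) (Fin D) ℤ) :
    Aff (fun x : Fin r × Fin D → ℤ => ((mt x).transpose * N).det) := by
  rintro x ⟨i, a⟩
  refine ⟨((mt (Function.update x (i, a) 0)).transpose * N).det,
    (((mt (Function.update x (i, a) 0)).transpose * N).updateRow a (N i)).det, fun t => ?_⟩
  change ((mt (Function.update x (i, a) t)).transpose * N).det = _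
  rw [mt_update, det_add_single]

theorem aff_bd (N : Matrix (Fin r) (Fin D) ℤ) (z w : Fin r → ℤ) :
    Aff (fun x : Fin r × Fin D → ℤ => ((bd (mt x) z).transpose * bd N w).det) := by
  rintro x ⟨i, a⟩
  refine ⟨((bd (mt (Function.update x (i, a) 0)) z).transpose * bd N w).det,
    (((bd (mt (Function.update x (i, a) 0)) z).transpose * bd N w).updateRow (Sum.inl a)
      (bd N w i)).det, fun t => ?_⟩
  change ((bd (mt (Function.update x (i, a) t)) z).transpose * bd N w).det = _
  rw [mt_update, bd_add_single, det_add_single]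

theorem bd_row (M N : Matrix (Fin r) (Fin D) ℤ) (z w : Fin r → ℤ) :
    (bd M z).transpose * bd N w =
      ((bd M 0).transpose * bd N w).updateRow (Sum.inr ()) (Matrix.vecMul z (bd N w)) := by
  ext b c
  rcases b with b | b
  · rw [Matrix.updateRow_ne (by simp), Matrix.mul_apply, Matrix.mul_apply]
    exact Finset.sum_congr rfl fun j _ => by simp [bd]
  · obtain rfl : b = () := rfl
    rw [Matrix.updateRow_self, Matrix.mul_apply]
    exact Finset.sum_congr rfl fun j _ => by simp [bd]

theorem det_bd_linear (M N : Matrix (Fin r) (Fin D) ℤ) (z w : Fin r → ℤ) :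
    ((bd M z).transpose * bd N w).det =
      ∑ i, z i * ((bd M (Pi.single i 1)).transpose * bd N w).det := by
  let f : (Fin r → ℤ) →ₗ[ℤ] ℤ :=
    { toFun := fun z => ((bd M z).transpose * bd N w).det
      map_add' := by
        intro z z'
        change ((bd M (z + z')).transpose * bd N w).det = ((bd M z).transpose * bd N w).det +
          ((bd M z').transpose * bd N w).det
        rw [bd_row M N (z + z'), bd_row M N z, bd_row M N z', Matrix.add_vecMul,
          Matrix.det_updateRow_add]
      map_smul' := by
        intro n z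
        change ((bd M (n • z)).transpose * bd N w).det = n • ((bd M z).transpose * bd N w).det
        rw [bd_row M N (n • z), bd_row M N z, Matrix.smul_vecMul, Matrix.det_updateRow_smul,
          smul_eq_mul] }
  have h := LinearMap.pi_apply_eq_sum_univ f z
  refine h.trans (Finset.sum_congr rfl fun i _ => ?_)
  rw [smul_eq_mul]
  have h1 : (fun j => if i = j then (1 : ℤ) else 0) = Pi.single i 1 := by
    funext j
    rw [Pi.single_apply]
    simp [eq_comm]
  rw [h1]
  rfl

end dets

end Pool.Agent.LibAC34
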