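import Pool.Agent.LibAC34.F1

/-!
Cycles over a number field, of all dimensions: they generate groups of finite rank.
-/

open WeierstrassCurve Pool.Agent.LibBH2 Pool.Agent.LibIG50 Pool.Agent.LibCHd Pool.Agent.LibGG
open scoped Classical

namespace Pool.Agent.LibAC34

section tests

variable {k : Type} [Field k] {D r : ℕ} {W : Fin r → WeierstrassCurve k}

theorem bdet_linear (E : WeierstrassCurve k) (M N : Matrix (Fin r) (Fin D) ℤ) (z : Fin r → ℤ)
    (g : Pts W) : bdet E M z N g = ∑ i, z i • bdet E M (Pi.single i 1) N g := by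
  unfold bdet
  simp only [Finset.smul_sum]
  rw [Finset.sum_comm]
  refine Finset.sum_congr rfl fun j _ => ?_
  rw [det_bd_linear, Finset.sum_smul]
  exact Finset.sum_congr rfl fun i _ => mul_smul _ _ _

/-- a matrix with integral entries, as a function on the pairs of indices -/
theorem mt_entries (M : Matrix (Fin r) (Fin D) ℤ) : mt (fun p => M p.1 p.2) = M := rfl

omit [Field k] in
theorem tests_deg (V : Fin D → WeierstrassCurve k) (W : Fin r → WeierstrassCurve k)
    {J : Type} [Fintype J] (m : J → ℤ) (N : J → Matrix (Fin r) (Fin D) ℤ)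
    (h : ∀ x : Fin r × Fin D → ℤ, (∀ p, x p = 0 ∨ x p = 1 ∨ x p = 2) → Mat V W (mt x) →
      ∑ j, m j * ((mt x).transpose * N j).det ^ 2 = 0)
    (M : Matrix (Fin r) (Fin D) ℤ) (hM : Mat V W M) :
    ∑ j, m j * (M.transpose * N j).det ^ 2 = 0 := by
  have hq : Quad (fun x : Fin r × Fin D → ℤ => ∑ j, m j * ((mt x).transpose * N j).det ^ 2) := by
    apply Quad.sum
    intro j _
    have h1 := ((aff_det (N j)).mul_smul (aff_det (N j)) (1 : ℤ)).zsmul (m j)
    intro x p
    obtain ⟨A, B, C, h2⟩ := h1 x p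
    refine ⟨A, B, C, fun t => ?_⟩
    rw [← h2 t]
    simp [pow_two]
  have h3 := quad_mem (⊥ : AddSubgroup ℤ) (fun x hx => by
      rw [AddSubgroup.mem_bot] at hx ⊢
      rw [smul_eq_mul] at hx
      omega) {p : Fin r × Fin D | V p.2 = W p.1} _ hq (fun x hx hx' => by
      rw [AddSubgroup.mem_bot]
      exact h x hx fun i a hia => hx' (i, a) hia) (fun p => M p.1 p.2)
      (fun p hp => hM p.1 p.2 hp)
  rw [AddSubgroup.mem_bot] at h3
  exact h3

theorem tests_pt (V : Fin D → WeierstrassCurve k) (W : Fin r → WeierstrassCurve k)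
    {J : Type} [Fintype J] (m : J → ℤ) (N : J → Matrix (Fin r) (Fin D) ℤ) (g : J → Pts W)
    (h : ∀ x : Fin r × Fin D → ℤ, (∀ p, x p = 0 ∨ x p = 1 ∨ x p = 2) → Mat V W (mt x) →
      ∀ i, IsOfFinAddOrder (∑ j, (m j * ((mt x).transpose * N j).det) •
        bdet (W i) (mt x) (Pi.single i 1) (N j) (g j)))
    (M : Matrix (Fin r) (Fin D) ℤ) (hM : Mat V W M) (E : WeierstrassCurve k) (z : Fin r → ℤ)
    (hz : ∀ i, W i ≠ E → z i = 0) :
    IsOfFinAddOrder (∑ j, (m j * (M.transpose * N j).det) • bdet E M z (N j) (g j)) := by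
  have key : ∀ i, IsOfFinAddOrder (∑ j, (m j * (M.transpose * N j).det) •
      bdet (W i) M (Pi.single i 1) (N j) (g j)) := by
    intro i
    have hq : Quad (fun x : Fin r × Fin D → ℤ => ∑ j, (m j * ((mt x).transpose * N j).det) •
        bdet (W i) (mt x) (Pi.single i 1) (N j) (g j)) := by
      have h0 : (fun x : Fin r × Fin D → ℤ => ∑ j, (m j * ((mt x).transpose * N j).det) •
          bdet (W i) (mt x) (Pi.single i 1) (N j) (g j)) =
          fun x : Fin r × Fin D → ℤ => ∑ j, ∑ n, m j • ((((mt x).transpose * N j).det *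
            ((bd (mt x) (Pi.single i 1)).transpose * bd (N j) (Pi.single n 1)).det) •
              trk (W n) (W i) (g j n)) := by
        funext x
        refine Finset.sum_congr rfl fun j _ => ?_
        rw [bdet, Finset.smul_sum]
        refine Finset.sum_congr rfl fun n _ => ?_
        rw [smul_smul, smul_smul, mul_assoc]
      rw [h0]
      apply Quad.sum
      intro j _
      apply Quad.sum
      intro n _
      exact ((aff_det (N j)).mul_smul (aff_bd (N j) _ _) _).zsmul (m j)
    have h3 := quad_mem (AddCommGroup.torsion (W i).toAffine.Point) (fun x hx => by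
        rw [AddCommGroup.mem_torsion, isOfFinAddOrder_iff_nsmul_eq_zero] at hx ⊢
        obtain ⟨n, hn, h4⟩ := hx
        refine ⟨n * 2, by omega, ?_⟩
        rw [mul_smul, ← h4]
        exact congrArg _ (natCast_zsmul x 2).symm) {p : Fin r × Fin D | V p.2 = W p.1} _ hq (fun x hx hx' => by
        rw [AddCommGroup.mem_torsion]
        exact h x hx (fun i a hia => hx' (i, a) hia) i) (fun p => M p.1 p.2)
        (fun p hp => hM p.1 p.2 hp)
    rw [AddCommGroup.mem_torsion] at h3
    exact h3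
  have h1 : ∑ j, (m j * (M.transpose * N j).det) • bdet E M z (N j) (g j) =
      ∑ i, z i • ∑ j, (m j * (M.transpose * N j).det) • bdet E M (Pi.single i 1) (N j) (g j) := by
    simp only [Finset.smul_sum]
    rw [Finset.sum_comm]
    refine Finset.sum_congr rfl fun j _ => ?_
    rw [bdet_linear, Finset.smul_sum]
    exact Finset.sum_congr rfl fun i _ => smul_comm _ _ _
  rw [h1, ← AddCommGroup.mem_torsion]
  refine AddSubgroup.sum_mem _ fun i _ => ?_
  by_cases hi : W i = E
  · refine AddSubgroup.zsmul_mem _ ?_ _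
    rw [AddCommGroup.mem_torsion]
    subst hi
    exact key i
  · rw [hz i hi, zero_smul]
    exact AddSubgroup.zero_mem _

end tests

/-! ### the Galois action -/

theorem baseChange_injective {K : Type} [Field K] [Algebra K Qb] {E E' : WeierstrassCurve K}
    (h : (E⁄Qb) = (E'⁄Qb)) : E = E' :=
  WeierstrassCurve.map_injective (algebraMap K Qb).injective h

theorem gal_trk {K : Type} [Field K] [Algebra K Qb] (E E' : WeierstrassCurve K)
    (σ : Qb ≃ₐ[K] Qb) (p : (E⁄Qb).toAffine.Point) :
    gal σ (trk (E⁄Qb) (E'⁄Qb) p) = trk (E⁄Qb) (E'⁄Qb) (gal σ p) := by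
  unfold trk
  by_cases h : (E⁄Qb) = (E'⁄Qb)
  · obtain rfl := baseChange_injective h
    rw [dif_pos rfl, dif_pos rfl]
  · rw [dif_neg h, dif_neg h, map_zero]

theorem gal_bdet {K : Type} [Field K] [Algebra K Qb] {D r : ℕ} (E : Fin r → WeierstrassCurve K)
    (E' : WeierstrassCurve K) (M N : Matrix (Fin r) (Fin D) ℤ) (z : Fin r → ℤ)
    (g : Pts (fun i => (E i)⁄Qb)) (σ : Qb ≃ₐ[K] Qb) :
    gal σ (bdet (E'⁄Qb) M z N g) =
      bdet (W := fun i => (E i)⁄Qb) (E'⁄Qb) M z N (fun i => gal σ (g i)) := by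
  unfold bdet
  rw [map_sum]
  refine Finset.sum_congr rfl fun i _ => ?_
  rw [map_zsmul, gal_trk]

/-- the group of the combinations which are invariant under the Galois group -/
noncomputable def ZKDg {K : Type} [Field K] [Algebra K Qb] (Γ : Grid) {D r : ℕ}
    (V : Fin D → WeierstrassCurve K) (E : Fin r → WeierstrassCurve K) :
    AddSubgroup ((Matrix (Fin r) (Fin D) ℤ × Pts (fun i => (E i)⁄Qb)) →₀ ℤ) where
  carrier := ZKD Γ V E
  zero_mem' := ⟨fun a ha => by simp at ha, fun σ => Finsupp.mapDomain_zero⟩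
  add_mem' := by
    rintro c c' ⟨h1, h2⟩ ⟨h3, h4⟩
    refine ⟨fun a ha => ?_, fun σ => ?_⟩
    · rcases Finset.mem_union.1 (Finsupp.support_add ha) with h | h
      · exact h1 a h
      · exact h3 a h
    · rw [Finsupp.mapDomain_add, h2, h4]
  neg_mem' := by
    rintro c ⟨h1, h2⟩
    refine ⟨fun a ha => h1 a (by rwa [Finsupp.support_neg] at ha), fun σ => ?_⟩
    have h5 := (Finsupp.mapDomain.addMonoidHom
      (fun (p : Matrix (Fin r) (Fin D) ℤ × Pts (fun i => (E i)⁄Qb)) =>
        ((p.1, fun i => gal σ (p.2 i)) :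
          Matrix (Fin r) (Fin D) ℤ × Pts (fun i => (E i)⁄Qb)))).map_neg c
    change Finsupp.mapDomain _ (-c) = - Finsupp.mapDomain _ c at h5
    rw [h5, h2]

/-- the fixed points -/
noncomputable def Fx {K : Type} [Field K] [Algebra K Qb] (E : WeierstrassCurve K) :
    AddSubgroup (E⁄Qb).toAffine.Point where
  carrier := {R | ∀ σ : Qb ≃ₐ[K] Qb, gal σ R = R}
  zero_mem' := fun σ => map_zero _
  add_mem' := fun {a b} ha hb σ => by rw [map_add, ha σ, hb σ]
  neg_mem' := fun {a} ha σ => by rw [map_neg, ha σ]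

theorem rank_Fx (K : Type) [Field K] [NumberField K] [Algebra K Qb] (E : WeierstrassCurve K) :
    Module.rank ℤ (Fx E) ≤ Module.rank ℤ E.toAffine.Point := by
  choose g hg using fun R : Fx E => exists_of_fixed K E R.1 R.2
  let γ : Fx E →+ E.toAffine.Point :=
    { toFun := g
      map_zero' := by
        apply constPt_injective
        rw [hg]
        rfl
      map_add' := by
        intro R S
        apply constPt_injective
        rw [constPt_add, hg, hg, hg]
        rfl }
  apply LinearMap.rank_le_of_injective γ.toIntLinearMap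
  intro R S h
  apply Subtype.ext
  rw [← hg R, ← hg S]
  exact congrArg _ h

theorem rank_fun_le (n : ℕ) (A : Type) [AddCommGroup A] :
    Module.rank ℤ (Fin n → A) ≤ n * Module.rank ℤ A := by
  refine (rank_pi_le n fun _ => A).trans ?_
  rw [Finset.sum_const, Finset.card_univ, Fintype.card_fin, nsmul_eq_mul]

theorem rank_ZKD (K : Type) [Field K] [NumberField K] [Algebra K Qb] (Γ : Grid) {D r : ℕ}
    (V : Fin D → WeierstrassCurve K) (E : Fin r → WeierstrassCurve K) {B : Type} [AddCommGroup B]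
    (α : ((Matrix (Fin r) (Fin D) ℤ × Pts (fun i => (E i)⁄Qb)) →₀ ℤ) →+ B)
    (hα : ∀ c ∈ ZKD Γ V E,
      (∀ x : Fin r × Fin D → ℤ, (∀ p, x p = 0 ∨ x p = 1 ∨ x p = 2) →
        Mat (fun a => (V a)⁄Qb) (fun i => (E i)⁄Qb) (mt x) →
        (c.sum fun p n => n * ((mt x).transpose * p.1).det ^ 2) = 0) →
      (∀ x : Fin r × Fin D → ℤ, (∀ p, x p = 0 ∨ x p = 1 ∨ x p = 2) →
        Mat (fun a => (V a)⁄Qb) (fun i => (E i)⁄Qb) (mt x) → ∀ i,
        (c.sum fun p n => (n * ((mt x).transpose * p.1).det) •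
          bdet ((E i)⁄Qb) (mt x) (Pi.single i 1) p.1 p.2) = 0) → IsOfFinAddOrder (α c)) :
    Module.rank ℤ (AddSubgroup.closure (α '' ZKD Γ V E)) ≤
      3 ^ (r * D) * (1 + ∑ i, Module.rank ℤ (E i).toAffine.Point) := by
  -- the tests
  let dg : (Fin r × Fin D → ℤ) → ((Matrix (Fin r) (Fin D) ℤ × Pts (fun i => (E i)⁄Qb)) →₀ ℤ) →+ ℤ :=
    fun x => Finsupp.liftAddHom fun p => zmultiplesHom _ (((mt x).transpose * p.1).det ^ 2)
  let pt : (Fin r × Fin D → ℤ) → ∀ i : Fin r,
      ((Matrix (Fin r) (Fin D) ℤ × Pts (fun i => (E i)⁄Qb)) →₀ ℤ) →+ ((E i)⁄Qb).toAffine.Point :=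
    fun x i => Finsupp.liftAddHom fun p => zmultiplesHom _ (((mt x).transpose * p.1).det •
      bdet ((E i)⁄Qb) (mt x) (Pi.single i 1) p.1 p.2)
  have hdg : ∀ x c, dg x c = c.sum fun p n => n * ((mt x).transpose * p.1).det ^ 2 := by
    intro x c
    change (c.sum fun p n => n • (((mt x).transpose * p.1).det ^ 2)) = _
    simp only [smul_eq_mul]
  have hpt : ∀ x i c, pt x i c = c.sum fun p n => (n * ((mt x).transpose * p.1).det) •
      bdet ((E i)⁄Qb) (mt x) (Pi.single i 1) p.1 p.2 := by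
    intro x i c
    change (c.sum fun p n => n • (((mt x).transpose * p.1).det •
      bdet ((E i)⁄Qb) (mt x) (Pi.single i 1) p.1 p.2)) = _
    simp only [mul_smul]
  have hF : ∀ c ∈ ZKDg Γ V E, ∀ x i, pt x i c ∈ Fx (E i) := by
    intro c hc x i σ
    have h1 : ∀ c : (Matrix (Fin r) (Fin D) ℤ × Pts (fun i => (E i)⁄Qb)) →₀ ℤ,
        gal σ (pt x i c) = pt x i (c.mapDomain (fun p => (p.1, fun i => gal σ (p.2 i)))) := by
      intro c
      induction c using Finsupp.induction_linear with
      | zero => rw [map_zero, map_zero, Finsupp.mapDomain_zero, map_zero]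
      | add c c' h h' => rw [Finsupp.mapDomain_add, map_add, map_add, map_add, h, h']
      | single p n =>
        rw [Finsupp.mapDomain_single, hpt, hpt, Finsupp.sum_single_index (by simp),
          Finsupp.sum_single_index (by simp), map_zsmul, gal_bdet]
    rw [h1, hc.2 σ]
  -- the values of the tests
  let n : ℕ := Fintype.card (Fin r × Fin D → Fin 3)
  let q : Fin n ≃ (Fin r × Fin D → Fin 3) := (Fintype.equivFin _).symm
  let y : Fin n → (Fin r × Fin D → ℤ) := fun m p => (q m p : ℕ)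
  let ψ : ZKDg Γ V E →+ (Fin n → ℤ × ∀ i, Fx (E i)) :=
    { toFun := fun c m => (dg (y m) c.1, fun i => ⟨pt (y m) i c.1, hF c.1 c.2 (y m) i⟩)
      map_zero' := by
        funext m
        apply Prod.ext
        · exact map_zero _
        · funext i
          apply Subtype.ext
          exact map_zero _
      map_add' := by
        intro c c'
        funext m
        apply Prod.ext
        · exact map_add _ _ _
        · funext i
          apply Subtype.ext
          exact map_add _ _ _ }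
  have h1 : Module.rank ℤ (α.comp (ZKDg Γ V E).subtype).range ≤
      Module.rank ℤ (Fin n → ℤ × ∀ i, Fx (E i)) := by
    apply rank_le _ ψ
    intro c hc
    have hy : ∀ x : Fin r × Fin D → ℤ, (∀ p, x p = 0 ∨ x p = 1 ∨ x p = 2) → ∃ m, y m = x := by
      intro x hx
      refine ⟨q.symm fun p => ⟨(x p).toNat, ?_⟩, ?_⟩
      · rcases hx p with h | h | h <;> rw [h] <;> decide
      · funext p
        change (((q (q.symm fun p => (⟨(x p).toNat, _⟩ : Fin 3)) p : Fin 3) : ℕ) : ℤ) = x p
        rw [Equiv.apply_symm_apply]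
        change ((x p).toNat : ℤ) = x p
        rcases hx p with h | h | h <;> rw [h] <;> rfl
    refine hα c.1 c.2 (fun x hx _ => ?_) fun x hx _ i => ?_
    · obtain ⟨m, rfl⟩ := hy x hx
      rw [← hdg]
      exact congrArg Prod.fst (congrFun hc m)
    · obtain ⟨m, rfl⟩ := hy x hx
      rw [← hpt]
      exact congrArg Subtype.val (congrFun (congrArg Prod.snd (congrFun hc m)) i)
  have h2 : AddSubgroup.closure (α '' ZKD Γ V E) = (α.comp (ZKDg Γ V E).subtype).range := by
    apply le_antisymm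
    · rw [AddSubgroup.closure_le]
      rintro _ ⟨c, hc, rfl⟩
      exact ⟨⟨c, hc⟩, rfl⟩
    · rintro _ ⟨c, rfl⟩
      exact AddSubgroup.subset_closure ⟨c.1, c.2, rfl⟩
  rw [h2]
  refine h1.trans ((rank_fun_le n _).trans ?_)
  have hn : (n : Cardinal) = 3 ^ (r * D) := by
    have h3 : n = 3 ^ (r * D) := by
      change Fintype.card (Fin r × Fin D → Fin 3) = _
      simp
    rw [h3]
    push_cast
    rfl
  rw [hn]
  gcongr
  refine (rank_prod_le _ _).trans ?_
  rw [Module.rank_self]
  refine add_le_add le_rfl ((rank_pi_le r _).trans ?_)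
  exact Finset.sum_le_sum fun i _ => rank_Fx K (E i)

/-- **Cycles over a number field generate groups of finite rank.** -/
theorem finSpanAll (K : Type) [Field K] [NumberField K] [Algebra K Qb] (Γ : Grid)
    (h : AllDim Γ) : FinSpanAll K Γ := by
  intro r E hE D V hV Y e L _ _ u K' _ _ l ξ hξ
  have hE' : ∀ i, ((E i)⁄Qb).IsElliptic := fun i =>
    inferInstanceAs ((E i).map (algebraMap K Qb)).IsElliptic
  have hV' : ∀ i, ((V i)⁄Qb).IsElliptic := fun i =>
    inferInstanceAs ((V i).map (algebraMap K Qb)).IsElliptic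
  let α : ((Matrix (Fin r) (Fin D) ℤ × Pts (fun i => (E i)⁄Qb)) →₀ ℤ) →+
      CH (fun i => (E i)⁄Qb) Y (e + D) :=
    Finsupp.liftAddHom fun p => zmultiplesHom _ (cl l (e + D) ξ u p.1 p.2)
  have hα : ∀ c, α c = c.sum fun p n => n • cl l (e + D) ξ u p.1 p.2 := fun c => rfl
  refine rank_ZKD K Γ V E α fun c hc h1 h2 => ?_
  have h3 := h r (fun i => (E i)⁄Qb) hE' D (fun a => (V a)⁄Qb) hV' Y e L u K' l ξ hξ
    c.support (fun p => c p.1) (fun p => p.1.1) (fun p => p.1.2)
    (fun p => (hc.1 p.1 p.2).1) (fun p => (hc.1 p.1 p.2).2)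
    (tests_deg _ _ _ _ fun x hx hM => ?_)
    (tests_pt _ _ _ _ _ fun x hx hM i => ?_)
  · rw [Finset.sum_coe_sort c.support fun p => c p • cl l (e + D) ξ u p.1 p.2] at h3
    exact h3
  · rw [Finset.sum_coe_sort c.support fun p => c p * ((mt x).transpose * p.1).det ^ 2]
    exact h1 x hx hM
  · rw [Finset.sum_coe_sort c.support fun p => (c p * ((mt x).transpose * p.1).det) •
      bdet ((E i)⁄Qb) (mt x) (Pi.single i 1) p.1 p.2]
    have h4 := h2 x hx hM i
    rw [Finsupp.sum] at h4
    rw [h4]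
    exact IsOfFinAddOrder.zero

end Pool.Agent.LibAC34
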