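import Pool.Agent.LibAC34.Defs
import Pool.Agent.LibGG.Stmt

/-!
Cycles of all dimensions on `A × Y`, `A` a product of elliptic curves, generated by the translates of
the abelian subvarieties of `A`: the statement.
-/

open WeierstrassCurve Pool.Agent.LibBH2 Pool.Agent.LibIG50 Pool.Agent.LibCHd Pool.Agent.LibGG
open scoped Classical

namespace Pool.Agent.LibAC34

variable {k : Type} [Field k] {D r : ℕ}

/-- the entries of the integral matrix `N` which do not belong to equal curves are zero; such a matrix
`N` defines a homomorphism from `B = V 1 × ... × V D` to `A = W 1 × ... × W r`, and its transpose a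
homomorphism from `A` to `B` -/
def Mat (V : Fin D → WeierstrassCurve k) (W : Fin r → WeierstrassCurve k)
    (N : Matrix (Fin r) (Fin D) ℤ) : Prop :=
  ∀ i a, V a ≠ W i → N i a = 0

/-- the matrix `(N | z)`: the column `z` is added to the matrix `N` -/
def bd (N : Matrix (Fin r) (Fin D) ℤ) (z : Fin r → ℤ) : Matrix (Fin r) (Fin D ⊕ Unit) ℤ :=
  Matrix.fromCols N (Matrix.replicateCol Unit z)

/-- The point `det ((M | z)ᵀ (N | g)) = ∑ i, det ((M | z)ᵀ (N | e i)) • g i` of the curve `E`, for a
point `g` of `A = W 1 × ... × W r`, where `e i` is the `i`-th unit vector (the sum is over the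
indices `i` with `W i = E`). -/
noncomputable def bdet {W : Fin r → WeierstrassCurve k} (E : WeierstrassCurve k)
    (M : Matrix (Fin r) (Fin D) ℤ) (z : Fin r → ℤ) (N : Matrix (Fin r) (Fin D) ℤ) (g : Pts W) :
    E.toAffine.Point :=
  ∑ i, ((bd M z).transpose * bd N (Pi.single i 1)).det • trk (W i) E (g i)

/-- **Injectivity for cycles of all dimensions.** Let `A = W 1 × ... × W r` and `B = V 1 × ... × V D`
be products of elliptic curves over `Qb`, let `Y` be projective and let `Z` be a cycle on `A × Y`: the
cycle of the point `u` with coordinates in the function field `L` of dimension `e`. Let `ξ` be the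
generic point of `B`, with coordinates in the function field `K` of `B × Z` (every such `K` is allowed).
The class `cl l (e + D) ξ u N g` in `CH_{e + D} (A × Y)` is the one of the cycle `(N_* B + g) * Z`, the
push-forward of `B × Z` under the map `(ξ, u) ↦ N ξ + g + u`; here `N_* B + g` is a multiple of a
translate of an abelian subvariety of `A`.

For finitely many integral matrices `N j` and points `g j` of `A` with components in the groups `Γ` and
integers `m j` let `c = ∑ j, m j • (N j_* B + g j)`, a cycle on `A` of dimension `D`. For a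
homomorphism `Mᵀ : A → B` with kernel `ker Mᵀ` (of codimension `D` if it is surjective) the number
`∑ j, m j * det (Mᵀ N j) ^ 2` is the degree of the zero-cycle `c · ker Mᵀ`, and the point
`∑ j, m j * det (Mᵀ N j) • det ((M | z)ᵀ (N j | g j))` is the sum of the image of this zero-cycle
under the homomorphism `zᵀ : A → E`. If the first ones are `0` (`c` is homologically trivial) and the
second ones are torsion (the Abel-Jacobi image of `c` is torsion) then `c * Z` is torsion in the Chow
group `CH_{e + D} (A × Y)`. -/
def AllDim (Γ : Grid) : Prop :=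
  ∀ (r : ℕ) (W : Fin r → WeierstrassCurve Qb), (∀ i, (W i).IsElliptic) →
    ∀ (D : ℕ) (V : Fin D → WeierstrassCurve Qb), (∀ a, (V a).IsElliptic) →
    ∀ (Y : Prj Qb) (e : ℕ) (L : Type) [Field L] [Algebra Qb L] (u : Pnt W Y L)
      (K : Type) [Field K] [Algebra Qb K] (l : L →ₐ[Qb] K) (ξ : ∀ a, ((V a)⁄K).toAffine.Point),
    IsGen e l V ξ →
    ∀ (J : Type) [Fintype J] (m : J → ℤ) (N : J → Matrix (Fin r) (Fin D) ℤ) (g : J → Pts W),
      (∀ j, Mat V W (N j)) → (∀ j i, g j i ∈ Γ (W i)) →
      (∀ M, Mat V W M → ∑ j, m j * (M.transpose * N j).det ^ 2 = 0) →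
      (∀ M, Mat V W M → ∀ (E : WeierstrassCurve Qb) (z : Fin r → ℤ), (∀ i, W i ≠ E → z i = 0) →
        IsOfFinAddOrder (∑ j, (m j * (M.transpose * N j).det) • bdet E M z (N j) (g j))) →
      IsOfFinAddOrder (∑ j, m j • cl l (e + D) ξ u (N j) (g j))

end Pool.Agent.LibAC34
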