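import Pool.Agent.LibAC34.B6
import Pool.Agent.LibAC34.C1

/-!
[AC34 G] the four rules. Proofs. `G_par`: `exists_ph` and `par` (`FunF k (e + D) K`, `D = D' + 1`
because `a : Fin D`). `G_trans`: replace `ξ a` by `ξ a + mp M₀.val b`: `gen1_add`
(`FunF.trdeg` of `K`), `cyc_ph`. `G_tr`: `b = constPt M₀ c`; the point `lin` of
`Function.update ξ a (ξ a + constPt K c)` for the matrix `N` is `lin` of `ξ` for the translate
`g + N_a c`: compare the components (`tr_add`, `constPt_tr`, `Finset.sum_update_of_mem`).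
`G_act`: `trl g (lin l ξ N 0 u) = lin l ξ N g u` (`constPt 0 = 0`).
`G_col`: `b = ` the point `ξ' b` transported along `V a = V b`.
-/

open WeierstrassCurve Pool.Agent.LibBH2 Pool.Agent.LibIG50 Pool.Agent.LibCHd
open scoped Classical

namespace Pool.Agent.LibAC34

variable {k : Type} [Field k] [CharZero k] [IsAlgClosed k] {r : ℕ}
  {W : Fin r → WeierstrassCurve k} {Y : Prj k}
  {L K : Type} [Field L] [Algebra k L] [Field K] [Algebra k K] {l : L →ₐ[k] K} {D : ℕ}
  {V : Fin D → WeierstrassCurve k} {ξ : ∀ a, ((V a)⁄K).toAffine.Point}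

omit [CharZero k] [IsAlgClosed k] in
private theorem G_const_some (F : Type) [Field F] [Algebra k F] (E : WeierstrassCurve k) {x y : k}
    (h : E.toAffine.Nonsingular x y) :
    (constPt F (.some x y h : E.toAffine.Point) : (E⁄F).toAffine.Point) =
      .some (algebraMap k F x) (algebraMap k F y)
        ((WeierstrassCurve.Affine.map_nonsingular E (algebraMap k F).injective x y).2 h) := rfl

omit [CharZero k] [IsAlgClosed k] in
private theorem G_const_add (F : Type) [Field F] [Algebra k F] {E : WeierstrassCurve k}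
    (p q : E.toAffine.Point) :
    (constPt F (p + q) : (E⁄F).toAffine.Point) = constPt F p + constPt F q := by
  rcases p with _ | ⟨x₁, y₁, h₁⟩ <;> rcases q with _ | ⟨x₂, y₂, h₂⟩
  · rfl
  · rfl
  · rfl
  · have n₁ := (WeierstrassCurve.Affine.map_nonsingular E (algebraMap k F).injective x₁ y₁).2 h₁
    have n₂ := (WeierstrassCurve.Affine.map_nonsingular E (algebraMap k F).injective x₂ y₂).2 h₂
    by_cases hxy : x₁ = x₂ ∧ y₁ = E.toAffine.negY x₂ y₂
    · rw [Affine.Point.add_of_Y_eq hxy.left hxy.right]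
      have hy : algebraMap k F y₁ =
          (E⁄F).toAffine.negY (algebraMap k F x₂) (algebraMap k F y₂) := by
        rw [hxy.right]; exact (Affine.map_negY (W' := E) (algebraMap k F) x₂ y₂).symm
      exact (Affine.Point.add_of_Y_eq (W := (E⁄F).toAffine) (h₁ := n₁)
        (h₂ := n₂) (congr_arg _ hxy.left) hy).symm
    · have hxy' : ¬(algebraMap k F x₁ = algebraMap k F x₂ ∧
          algebraMap k F y₁ = (E⁄F).toAffine.negY (algebraMap k F x₂) (algebraMap k F y₂)) := by
        rintro ⟨h1, h2⟩
        apply hxy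
        refine ⟨(algebraMap k F).injective h1, (algebraMap k F).injective ?_⟩
        rw [h2]
        exact Affine.map_negY (W' := E) (algebraMap k F) x₂ y₂
      rw [Affine.Point.add_some hxy]
      refine Eq.trans ?_ (Affine.Point.add_some (W := (E⁄F).toAffine) (h₁ := n₁)
        (h₂ := n₂) hxy').symm
      have hs : (E⁄F).toAffine.slope (algebraMap k F x₁) (algebraMap k F x₂) (algebraMap k F y₁)
          (algebraMap k F y₂) = algebraMap k F (E.toAffine.slope x₁ x₂ y₁ y₂) :=
        Affine.map_slope (W := E) (algebraMap k F) x₁ x₂ y₁ y₂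
      rw [G_const_some]
      congr 1
      · rw [hs]
        exact (Affine.map_addX (W' := E) (algebraMap k F) x₁ x₂ _).symm
      · rw [hs]
        exact (Affine.map_addY (W' := E) (algebraMap k F) x₁ y₁ x₂ _).symm

omit [CharZero k] [IsAlgClosed k] in
private theorem G_const_zsmul (F : Type) [Field F] [Algebra k F] {E : WeierstrassCurve k} (n : ℤ)
    (p : E.toAffine.Point) : (constPt F (n • p) : (E⁄F).toAffine.Point) = n • constPt F p :=
  map_zsmul (AddMonoidHom.mk' (constPt F) (G_const_add F) : E.toAffine.Point →+ _) n p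

omit [CharZero k] [IsAlgClosed k] in
private theorem G_dim {e : ℕ} (h : IsGen e l V ξ) (a : Fin D) : ∃ d, e + D = d + 1 ∧
    FunF k (d + 1) K ∧ Algebra.trdeg k K = (d + 1 : ℕ) := by
  have hD : 0 < D := a.pos
  refine ⟨e + D - 1, by omega, ?_, ?_⟩
  · rw [show e + D - 1 + 1 = e + D by omega]
    exact h.dim
  · rw [show e + D - 1 + 1 = e + D by omega]
    exact h.dim.trdeg

theorem G_par (hW : ∀ n, (W n).IsElliptic) (hV : ∀ a, (V a).IsElliptic) {e : ℕ}
    (h : IsGen e l V ξ) (u : Pnt W Y L) (N : Matrix (Fin r) (Fin D) ℤ) (g : Pts W) (a : Fin D)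
    (v w : Fin r → ℤ) :
    cl l (e + D) ξ u (N.updateCol a (v + w)) g + cl l (e + D) ξ u (N.updateCol a (v - w)) g =
      (2 : ℤ) • cl l (e + D) ξ u (N.updateCol a v) g +
        (2 : ℤ) • cl l (e + D) ξ u (N.updateCol a w) g := by
  obtain ⟨d, hd, hK, -⟩ := G_dim h a
  obtain ⟨M₀, l', ξ', hl, hξ, hG, H⟩ := exists_ph h a
  obtain ⟨T, hT⟩ := H r W Y N g u
  haveI := hV a
  have h1 := par hW hG hK T v w
  have e1 : ∀ v : Fin r → ℤ, lin l ξ (N.updateCol a v) g u = ph M₀.val (V a) (ξ a) T v := by
    intro v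
    rw [← hT (ξ a) v, Function.update_eq_self]
  rw [← e1, ← e1, ← e1, ← e1, ← hd] at h1
  have h2 := (QuotientAddGroup.eq_zero_iff _).2 h1
  have h3 : (QuotientAddGroup.mk' (RatEq W Y (e + D))) (cyc (lin l ξ (N.updateCol a (v + w)) g u) +
      cyc (lin l ξ (N.updateCol a (v - w)) g u) - 2 • cyc (lin l ξ (N.updateCol a v) g u) -
      2 • cyc (lin l ξ (N.updateCol a w) g u)) = 0 := h2
  rw [map_sub, map_sub, map_add, map_nsmul, map_nsmul] at h3
  have h4 : cl l (e + D) ξ u (N.updateCol a (v + w)) g +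
      cl l (e + D) ξ u (N.updateCol a (v - w)) g - 2 • cl l (e + D) ξ u (N.updateCol a v) g -
      2 • cl l (e + D) ξ u (N.updateCol a w) g = 0 := h3
  rw [← sub_eq_zero, ← h4]
  abel

/-- the cycle does not change if a generic point is translated by a point over the other ones -/
theorem G_trans {e : ℕ} (h : IsGen e l V ξ) (u : Pnt W Y L) (N : Matrix (Fin r) (Fin D) ℤ)
    (g : Pts W) (a : Fin D) :
    (∀ c : (V a).toAffine.Point,
      cyc (lin l (Function.update ξ a (ξ a + constPt K c)) N g u) = cyc (lin l ξ N g u)) ∧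
    ∀ b, b ≠ a → ∀ hb : V b = V a,
      cyc (lin l (Function.update ξ a (ξ a + tr (V b) (V a) (ξ b))) N g u) =
        cyc (lin l ξ N g u) := by
  obtain ⟨d, hd, hK, hK'⟩ := G_dim h a
  obtain ⟨M₀, l', ξ', hl, hξ, hG, H⟩ := exists_ph h a
  obtain ⟨T, hT⟩ := H r W Y N g u
  have e1 : ∀ η, lin l (Function.update ξ a η) N g u =
      ph M₀.val (V a) η T (fun n => N n a) := by
    intro η
    have h1 := hT η (fun n => N n a)
    rwa [show N.updateCol a (fun n => N n a) = N from Matrix.updateCol_eq_self N a] at h1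
  have e0 : lin l ξ N g u = ph M₀.val (V a) (ξ a) T (fun n => N n a) := by
    rw [← e1, Function.update_eq_self]
  constructor
  · intro c
    have h2 := gen1_add hG hK' (constPt M₀ c)
    rw [mp_constPt] at h2
    rw [e1, e0]
    exact cyc_ph hG h2 T _
  · intro b hba hb
    have h2 := gen1_add hG hK' (tr (V b) (V a) (ξ' b hba))
    rw [mp_tr, hξ] at h2
    rw [e1, e0]
    exact cyc_ph hG h2 T _

omit [CharZero k] [IsAlgClosed k] in
private theorem G_upd (u : Pnt W Y L) (N : Matrix (Fin r) (Fin D) ℤ) (g : Pts W) (a : Fin D)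
    (η : ((V a)⁄K).toAffine.Point) (n : Fin r) :
    (lin l (Function.update ξ a (ξ a + η)) N g u).z n =
      N n a • tr (V a) (W n) η + (lin l ξ N g u).z n := by
  simp only [lin, trl, Pnt.add, Pnt.map]
  rw [← Finset.add_sum_erase Finset.univ (fun b => N n b • tr (V b) (W n)
      (Function.update ξ a (ξ a + η) b)) (Finset.mem_univ a),
    ← Finset.add_sum_erase Finset.univ (fun b => N n b • tr (V b) (W n) (ξ b))
      (Finset.mem_univ a)]
  have e2 : ∀ b ∈ Finset.univ.erase a, N n b • tr (V b) (W n)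
      (Function.update ξ a (ξ a + η) b) = N n b • tr (V b) (W n) (ξ b) := by
    intro b hb
    rw [Function.update_of_ne (Finset.ne_of_mem_erase hb)]
  rw [Finset.sum_congr rfl e2, Function.update_self, tr_add, smul_add]
  abel

omit [CharZero k] [IsAlgClosed k] in
private theorem G_trtr {F : Type} [Field F] [Algebra k F] {A B C : WeierstrassCurve k} (h : B = A)
    (p : (B⁄F).toAffine.Point) : tr A C (tr B A p) = tr B C p := by
  subst h
  rw [tr_self]

theorem G_col {e : ℕ} (h : IsGen e l V ξ) (u : Pnt W Y L) (N : Matrix (Fin r) (Fin D) ℤ)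
    (g : Pts W) (a b : Fin D) (hab : a ≠ b) (hV : V a = V b) :
    cl l (e + D) ξ u (N.updateCol b fun n => N n b + N n a) g = cl l (e + D) ξ u N g := by
  have h1 : lin l ξ (N.updateCol b fun n => N n b + N n a) g u =
      lin l (Function.update ξ a (ξ a + tr (V b) (V a) (ξ b))) N g u := by
    apply pnt_ext
    · funext n
      rw [G_upd, G_trtr hV.symm]
      simp only [lin, trl, Pnt.add, Pnt.map]
      rw [← Finset.add_sum_erase Finset.univ (fun c => (N.updateCol b fun n => N n b + N n a) n c •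
          tr (V c) (W n) (ξ c)) (Finset.mem_univ b),
        ← Finset.add_sum_erase Finset.univ (fun c => N n c • tr (V c) (W n) (ξ c))
          (Finset.mem_univ b)]
      have e2 : ∀ c ∈ Finset.univ.erase b, (N.updateCol b fun n => N n b + N n a) n c •
          tr (V c) (W n) (ξ c) = N n c • tr (V c) (W n) (ξ c) := by
        intro c hc
        rw [Matrix.updateCol_ne (Finset.ne_of_mem_erase hc)]
      rw [Finset.sum_congr rfl e2, Matrix.updateCol_self, add_smul]
      abel
    · rfl
  unfold cl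
  rw [h1, (G_trans h u N g a).2 b hab.symm hV.symm]

theorem G_tr {e : ℕ} (h : IsGen e l V ξ) (u : Pnt W Y L) (N : Matrix (Fin r) (Fin D) ℤ)
    (g : Pts W) (a : Fin D) (c : (V a).toAffine.Point) :
    cl l (e + D) ξ u N (g + fun n => N n a • trk (V a) (W n) c) = cl l (e + D) ξ u N g := by
  have h1 : lin l ξ N (g + fun n => N n a • trk (V a) (W n) c) u =
      lin l (Function.update ξ a (ξ a + constPt K c)) N g u := by
    apply pnt_ext
    · funext n
      rw [G_upd]
      simp only [lin, trl, Pnt.add, Pnt.map, Pi.add_apply]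
      rw [G_const_add, G_const_zsmul, constPt_tr]
      abel
    · rfl
  unfold cl
  rw [h1, (G_trans h u N g a).1 c]

omit [CharZero k] [IsAlgClosed k] in
/-- the action of zero-cycles -/
theorem G_act (m : ℕ) (u : Pnt W Y L) (N : Matrix (Fin r) (Fin D) ℤ) (c : Pts W →₀ ℤ) :
    act m c (lin l ξ N 0 u) = c.sum fun g n => n • cl l m ξ u N g := by
  have h1 : ∀ g : Pts W, trl g (lin l ξ N 0 u) = lin l ξ N g u := by
    intro g
    apply pnt_ext
    · funext n
      simp only [lin, trl, Pnt.add, Pnt.map, Pi.zero_apply]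
      have e0 : (constPt K (0 : (W n).toAffine.Point) : ((W n)⁄K).toAffine.Point) = 0 := rfl
      rw [e0, zero_add]
    · rfl
  unfold act cl
  change (QuotientAddGroup.mk' (RatEq W Y m)) (c.sum fun a n => n • cyc (trl a (lin l ξ N 0 u))) = _
  rw [Finsupp.sum, map_sum, Finsupp.sum]
  refine Finset.sum_congr rfl fun g _ => ?_
  rw [h1, map_zsmul]
  rfl

end Pool.Agent.LibAC34
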