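import Pool.Agent.LibAC34.HDefs
import Pool.Agent.LibAC34.B6

/-!
The parallelogram law for homomorphisms.
-/

open WeierstrassCurve Pool.Agent.LibBH2 Pool.Agent.LibIG50 Pool.Agent.LibCHd
open scoped Classical

namespace Pool.Agent.LibAC34

section aux

variable {k : Type} [Field k] {r : ℕ} {W : Fin r → WeierstrassCurve k} {Y : Prj k}

theorem HB_form {M₀ M K : Type} [Field M₀] [Algebra k M₀] [Field M]
    [Algebra k M] [Field K] [Algebra k K] (i : M₀ →ₐ[k] M) (j : M →ₐ[k] K)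
    (T : Pnt W Y M₀) (a : ∀ n, ((W n)⁄K).toAffine.Point) (b : ∀ n, ((W n)⁄M).toAffine.Point) :
    Pnt.add a ((Pnt.add b (T.map i)).map j) =
      Pnt.add (fun n => a n + mp j (b n)) (T.map (j.comp i)) := by
  refine B6_pnt_ext ?_ rfl
  funext n
  change a n + mp j (b n + mp i (T.z n)) = a n + mp j (b n) + mp (j.comp i) (T.z n)
  rw [map_add, B6_mp_comp, add_assoc]

end aux

variable {k : Type} [Field k] [CharZero k] {E : WeierstrassCurve k} [E.IsElliptic] {M K : Type}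
  [Field M] [Algebra k M] [Field K] [Algebra k K] {r : ℕ} {W : Fin r → WeierstrassCurve k}
  {Y : Prj k} {i₁ : KE E →ₐ[k] K} {j : M →ₐ[k] K}

theorem HB_at (hW : ∀ n, (W n).IsElliptic) {d : ℕ} (hM : FunF k d M) {w : Place k K}
    (h : Pl i₁ j w) {ε : M ≃ₐ[k] RF w} (hε : ∀ m, Red w (j m) (ε m)) (t : ∀ n, Hm E (W n))
    (u : Pnt W Y M) :
    FunF k d (RF w) ∧ ∃ q : Pnt W Y (RF w),
      SpV w (Pnt.add (fun n => (t n).f K (mp i₁ (genPt E))) (u.map j)) q ∧ cyc u = cyc q := by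
  refine ⟨hM.congr ε, u.map (ε : M →ₐ[k] RF w), ⟨fun n => ?_, 1, one_ne_zero, fun a => ?_⟩,
    (cyc_map ε u).symm⟩
  · have := hW n
    have h1 : SpR w ((t n).f K (mp i₁ (genPt E)))
        ((t n).f (RF w) (0 : (E⁄(RF w)).toAffine.Point)) := (t n).sp K w _ _ h.sp
    have h2 := SpR_of_triv j w (ε : M →ₐ[k] RF w) hε (u.z n)
    have h3 := SpR_add h1 h2
    rw [map_zero, zero_add] at h3
    exact h3
  · rw [one_mul]
    exact hε (u.y a)

theorem HB_zero [IsAlgClosed k] (hW : ∀ n, (W n).IsElliptic) {d : ℕ} (hM : FunF k d M)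
    (v : Place k K) (hv : SpR v (mp i₁ (genPt E)) 0) (m₀ : M) (hm₀ : v.ord (j m₀) ≠ 0)
    (hF : FunF k d (RF v)) (t : ∀ n, Hm E (W n)) (u : Pnt W Y M) (q : Pnt W Y (RF v))
    (hq : SpV v (Pnt.add (fun n => (t n).f K (mp i₁ (genPt E))) (u.map j)) q) :
    cyc q = 0 := by
  have hφ : v.ord (i₁ (DE E).s) ≠ 0 := by
    obtain ⟨h', hs⟩ := mp_some i₁ (DE E).s _ ((Affine.equation_iff_nonsingular_of_Δ_ne_zero
      (W := E⁄(KE E)) (baseChange_Δ_ne (KE E) E)).1 (gen_equation E))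
    have hs' : mp i₁ (genPt E) = _ := hs
    rcases spR_zero_iff.1 hv with h | h
    · rw [hs'] at h
      exact absurd h (WeierstrassCurve.Affine.Point.some_ne_zero _)
    · rw [hs'] at h
      exact ne_of_lt h
  refine cyc_eq_zero hW funF_KE hM i₁ j (fun n => (t n).f (KE E) (genPt E)) u v (DE E).s hφ m₀
    hm₀ hF q ?_
  have h1 : (fun n => mp i₁ ((t n).f (KE E) (genPt E))) =
      fun n => (t n).f K (mp i₁ (genPt E)) := by
    funext n
    rw [(t n).nat]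
  rw [h1]
  exact hq

theorem HB_off [IsAlgClosed k] (hW : ∀ n, (W n).IsElliptic) {d : ℕ} (hM : FunF k d M)
    {w : Place k K} (h : Pl i₁ j w)
    {v' : Place k K} (hne : v' ≠ w) (hv : SpR v' (mp i₁ (genPt E)) 0) (hF : FunF k d (RF v'))
    (t : ∀ n, Hm E (W n)) (u : Pnt W Y M) (q : Pnt W Y (RF v'))
    (hq : SpV v' (Pnt.add (fun n => (t n).f K (mp i₁ (genPt E))) (u.map j)) q) :
    cyc q = 0 := by
  by_cases htriv : ∀ m, v'.ord (j m) = 0
  · exact absurd (h.uniq v' htriv hv) hne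
  · push Not at htriv
    obtain ⟨m₀, hm₀⟩ := htriv
    exact HB_zero hW hM v' hv m₀ hm₀ hF t u q hq

/-- the parallelogram law -/
theorem parH [IsAlgClosed k] (hW : ∀ n, (W n).IsElliptic) {M₀ : Type} [Field M₀] [Algebra k M₀]
    {i : M₀ →ₐ[k] M} {ξ : (E⁄M).toAffine.Point} (h : Gen1 i E ξ) {d : ℕ}
    (hM : FunF k (d + 1) M) (T : Pnt W Y M₀) (v w : ∀ n, Hm E (W n)) :
    cyc (Pnt.add (fun n => (v n).f M ξ + (w n).f M ξ) (T.map i)) +
      cyc (Pnt.add (fun n => (v n).f M ξ - (w n).f M ξ) (T.map i)) -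
      2 • cyc (Pnt.add (fun n => (v n).f M ξ) (T.map i)) -
      2 • cyc (Pnt.add (fun n => (w n).f M ξ) (T.map i)) ∈ RatEq W Y (d + 1) := by
  obtain ⟨K, _, _, i₁, i₂, i₃, i₄, j₁, j₂, P, Q, hK, hj, c₁, c₂, c₃, c₄, e₁, e₂, e₃, e₄, eQ, eP⟩ :=
    exists_four h hM
  obtain ⟨w₁, p₁⟩ := exists_pl c₁
  obtain ⟨w₂, p₂⟩ := exists_pl c₂
  obtain ⟨w₃, p₃⟩ := exists_pl c₃
  obtain ⟨w₄, p₄⟩ := exists_pl c₄
  obtain ⟨ε₁, hε₁⟩ := exists_res_equiv j₁ w₁ p₁.triv p₁.res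
  obtain ⟨ε₂, hε₂⟩ := exists_res_equiv j₂ w₂ p₂.triv p₂.res
  obtain ⟨ε₃, hε₃⟩ := exists_res_equiv j₁ w₃ p₃.triv p₃.res
  obtain ⟨ε₄, hε₄⟩ := exists_res_equiv j₂ w₄ p₄.triv p₄.res
  have hji : j₂.comp i = j₁.comp i := AlgHom.ext hj
  have mQ : ∀ (n : Fin r) (t : Hm E (W n)), mp j₁ (t.f M ξ) = t.f K Q := fun n t => by
    rw [← t.nat, eQ]
  have mP : ∀ (n : Fin r) (t : Hm E (W n)), mp j₂ (t.f M ξ) = t.f K P := fun n t => by
    rw [← t.nat, eP]
  -- the point in its four forms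
  set u : Pnt W Y K := Pnt.add (fun n => (v n).f K P + (w n).f K Q) (T.map (j₁.comp i)) with hu
  have u₁ : u = Pnt.add (fun n => (v n).f K (mp i₁ (genPt E)))
      ((Pnt.add (fun n => (w n).f M ξ) (T.map i)).map j₁) := by
    rw [HB_form, e₁]
    simp only [mQ]
    rfl
  have u₂ : u = Pnt.add (fun n => (w n).f K (mp i₂ (genPt E)))
      ((Pnt.add (fun n => (v n).f M ξ) (T.map i)).map j₂) := by
    rw [HB_form, e₂, hji, hu]
    simp only [mP]
    congr 1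
    funext n
    rw [add_comm]
  have u₃ : u = Pnt.add (fun n => (v n).f K (mp i₃ (genPt E)))
      ((Pnt.add (fun n => (v n).f M ξ + (w n).f M ξ) (T.map i)).map j₁) := by
    rw [HB_form, e₃, hu]
    simp only [map_add, mQ]
    congr 1
    funext n
    rw [map_sub]
    abel
  have u₄ : u = Pnt.add (fun n => (w n).f K (mp i₄ (genPt E)))
      ((Pnt.add (fun n => (v n).f M ξ - (w n).f M ξ) (T.map i)).map j₂) := by
    rw [HB_form, e₄, hji, hu]
    simp only [map_sub, mP]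
    congr 1
    funext n
    rw [map_add]
    abel
  -- the orders
  have hQc : ∀ n, hc Q n = j₁ (hc ξ n) := fun n => by rw [← eQ, hc_mp]
  have hPc : ∀ n, hc P n = j₂ (hc ξ n) := fun n => by rw [← eP, hc_mp]
  have o₁ : w₁.ord (hc P 0) = -2 := by rw [← e₁]; exact p₁.ordx
  have o₂ : w₂.ord (hc Q 0) = -2 := by rw [← e₂]; exact p₂.ordx
  have o₃ : w₃.ord (hc (P - Q) 0) = -2 := by rw [← e₃]; exact p₃.ordx
  have o₄ : w₄.ord (hc (P + Q) 0) = -2 := by rw [← e₄]; exact p₄.ordx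
  have two : ∀ {F : Type} [Field F] [Algebra k F] (ε : M →ₐ[k] F), (2 : ℤ) • mp ε ξ ≠ 0 := by
    intro F _ _ ε h0
    rw [← map_zsmul] at h0
    exact two_ne h (B6_mp_inj ε h0)
  set g : K := hc P 0 - hc Q 0 with hg
  have g₁ : w₁.ord g = -2 := by
    rw [hg, ord_far (by rw [o₁]; norm_num) (Or.inr (by rw [hQc, p₁.triv])), o₁]
  have g₂ : w₂.ord g = -2 := by
    have h1 : g = -(hc Q 0 - hc P 0) := by rw [hg]; ring
    rw [h1, Place.ord_neg, ord_far (by rw [o₂]; norm_num) (Or.inr (by rw [hPc, p₂.triv])), o₂]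
  have s₃ : SpR w₃ (P - Q) 0 := by rw [← e₃]; exact p₃.sp
  have s₄ : SpR w₄ (P + Q) 0 := by rw [← e₄]; exact p₄.sp
  have q₃ : SpR w₃ Q (mp (ε₃ : M →ₐ[k] RF w₃) ξ) := by
    rw [← eQ]; exact SpR_of_triv j₁ w₃ _ hε₃ ξ
  have q₄ : SpR w₄ P (mp (ε₄ : M →ₐ[k] RF w₄) ξ) := by
    rw [← eP]; exact SpR_of_triv j₂ w₄ _ hε₄ ξ
  have g₃ : w₃.ord g = 1 := by
    have h1 := ord_near s₃ q₃ (two _)
    rw [sub_add_cancel, o₃] at h1
    rw [hg]
    omega
  have g₄ : w₄.ord g = 1 := by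
    have h0 : (2 : ℤ) • -(mp (ε₄ : M →ₐ[k] RF w₄) ξ) ≠ 0 := by
      rw [smul_neg]
      exact neg_ne_zero.2 (two _)
    have h1 := ord_near s₄ (spR_neg q₄) h0
    have h2 : P + Q + -P = Q := by abel
    have h3 : g = -(hc Q 0 - hc P 0) := by rw [hg]; ring
    rw [h2, B6_hc_neg, o₄] at h1
    rw [h3, Place.ord_neg]
    omega
  have n₁₂ : w₁ ≠ w₂ := by
    intro h0
    have h1 := o₁
    rw [h0, hPc, p₂.triv] at h1
    norm_num at h1
  have n₁₃ : w₁ ≠ w₃ := by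
    intro h0
    rw [h0, g₃] at g₁
    norm_num at g₁
  have n₁₄ : w₁ ≠ w₄ := by
    intro h0
    rw [h0, g₄] at g₁
    norm_num at g₁
  have n₂₃ : w₂ ≠ w₃ := by
    intro h0
    rw [h0, g₃] at g₂
    norm_num at g₂
  have n₂₄ : w₂ ≠ w₄ := by
    intro h0
    rw [h0, g₄] at g₂
    norm_num at g₂
  have n₃₄ : w₃ ≠ w₄ := by
    intro h0
    have h1 : SpR w₃ (P + Q) 0 := by rw [h0]; exact s₄
    have h2 := SpR_add h1 (spR_neg s₃)
    have h3 := SpR_add q₃ q₃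
    have h4 : P + Q + -(P - Q) = Q + Q := by abel
    rw [h4] at h2
    have h5 := SpR_unique h3 h2
    rw [neg_zero, add_zero, ← two_zsmul] at h5
    exact two _ h5
  have hg0 : g ≠ 0 := by
    intro h0
    rw [h0, Place.ord_zero] at g₁
    norm_num at g₁
  apply AddSubgroup.subset_closure
  refine ⟨K, inferInstance, inferInstance, u, g, {w₁, w₂, w₃, w₄},
    fun x => if x = w₁ then cyc (Pnt.add (fun n => (w n).f M ξ) (T.map i)) else
      if x = w₂ then cyc (Pnt.add (fun n => (v n).f M ξ) (T.map i)) else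
      if x = w₃ then cyc (Pnt.add (fun n => (v n).f M ξ + (w n).f M ξ) (T.map i)) else
        cyc (Pnt.add (fun n => (v n).f M ξ - (w n).f M ξ) (T.map i)), hK, hg0, ?_, ?_, ?_⟩
  · intro x hx
    simp only [Finset.mem_insert, Finset.mem_singleton] at hx
    beta_reduce
    rcases hx with rfl | rfl | rfl | rfl
    · rw [if_pos rfl, u₁]
      exact HB_at hW hM p₁ hε₁ _ _
    · rw [if_neg n₁₂.symm, if_pos rfl, u₂]
      exact HB_at hW hM p₂ hε₂ _ _
    · rw [if_neg n₁₃.symm, if_neg n₂₃.symm, if_pos rfl, u₃]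
      exact HB_at hW hM p₃ hε₃ _ _
    · rw [if_neg n₁₄.symm, if_neg n₂₄.symm, if_neg n₃₄.symm, u₄]
      exact HB_at hW hM p₄ hε₄ _ _
  · intro v' hv' hord hF q hq
    simp only [Finset.mem_insert, Finset.mem_singleton, not_or] at hv'
    obtain ⟨m₁, m₂, m₃, m₄⟩ := hv'
    rcases classify hord with hs | hs | hs | hs
    · rw [u₁] at hq
      exact HB_off hW hM p₁ m₁ (by rw [e₁]; exact hs) hF _ _ q hq
    · rw [u₂] at hq
      exact HB_off hW hM p₂ m₂ (by rw [e₂]; exact hs) hF _ _ q hq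
    · rw [u₃] at hq
      exact HB_off hW hM p₃ m₃ (by rw [e₃]; exact hs) hF _ _ q hq
    · rw [u₄] at hq
      exact HB_off hW hM p₄ m₄ (by rw [e₄]; exact hs) hF _ _ q hq
  · rw [Finset.sum_insert (by simp [n₁₂, n₁₃, n₁₄]), Finset.sum_insert (by simp [n₂₃, n₂₄]),
      Finset.sum_insert (by simp [n₃₄]), Finset.sum_singleton, g₁, g₂, g₃, g₄]
    beta_reduce
    rw [if_pos rfl, if_neg n₁₂.symm, if_pos rfl, if_neg n₁₃.symm, if_neg n₂₃.symm, if_pos rfl,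
      if_neg n₁₄.symm, if_neg n₂₄.symm, if_neg n₃₄.symm]
    module

end Pool.Agent.LibAC34
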