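import Pool.Agent.LibAC34.TrApi

/-!
Homomorphisms of elliptic curves, images of translates of abelian subvarieties.
-/

open WeierstrassCurve Pool.Agent.LibBH2 Pool.Agent.LibIG50 Pool.Agent.LibCHd
open scoped Classical

namespace Pool.Agent.LibAC34

variable {k : Type} [Field k]

/-- A homomorphism from the curve `V` to the curve `W` over `k`: homomorphisms `V(F) → W(F)` of the
groups of points for all fields `F` over `k`, compatible with the embeddings of fields over `k` and
with the specialisation of points at places. (Every isogeny is such a homomorphism.) -/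
structure Hm (V W : WeierstrassCurve k) where
  /-- the homomorphism for the field `F` -/
  f : ∀ (F : Type) [Field F] [Algebra k F], (V⁄F).toAffine.Point →+ (W⁄F).toAffine.Point
  nat : ∀ (F G : Type) [Field F] [Algebra k F] [Field G] [Algebra k G] (σ : F →ₐ[k] G)
    (P : (V⁄F).toAffine.Point), f G (mp σ P) = mp σ (f F P)
  sp : ∀ (K : Type) [Field K] [Algebra k K] (v : Place k K) (P : (V⁄K).toAffine.Point)
    (p : (V⁄(RF v)).toAffine.Point), SpR v P p → SpR v (f K P) (f (RF v) p)

/-- the identity -/
noncomputable def Hm.id (V : WeierstrassCurve k) : Hm V V where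
  f F := AddMonoidHom.id _
  nat F G _ _ _ _ σ P := rfl
  sp K _ _ v P p h := h

/-- The point `φ (N ξ + g) + u` of `W 1 × ... × W r × Y`, where `u` is a point with coordinates in `L`:
its component in the curve `W i` is the image under `φ i : W' i → W i` of the point
`g i + ∑ N i a ξ a`, plus the component of `u`, the sum being over the indices `a` with `V a = W' i`,
and its component in `Y` is that of `u`. -/
noncomputable def linH {L K : Type} [Field L] [Algebra k L] [Field K] [Algebra k K]
    (l : L →ₐ[k] K) {D r : ℕ} {V : Fin D → WeierstrassCurve k} {W' W : Fin r → WeierstrassCurve k}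
    (φ : ∀ i, Hm (W' i) (W i)) {Y : Prj k} (ξ : ∀ a, ((V a)⁄K).toAffine.Point)
    (N : Matrix (Fin r) (Fin D) ℤ) (g : Pts W') (u : Pnt W Y L) : Pnt W Y K :=
  Pnt.add (fun i => (φ i).f K (constPt K (g i) + ∑ a, N i a • tr (V a) (W' i) (ξ a))) (u.map l)

/-- the class of the cycle of the point `φ (N ξ + g) + u` -/
noncomputable def clH {L K : Type} [Field L] [Algebra k L] [Field K] [Algebra k K]
    (l : L →ₐ[k] K) (m : ℕ) {D r : ℕ} {V : Fin D → WeierstrassCurve k}
    {W' W : Fin r → WeierstrassCurve k} (φ : ∀ i, Hm (W' i) (W i)) {Y : Prj k}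
    (ξ : ∀ a, ((V a)⁄K).toAffine.Point) (u : Pnt W Y L) (N : Matrix (Fin r) (Fin D) ℤ)
    (g : Pts W') : CH W Y m :=
  QuotientAddGroup.mk (cyc (linH l φ ξ N g u))

/-- for the identities nothing changes -/
theorem linH_id {L K : Type} [Field L] [Algebra k L] [Field K] [Algebra k K]
    (l : L →ₐ[k] K) {D r : ℕ} {V : Fin D → WeierstrassCurve k} {W : Fin r → WeierstrassCurve k}
    {Y : Prj k} (ξ : ∀ a, ((V a)⁄K).toAffine.Point)
    (N : Matrix (Fin r) (Fin D) ℤ) (g : Pts W) (u : Pnt W Y L) :
    linH l (fun i => Hm.id (W i)) ξ N g u = lin l ξ N g u := by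
  simp only [linH, lin, Hm.id, AddMonoidHom.id_apply, trl, Pnt.add, add_assoc]

end Pool.Agent.LibAC34
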