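import Pool.Agent.LibAC34.HB
import Pool.Agent.LibAC34.G

/-!
The rules for the images under homomorphisms.
-/

open WeierstrassCurve Pool.Agent.LibBH2 Pool.Agent.LibIG50 Pool.Agent.LibCHd
open scoped Classical

namespace Pool.Agent.LibAC34

variable {k : Type} [Field k]

/-- multiplication by `n` and the homomorphism `φ`, on the curve `V` -/
noncomputable def Hm.col {W' W : WeierstrassCurve k} [W'.IsElliptic] (φ : Hm W' W)
    (V : WeierstrassCurve k) (n : ℤ) : Hm V W where
  f F _ _ := AddMonoidHom.mk' (fun P => φ.f F (n • tr V W' P)) fun P Q => by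
    rw [tr_add, smul_add, map_add]
  nat F G _ _ _ _ σ P := by
    change φ.f G (n • tr V W' (mp σ P)) = mp σ (φ.f F (n • tr V W' P))
    rw [← φ.nat, map_zsmul (mp σ), mp_tr]
  sp K _ _ v P p h := φ.sp K v _ _ (spR_zsmul n (spR_tr W' h))

/-- a point over `k` -/
def un {W : WeierstrassCurve k} : (W⁄k).toAffine.Point → W.toAffine.Point
  | .zero => .zero
  | .some x y h => .some x y h

theorem constPt_un {W : WeierstrassCurve k} (F : Type) [Field F] [Algebra k F]
    (q : (W⁄k).toAffine.Point) : constPt F (un q) = mp (Algebra.ofId k F) q := by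
  match q with
  | .zero => exact (mp_zero _).symm
  | .some x y h =>
    obtain ⟨h', e⟩ := mp_some (Algebra.ofId k F) x y h
    rw [e]
    rfl

/-- the homomorphism on the points over `k` -/
noncomputable def Hm.k0 {V W : WeierstrassCurve k} (φ : Hm V W) (p : V.toAffine.Point) : W.toAffine.Point :=
  un (φ.f k (constPt k p))

theorem Hm.const {V W : WeierstrassCurve k} (φ : Hm V W) (F : Type) [Field F] [Algebra k F]
    (p : V.toAffine.Point) : φ.f F (constPt F p) = constPt F (φ.k0 p) := by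
  rw [Hm.k0, constPt_un, ← φ.nat, mp_constPt]

variable {r : ℕ} {W' W : Fin r → WeierstrassCurve k} {Y : Prj k} {φ : ∀ i, Hm (W' i) (W i)}
  {L K : Type} [Field L] [Algebra k L] [Field K] [Algebra k K] {l : L →ₐ[k] K} {D : ℕ}
  {V : Fin D → WeierstrassCurve k} {ξ : ∀ a, ((V a)⁄K).toAffine.Point}

theorem HG_comp {E : WeierstrassCurve k} {F G H : Type} [Field F] [Algebra k F] [Field G]
    [Algebra k G] [Field H] [Algebra k H] (f : F →ₐ[k] G) (g : G →ₐ[k] H) (fg : F →ₐ[k] H)
    (h : ∀ m, g (f m) = fg m) (p : (E⁄F).toAffine.Point) : mp g (mp f p) = mp fg p := by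
  rw [B6_mp_comp]
  congr 1
  exact congrArg _ (AlgHom.ext h)

/-- the cycle does not depend on the generic point -/
theorem cyc_phH {E : WeierstrassCurve k} {M₀ M : Type} [Field M₀] [Algebra k M₀] [Field M]
    [Algebra k M] {i : M₀ →ₐ[k] M} {ξ ξ' : (E⁄M).toAffine.Point} (h : Gen1 i E ξ)
    (h' : Gen1 i E ξ') (T : Pnt W Y M₀) (t : ∀ n, Hm E (W n)) :
    cyc (Pnt.add (fun n => (t n).f M ξ') (T.map i)) =
      cyc (Pnt.add (fun n => (t n).f M ξ) (T.map i)) := by
  obtain ⟨σ, hσ, hξ⟩ := gen1_aut h h'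
  rw [← cyc_map σ (Pnt.add (fun n => (t n).f M ξ) (T.map i))]
  congr 1
  apply pnt_ext
  · funext n
    change (t n).f M ξ' + mp i (T.z n) = mp (σ : M →ₐ[k] M) ((t n).f M ξ + mp i (T.z n))
    rw [map_add, ← (t n).nat, hξ, HG_comp i (σ : M →ₐ[k] M) i hσ]
  · funext c
    exact (hσ (T.y c)).symm

theorem HG_core {F : Type} [Field F] [Algebra k F] (i : F →ₐ[k] K) (l' : L →ₐ[k] F)
    (a : Fin D) (ξ' : ∀ b, b ≠ a → ((V b)⁄F).toAffine.Point) (hl : ∀ x, i (l' x) = l x)
    (hξ : ∀ b hb, mp i (ξ' b hb) = ξ b) (φ : ∀ i, Hm (W' i) (W i))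
    (N : Matrix (Fin r) (Fin D) ℤ) (g : Pts W') (u : Pnt W Y L) :
    ∃ T : Pnt W Y F, ∀ (η : ((V a)⁄K).toAffine.Point) (v : Fin r → ℤ),
        linH l φ (Function.update ξ a η) (N.updateCol a v) g u =
          Pnt.add (fun n => (φ n).f K (v n • tr (V a) (W' n) η)) (T.map i) := by
  refine ⟨Pnt.add (fun n => (φ n).f F (constPt F (g n) + ∑ b, N n b • tr (V b) (W' n)
    (if hb : b ≠ a then ξ' b hb else 0))) (u.map l'), ?_⟩
  intro η v
  apply pnt_ext
  · funext n
    have e1 : mp i ((φ n).f F (constPt F (g n) + ∑ b, N n b • tr (V b) (W' n)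
        (if hb : b ≠ a then ξ' b hb else 0)) + mp l' (u.z n)) =
        (φ n).f K (constPt K (g n) + ∑ b, mp i (N n b • tr (V b) (W' n)
        (if hb : b ≠ a then ξ' b hb else 0))) + mp l (u.z n) := by
      rw [map_add, HG_comp l' i l hl, ← (φ n).nat, map_add, mp_constPt, map_sum]
    have e2 : ∑ b, (N.updateCol a v) n b • tr (V b) (W' n) (Function.update ξ a η b) =
        v n • tr (V a) (W' n) η + ∑ b, mp i (N n b • tr (V b) (W' n)
        (if hb : b ≠ a then ξ' b hb else 0)) := by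
      rw [← Finset.add_sum_erase Finset.univ _ (Finset.mem_univ a),
        ← Finset.add_sum_erase Finset.univ (fun b => mp i (N n b • tr (V b) (W' n)
          (if hb : b ≠ a then ξ' b hb else 0))) (Finset.mem_univ a)]
      have e3 : mp i (N n a • tr (V a) (W' n) (if hb : a ≠ a then ξ' a hb else 0)) = 0 := by
        rw [dif_neg (fun h => h rfl), tr_zero, smul_zero, mp_zero]
      have e4 : ∀ b ∈ Finset.univ.erase a, (N.updateCol a v) n b • tr (V b) (W' n)
          (Function.update ξ a η b) = mp i (N n b • tr (V b) (W' n)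
          (if hb : b ≠ a then ξ' b hb else 0)) := by
        intro b hb
        have hba : b ≠ a := Finset.ne_of_mem_erase hb
        rw [Matrix.updateCol_ne hba, Function.update_of_ne hba, dif_pos hba, map_zsmul, mp_tr, hξ]
      rw [Finset.sum_congr rfl e4, e3, Matrix.updateCol_self, Function.update_self, zero_add]
    change (φ n).f K (constPt K (g n) + ∑ b, (N.updateCol a v) n b • tr (V b) (W' n)
      (Function.update ξ a η b)) + mp l (u.z n) =
      (φ n).f K (v n • tr (V a) (W' n) η) + mp i ((φ n).f F (constPt F (g n) +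
        ∑ b, N n b • tr (V b) (W' n) (if hb : b ≠ a then ξ' b hb else 0)) + mp l' (u.z n))
    rw [e1, e2, ← add_assoc ((φ n).f K (v n • tr (V a) (W' n) η)), ← map_add]
    congr 2
    exact add_left_comm _ _ _
  · funext c
    exact (hl (u.y c)).symm

/-- the point `φ (N ξ + g) + u` as a point `φ (v ξ_a) + T`, where `v` is the column `a` -/
theorem exists_phH {e : ℕ} (h : IsGen e l V ξ) (a : Fin D) (φ : ∀ i, Hm (W' i) (W i))
    (N : Matrix (Fin r) (Fin D) ℤ) (g : Pts W') (u : Pnt W Y L) :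
    ∃ (M₀ : IntermediateField k K) (ξ' : ∀ b, b ≠ a → ((V b)⁄M₀).toAffine.Point)
      (T : Pnt W Y M₀), (∀ b hb, mp M₀.val (ξ' b hb) = ξ b) ∧ Gen1 M₀.val (V a) (ξ a) ∧
      ∀ (η : ((V a)⁄K).toAffine.Point) (v : Fin r → ℤ),
        linH l φ (Function.update ξ a η) (N.updateCol a v) g u =
          Pnt.add (fun n => (φ n).f K (v n • tr (V a) (W' n) η)) (T.map M₀.val) := by
  obtain ⟨M₀, l', ξ', hl, hξ, hG⟩ := exists_base h a
  obtain ⟨T, hT⟩ := HG_core M₀.val l' a ξ' hl hξ φ N g u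
  exact ⟨M₀, ξ', T, hξ, hG, hT⟩

theorem HG_dim {e : ℕ} (h : IsGen e l V ξ) (a : Fin D) : ∃ d, e + D = d + 1 ∧
    FunF k (d + 1) K ∧ Algebra.trdeg k K = (d + 1 : ℕ) := by
  have hD : 0 < D := a.pos
  refine ⟨e + D - 1, by omega, ?_, ?_⟩
  · rw [show e + D - 1 + 1 = e + D by omega]
    exact h.dim
  · rw [show e + D - 1 + 1 = e + D by omega]
    exact h.dim.trdeg

theorem H_par [CharZero k] [IsAlgClosed k] (hW' : ∀ n, (W' n).IsElliptic)
    (hW : ∀ n, (W n).IsElliptic) (hV : ∀ a, (V a).IsElliptic) {e : ℕ}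
    (h : IsGen e l V ξ) (u : Pnt W Y L) (N : Matrix (Fin r) (Fin D) ℤ) (g : Pts W') (a : Fin D)
    (v w : Fin r → ℤ) :
    clH l (e + D) φ ξ u (N.updateCol a (v + w)) g + clH l (e + D) φ ξ u (N.updateCol a (v - w)) g =
      (2 : ℤ) • clH l (e + D) φ ξ u (N.updateCol a v) g +
        (2 : ℤ) • clH l (e + D) φ ξ u (N.updateCol a w) g := by
  obtain ⟨d, hd, hK, -⟩ := HG_dim h a
  obtain ⟨M₀, ξ', T, hξ, hG, hT⟩ := exists_phH h a φ N g u
  have := hV a
  have := hW'
  have h1 := parH hW hG hK T (fun n => (φ n).col (V a) (v n)) (fun n => (φ n).col (V a) (w n))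
  have e1 : ∀ v : Fin r → ℤ, linH l φ ξ (N.updateCol a v) g u =
      Pnt.add (fun n => (φ n).f K (v n • tr (V a) (W' n) (ξ a))) (T.map M₀.val) := by
    intro v
    rw [← hT (ξ a) v, Function.update_eq_self]
  have a1 : cyc (linH l φ ξ (N.updateCol a (v + w)) g u) =
      cyc (Pnt.add (fun n => ((φ n).col (V a) (v n)).f K (ξ a) +
        ((φ n).col (V a) (w n)).f K (ξ a)) (T.map M₀.val)) := by
    rw [e1]
    congr 2
    funext n
    change (φ n).f K ((v n + w n) • tr (V a) (W' n) (ξ a)) =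
      (φ n).f K (v n • tr (V a) (W' n) (ξ a)) + (φ n).f K (w n • tr (V a) (W' n) (ξ a))
    rw [← map_add, add_smul]
  have a2 : cyc (linH l φ ξ (N.updateCol a (v - w)) g u) =
      cyc (Pnt.add (fun n => ((φ n).col (V a) (v n)).f K (ξ a) -
        ((φ n).col (V a) (w n)).f K (ξ a)) (T.map M₀.val)) := by
    rw [e1]
    congr 2
    funext n
    change (φ n).f K ((v n - w n) • tr (V a) (W' n) (ξ a)) =
      (φ n).f K (v n • tr (V a) (W' n) (ξ a)) - (φ n).f K (w n • tr (V a) (W' n) (ξ a))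
    rw [← map_sub, sub_smul]
  have a3 : cyc (linH l φ ξ (N.updateCol a v) g u) =
      cyc (Pnt.add (fun n => ((φ n).col (V a) (v n)).f K (ξ a)) (T.map M₀.val)) := by
    rw [e1]
    rfl
  have a4 : cyc (linH l φ ξ (N.updateCol a w) g u) =
      cyc (Pnt.add (fun n => ((φ n).col (V a) (w n)).f K (ξ a)) (T.map M₀.val)) := by
    rw [e1]
    rfl
  rw [← a1, ← a2, ← a3, ← a4, ← hd] at h1
  have h3 : (QuotientAddGroup.mk' (RatEq W Y (e + D)))
      (cyc (linH l φ ξ (N.updateCol a (v + w)) g u) +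
      cyc (linH l φ ξ (N.updateCol a (v - w)) g u) - 2 • cyc (linH l φ ξ (N.updateCol a v) g u) -
      2 • cyc (linH l φ ξ (N.updateCol a w) g u)) = 0 := (QuotientAddGroup.eq_zero_iff _).2 h1
  rw [map_sub, map_sub, map_add, map_nsmul, map_nsmul] at h3
  have h4 : clH l (e + D) φ ξ u (N.updateCol a (v + w)) g +
      clH l (e + D) φ ξ u (N.updateCol a (v - w)) g -
      2 • clH l (e + D) φ ξ u (N.updateCol a v) g -
      2 • clH l (e + D) φ ξ u (N.updateCol a w) g = 0 := h3
  rw [← sub_eq_zero, ← h4]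
  abel

/-- the cycle does not change if a generic point is translated by a point over the other ones -/
theorem H_trans (hW' : ∀ n, (W' n).IsElliptic) {e : ℕ} (h : IsGen e l V ξ) (u : Pnt W Y L)
    (N : Matrix (Fin r) (Fin D) ℤ) (g : Pts W') (a : Fin D) :
    (∀ c : (V a).toAffine.Point,
      cyc (linH l φ (Function.update ξ a (ξ a + constPt K c)) N g u) =
        cyc (linH l φ ξ N g u)) ∧
    ∀ b, b ≠ a → ∀ hb : V b = V a,
      cyc (linH l φ (Function.update ξ a (ξ a + tr (V b) (V a) (ξ b))) N g u) =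
        cyc (linH l φ ξ N g u) := by
  obtain ⟨d, hd, hK, hK'⟩ := HG_dim h a
  obtain ⟨M₀, ξ', T, hξ, hG, hT⟩ := exists_phH h a φ N g u
  have := hW'
  have e1 : ∀ η, linH l φ (Function.update ξ a η) N g u =
      Pnt.add (fun n => ((φ n).col (V a) (N n a)).f K η) (T.map M₀.val) := by
    intro η
    have h1 := hT η (fun n => N n a)
    rwa [show N.updateCol a (fun n => N n a) = N from Matrix.updateCol_eq_self N a] at h1
  have e0 : linH l φ ξ N g u =
      Pnt.add (fun n => ((φ n).col (V a) (N n a)).f K (ξ a)) (T.map M₀.val) := by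
    rw [← e1, Function.update_eq_self]
  constructor
  · intro c
    have h2 := gen1_add hG hK' (constPt M₀ c)
    rw [mp_constPt] at h2
    rw [e1, e0]
    exact cyc_phH hG h2 T _
  · intro b hba hb
    have h2 := gen1_add hG hK' (tr (V b) (V a) (ξ' b hba))
    rw [mp_tr, hξ] at h2
    rw [e1, e0]
    exact cyc_phH hG h2 T _

end Pool.Agent.LibAC34
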