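import Pool.Agent.LibAC34.HG
import Pool.Agent.LibIG50.Base

/-!
The rules for the images under homomorphisms, second part.
-/

open WeierstrassCurve Pool.Agent.LibBH2 Pool.Agent.LibIG50 Pool.Agent.LibCHd
open scoped Classical

namespace Pool.Agent.LibAC34

variable {k : Type} [Field k]

theorem HG_const_add (F : Type) [Field F] [Algebra k F] {E : WeierstrassCurve k}
    (p q : E.toAffine.Point) :
    (constPt F (p + q) : (E⁄F).toAffine.Point) = constPt F p + constPt F q := by
  rcases p with _ | ⟨x₁, y₁, h₁⟩ <;> rcases q with _ | ⟨x₂, y₂, h₂⟩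
  · rfl
  · rfl
  · rfl
  · have n₁ := (WeierstrassCurve.Affine.map_nonsingular E (algebraMap k F).injective x₁ y₁).2 h₁
    have n₂ := (WeierstrassCurve.Affine.map_nonsingular E (algebraMap k F).injective x₂ y₂).2 h₂
    have hsome : ∀ {x y : k} (h : E.toAffine.Nonsingular x y),
        (constPt F (.some x y h : E.toAffine.Point) : (E⁄F).toAffine.Point) =
        .some (algebraMap k F x) (algebraMap k F y)
          ((WeierstrassCurve.Affine.map_nonsingular E (algebraMap k F).injective x y).2 h) :=
      fun h => rfl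
    by_cases hxy : x₁ = x₂ ∧ y₁ = E.toAffine.negY x₂ y₂
    · rw [Affine.Point.add_of_Y_eq hxy.left hxy.right]
      have hy : algebraMap k F y₁ =
          (E⁄F).toAffine.negY (algebraMap k F x₂) (algebraMap k F y₂) := by
        rw [hxy.right]; exact (Affine.map_negY (W' := E) (algebraMap k F) x₂ y₂).symm
      exact (Affine.Point.add_of_Y_eq (W := (E⁄F).toAffine) (h₁ := n₁)
        (h₂ := n₂) (congr_arg _ hxy.left) hy).symm
    · have hxy' : ¬(algebraMap k F x₁ = algebraMap k F x₂ ∧
          algebraMap k F y₁ = (E⁄F).toAffine.negY (algebraMap k F x₂) (algebraMap k F y₂)) := by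
        rintro ⟨h1, h2⟩
        apply hxy
        refine ⟨(algebraMap k F).injective h1, (algebraMap k F).injective ?_⟩
        rw [h2]
        exact Affine.map_negY (W' := E) (algebraMap k F) x₂ y₂
      rw [Affine.Point.add_some hxy]
      refine Eq.trans ?_ (Affine.Point.add_some (W := (E⁄F).toAffine) (h₁ := n₁)
        (h₂ := n₂) hxy').symm
      have hs : (E⁄F).toAffine.slope (algebraMap k F x₁) (algebraMap k F x₂) (algebraMap k F y₁)
          (algebraMap k F y₂) = algebraMap k F (E.toAffine.slope x₁ x₂ y₁ y₂) :=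
        Affine.map_slope (W := E) (algebraMap k F) x₁ x₂ y₁ y₂
      rw [hsome]
      congr 1
      · rw [hs]
        exact (Affine.map_addX (W' := E) (algebraMap k F) x₁ x₂ _).symm
      · rw [hs]
        exact (Affine.map_addY (W' := E) (algebraMap k F) x₁ y₁ x₂ _).symm

theorem HG_const_zsmul (F : Type) [Field F] [Algebra k F] {E : WeierstrassCurve k} (n : ℤ)
    (p : E.toAffine.Point) : (constPt F (n • p) : (E⁄F).toAffine.Point) = n • constPt F p :=
  map_zsmul (AddMonoidHom.mk' (constPt F) (HG_const_add F) : E.toAffine.Point →+ _) n p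

variable {r : ℕ} {W' W : Fin r → WeierstrassCurve k} {Y : Prj k} {φ : ∀ i, Hm (W' i) (W i)}
  {L K : Type} [Field L] [Algebra k L] [Field K] [Algebra k K] {l : L →ₐ[k] K} {D : ℕ}
  {V : Fin D → WeierstrassCurve k} {ξ : ∀ a, ((V a)⁄K).toAffine.Point}

theorem HG_upd (N : Matrix (Fin r) (Fin D) ℤ) (a : Fin D) (η : ((V a)⁄K).toAffine.Point)
    (n : Fin r) :
    ∑ b, N n b • tr (V b) (W' n) (Function.update ξ a (ξ a + η) b) =
      N n a • tr (V a) (W' n) η + ∑ b, N n b • tr (V b) (W' n) (ξ b) := by
  rw [← Finset.add_sum_erase Finset.univ (fun b => N n b • tr (V b) (W' n)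
      (Function.update ξ a (ξ a + η) b)) (Finset.mem_univ a),
    ← Finset.add_sum_erase Finset.univ (fun b => N n b • tr (V b) (W' n) (ξ b))
      (Finset.mem_univ a)]
  have e2 : ∀ b ∈ Finset.univ.erase a, N n b • tr (V b) (W' n)
      (Function.update ξ a (ξ a + η) b) = N n b • tr (V b) (W' n) (ξ b) := by
    intro b hb
    rw [Function.update_of_ne (Finset.ne_of_mem_erase hb)]
  rw [Finset.sum_congr rfl e2, Function.update_self, tr_add, smul_add]
  abel

theorem HG_trtr {F : Type} [Field F] [Algebra k F] {A B C : WeierstrassCurve k} (h : B = A)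
    (p : (B⁄F).toAffine.Point) : tr A C (tr B A p) = tr B C p := by
  subst h
  rw [tr_self]

theorem linH_congr {ξ' : ∀ a, ((V a)⁄K).toAffine.Point} {N N' : Matrix (Fin r) (Fin D) ℤ}
    {g g' : Pts W'} (u : Pnt W Y L)
    (h : ∀ n, constPt K (g n) + ∑ b, N n b • tr (V b) (W' n) (ξ b) =
      constPt K (g' n) + ∑ b, N' n b • tr (V b) (W' n) (ξ' b)) :
    linH l φ ξ N g u = linH l φ ξ' N' g' u := by
  unfold linH
  congr 1
  funext n
  rw [h]

theorem H_col (hW' : ∀ n, (W' n).IsElliptic) {e : ℕ} (h : IsGen e l V ξ) (u : Pnt W Y L)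
    (N : Matrix (Fin r) (Fin D) ℤ) (g : Pts W') (a b : Fin D) (hab : a ≠ b) (hV : V a = V b) :
    clH l (e + D) φ ξ u (N.updateCol b fun n => N n b + N n a) g = clH l (e + D) φ ξ u N g := by
  have h1 : linH l φ ξ (N.updateCol b fun n => N n b + N n a) g u =
      linH l φ (Function.update ξ a (ξ a + tr (V b) (V a) (ξ b))) N g u := by
    apply linH_congr
    intro n
    rw [HG_upd, HG_trtr hV.symm]
    rw [← Finset.add_sum_erase Finset.univ (fun c => (N.updateCol b fun n => N n b + N n a) n c •
        tr (V c) (W' n) (ξ c)) (Finset.mem_univ b),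
      ← Finset.add_sum_erase Finset.univ (fun c => N n c • tr (V c) (W' n) (ξ c))
        (Finset.mem_univ b)]
    have e2 : ∀ c ∈ Finset.univ.erase b, (N.updateCol b fun n => N n b + N n a) n c •
        tr (V c) (W' n) (ξ c) = N n c • tr (V c) (W' n) (ξ c) := by
      intro c hc
      rw [Matrix.updateCol_ne (Finset.ne_of_mem_erase hc)]
    rw [Finset.sum_congr rfl e2, Matrix.updateCol_self, add_smul]
    abel
  unfold clH
  rw [h1, (H_trans hW' h u N g a).2 b hab.symm hV.symm]

theorem H_tr (hW' : ∀ n, (W' n).IsElliptic) {e : ℕ} (h : IsGen e l V ξ) (u : Pnt W Y L)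
    (N : Matrix (Fin r) (Fin D) ℤ) (g : Pts W') (a : Fin D) (c : (V a).toAffine.Point) :
    clH l (e + D) φ ξ u N (g + fun n => N n a • trk (V a) (W' n) c) =
      clH l (e + D) φ ξ u N g := by
  have h1 : linH l φ ξ N (g + fun n => N n a • trk (V a) (W' n) c) u =
      linH l φ (Function.update ξ a (ξ a + constPt K c)) N g u := by
    apply linH_congr
    intro n
    rw [HG_upd, Pi.add_apply, HG_const_add, HG_const_zsmul, constPt_tr]
    abel
  unfold clH
  rw [h1, (H_trans hW' h u N g a).1 c]

/-- translations -/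
theorem H_trl (u : Pnt W Y L) (N : Matrix (Fin r) (Fin D) ℤ) (g : Pts W') :
    trl (fun i => (φ i).k0 (g i)) (linH l φ ξ N 0 u) = linH l φ ξ N g u := by
  apply pnt_ext
  · funext n
    change constPt K ((φ n).k0 (g n)) + ((φ n).f K (constPt K ((0 : Pts W') n) +
      ∑ b, N n b • tr (V b) (W' n) (ξ b)) + mp l (u.z n)) =
      (φ n).f K (constPt K (g n) + ∑ b, N n b • tr (V b) (W' n) (ξ b)) + mp l (u.z n)
    have e0 : (constPt K ((0 : Pts W') n) : ((W' n)⁄K).toAffine.Point) = 0 := rfl
    rw [e0, zero_add, ← (φ n).const, ← add_assoc, ← map_add]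
  · rfl

/-- the homomorphism on the points over `k` is additive -/
theorem Hm.k0_add {V W : WeierstrassCurve k} (φ : Hm V W) (p q : V.toAffine.Point) :
    φ.k0 (p + q) = φ.k0 p + φ.k0 q := by
  have h1 : (constPt k (φ.k0 (p + q)) : (W⁄k).toAffine.Point) =
      constPt k (φ.k0 p + φ.k0 q) := by
    rw [← φ.const, HG_const_add, map_add, HG_const_add, φ.const, φ.const]
  have h2 : ∀ p q : W.toAffine.Point, (constPt k p : (W⁄k).toAffine.Point) = constPt k q →
      p = q := by
    intro p q h
    match p, q, h with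
    | .zero, .zero, _ => rfl
    | .zero, .some x y h, h' => exact absurd h' (by intro h''; cases h'')
    | .some x y h, .zero, h' => exact absurd h' (by intro h''; cases h'')
    | .some x y h, .some x' y' h', h'' =>
      injection h'' with e1 e2
      have e1' : x = x' := e1
      have e2' : y = y' := e2
      subst e1' e2'
      rfl
  exact h2 _ _ h1

/-- the homomorphism on the points over `k` -/
noncomputable def Hm.k0H {V W : WeierstrassCurve k} (φ : Hm V W) :
    V.toAffine.Point →+ W.toAffine.Point :=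
  AddMonoidHom.mk' φ.k0 φ.k0_add

theorem spec_iff_spR {K : Type} [Field K] [Algebra k K] {v : Place k K} {W : WeierstrassCurve k}
    {T : (W⁄K).toAffine.Point} {p : W.toAffine.Point} : Spec v T p ↔ SpR v T (constPt (RF v) p) := by
  match T, p with
  | .zero, .zero => exact ⟨fun _ => rfl, fun _ => rfl⟩
  | .zero, .some x y h =>
    constructor
    · intro h'
      exact absurd (show (Affine.Point.some x y h : W.toAffine.Point) = 0 from h')
        (by intro h''; cases h'')
    · intro h'
      exact absurd (show (constPt (RF v) (Affine.Point.some x y h) : (W⁄(RF v)).toAffine.Point) = 0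
        from h') (by intro h''; cases h'')
  | .some x y h, .zero => exact Iff.rfl
  | .some x y h, .some x₀ y₀ h₀ =>
    change (v.Zer _ ∧ v.Zer _) ↔ (Red v x (algebraMap k (RF v) x₀) ∧
      Red v y (algebraMap k (RF v) y₀))
    rw [red_iff_val, red_iff_val]

/-- the homomorphisms are algebraic maps in the sense of LibIG50 -/
theorem Hm.algMap {V W : WeierstrassCurve k} (φ : Hm V W) : AlgMap V W φ.k0 := by
  refine ⟨map_zero φ.k0H, fun K _ _ T => ⟨φ.f K T, fun v p h => ?_⟩⟩
  rw [spec_iff_spR] at h ⊢
  have h1 := φ.sp K v _ _ h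
  rwa [φ.const] at h1

end Pool.Agent.LibAC34
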