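import Pool.Agent.LibAC34.Stmt

/-!
Cycles over a number field, of all dimensions: the statement.
-/

open WeierstrassCurve Pool.Agent.LibBH2 Pool.Agent.LibIG50 Pool.Agent.LibCHd Pool.Agent.LibGG
open scoped Classical

namespace Pool.Agent.LibAC34

variable {K : Type} [Field K] [Algebra K Qb] {D r : ℕ}

/-- Let `A = E 1 × ... × E r` and `B = V 1 × ... × V D` be products of elliptic curves over `K`. The
formal integral combinations of pairs `(N, g)`, `N` an integral matrix (a homomorphism from `B` to `A`)
and `g` a point of `A` over `Qb` with components in the groups `Γ`, which are invariant under the Galois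
group of `K`. The pair `(N, g)` stands for the cycle `N_* B + g` on `A`, a multiple of the translate of
an abelian subvariety of `A`; so these are, up to multiples, the cycles over `K` which are combinations
of such translates. -/
def ZKD (Γ : Grid) (V : Fin D → WeierstrassCurve K) (E : Fin r → WeierstrassCurve K) :
    Set ((Matrix (Fin r) (Fin D) ℤ × Pts (fun i => (E i)⁄Qb)) →₀ ℤ) :=
  {c | (∀ p ∈ c.support, Mat (fun a => (V a)⁄Qb) (fun i => (E i)⁄Qb) p.1 ∧
      ∀ i, p.2 i ∈ Γ ((E i)⁄Qb)) ∧
    ∀ σ : Qb ≃ₐ[K] Qb, c.mapDomain (fun p => (p.1, fun i => gal σ (p.2 i))) = c}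

/-- the class of the cycle `c * Z` in the Chow group of `A × Y`, for a formal combination `c` of pairs
`(N, g)`: the sum of the classes `cl l m ξ u N g` -/
noncomputable def actD {k : Type} [Field k] {L F : Type} [Field L] [Algebra k L] [Field F]
    [Algebra k F] (l : L →ₐ[k] F) (m : ℕ) {V : Fin D → WeierstrassCurve k}
    {W : Fin r → WeierstrassCurve k} {Y : Prj k} (ξ : ∀ a, ((V a)⁄F).toAffine.Point)
    (u : Pnt W Y L) (c : (Matrix (Fin r) (Fin D) ℤ × Pts W) →₀ ℤ) : CH W Y m :=
  c.sum fun p n => n • cl l m ξ u p.1 p.2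

/-- the rank of the subgroup generated by the set `S` -/
noncomputable def rk {G : Type} [AddCommGroup G] (S : Set G) : Cardinal :=
  Module.rank ℤ (AddSubgroup.closure S)

/-- For all products `A` and `B` of elliptic curves `E i` and `V a` over `K`, all projective `Y` and all
prime cycles `Z` on `A × Y` (`Z` the cycle of the point `u`, of dimension `e`) the classes of the cycles
`c * Z` in the Chow group `CH_{e + D} (A × Y)`, where `c` runs through the cycles of dimension `D` on `A`
over `K` which are combinations of the translates of the images of `B` by points with components in the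
groups `Γ`, generate a group of finite rank: of rank at most `3 ^ (r * D) * (1 + ∑ rank E_i(K))`. -/
def FinSpanAll (K : Type) [Field K] [Algebra K Qb] (Γ : Grid) : Prop :=
  ∀ (r : ℕ) (E : Fin r → WeierstrassCurve K), (∀ i, (E i).IsElliptic) →
    ∀ (D : ℕ) (V : Fin D → WeierstrassCurve K), (∀ a, (V a).IsElliptic) →
    ∀ (Y : Prj Qb) (e : ℕ) (L : Type) [Field L] [Algebra Qb L]
      (u : Pnt (fun i => (E i)⁄Qb) Y L)
      (F : Type) [Field F] [Algebra Qb F] (l : L →ₐ[Qb] F)
      (ξ : ∀ a, (((V a)⁄Qb)⁄F).toAffine.Point),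
    IsGen e l (fun a => (V a)⁄Qb) ξ →
      rk (actD l (e + D) ξ u '' ZKD Γ V E) ≤
        3 ^ (r * D) * (1 + ∑ i, Module.rank ℤ (E i).toAffine.Point)

end Pool.Agent.LibAC34
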