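import Pool.Agent.LibAC34.CDefs
import Pool.Agent.LibAC34.Stmt3

/-!
Cycles of all dimensions on products of arbitrary elliptic curves: the statement.
-/

open WeierstrassCurve Pool.Agent.LibBH2 Pool.Agent.LibIG50 Pool.Agent.LibCHd Pool.Agent.LibGG
open scoped Classical ComplexConjugate

namespace Pool.Agent.LibAC34

/-- For every curve `E` over `Qb` an endomorphism `w` and a complex number `ω`, with
`w ^ 2 = t w - n` for the integers `t = ω + conj ω` and `n = ω * conj ω`. If `ω` is real then `w` and
`ω` are zero; otherwise `E` has complex multiplication by the ring `ℤ[w] = ℤ[ω]`. -/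
structure CM where
  /-- the endomorphism -/
  w : ∀ E : WeierstrassCurve Qb, Hm E E
  /-- the complex number -/
  ω : WeierstrassCurve Qb → ℂ
  /-- the trace -/
  t : WeierstrassCurve Qb → ℤ
  /-- the norm -/
  n : WeierstrassCurve Qb → ℤ
  quad : ∀ E, Quad (w E) (t E) (n E)
  trace : ∀ E, ω E + conj (ω E) = t E
  norm : ∀ E, ω E * conj (ω E) = n E
  real : ∀ E, (ω E).im = 0 → ω E = 0 ∧
    ∀ (F : Type) [Field F] [Algebra Qb F] (P : (E⁄F).toAffine.Point), (w E).f F P = 0

/-- all the groups `Γ E` are preserved by the homomorphisms of curves -/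
def Fun (Γ : Grid) : Prop :=
  ∀ (E E' : WeierstrassCurve Qb) (φ : Hm E E'), ∀ P ∈ Γ E, φ.k0 P ∈ Γ E'

variable {D r : ℕ}

/-- The matrices which define homomorphisms from `V 1 × ... × V D` to `W 1 × ... × W r`: the entry
`N i a = (x, y)` acts as `x + y w`; it is zero if `V a` and `W i` are different curves, and `y = 0` if
`W i` has no complex multiplication (`ω` is real). -/
def MatC (c : CM) (V : Fin D → WeierstrassCurve Qb) (W : Fin r → WeierstrassCurve Qb)
    (N : Matrix (Fin r) (Fin D) (ℤ × ℤ)) : Prop :=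
  ∀ i a, (V a ≠ W i → N i a = 0) ∧ ((c.ω (W i)).im = 0 → (N i a).2 = 0)

/-- the matrix of the complex numbers `x + y ω` -/
noncomputable def cx (c : CM) (W : Fin r → WeierstrassCurve Qb)
    (N : Matrix (Fin r) (Fin D) (ℤ × ℤ)) : Matrix (Fin r) (Fin D) ℂ :=
  fun i a => (N i a).1 + (N i a).2 * c.ω (W i)

/-- **Injectivity for cycles of all dimensions.** Let `W' 1, ..., W' r`, `W 1, ..., W r` and
`V 1, ..., V D` be elliptic curves over `Qb` and `φ i : W' i → W i` homomorphisms, `A' = ∏ W' i`,
`A = ∏ W i`, `B = ∏ V a`. Let `Y` be projective and `Z` a cycle on `A × Y`: the cycle of the point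
`u` with coordinates in the function field `L` of dimension `e`. Let `ξ` be the generic point of `B`,
with coordinates in the function field `K` of `B × Z` (every such `K` is allowed).
The class `clC c.w l (e + D) φ ξ u N g` in `CH_{e + D} (A × Y)` is the one of the cycle
`φ_* (N_* B + g) * Z`, the push-forward of `B × Z` under the map `(ξ, u) ↦ φ (N ξ + g) + u`; here
`N_* B + g` is a multiple of a translate of an abelian subvariety of `A'`.

For finitely many matrices `N j`, points `g j` of `A'` with components in the groups `Γ` and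
integers `m j` let `z = ∑ j, m j • (N j_* B + g j)`, a cycle on `A'` of dimension `D`. For a
homomorphism `Mᵀ : A' → B` with kernel `ker Mᵀ` the number `∑ j, m j * |det (Mᵀ N j)| ^ 2` is the
degree of the zero-cycle `z · ker Mᵀ`, and for a homomorphism `sᵀ : A' → E` to an elliptic curve and a
homomorphism `lam : E(Qb) → ℂ` (linear over `ℤ[ω]`) the number
`∑ j, m j * conj (det (Mᵀ N j)) * det ((M | s)ᵀ (N j | lam (g j)))` is `lam` of the sum of the image of
this zero-cycle in `E`. If the first ones are `0` (`z` is homologically trivial) and the second ones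
are `0` (the Abel-Jacobi image of `z` is torsion) then `φ_* z * Z` is torsion in `CH_{e + D} (A × Y)`. -/
def AllDimC (Γ : Grid) (c : CM) : Prop :=
  ∀ (r : ℕ) (W' W : Fin r → WeierstrassCurve Qb) (φ : ∀ i, Hm (W' i) (W i)),
    (∀ i, (W' i).IsElliptic) → (∀ i, (W i).IsElliptic) →
    ∀ (D : ℕ) (V : Fin D → WeierstrassCurve Qb), (∀ a, (V a).IsElliptic) →
    ∀ (Y : Prj Qb) (e : ℕ) (L : Type) [Field L] [Algebra Qb L] (u : Pnt W Y L)
      (K : Type) [Field K] [Algebra Qb K] (l : L →ₐ[Qb] K) (ξ : ∀ a, ((V a)⁄K).toAffine.Point),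
    IsGen e l V ξ →
    ∀ (J : Type) [Fintype J] (m : J → ℤ) (N : J → Matrix (Fin r) (Fin D) (ℤ × ℤ))
      (g : J → Pts W'), (∀ j, MatC c V W' (N j)) → (∀ j i, g j i ∈ Γ (W' i)) →
      (∀ M, MatC c V W' M →
        ∑ j, m j * Complex.normSq ((cx c W' M).transpose * cx c W' (N j)).det = 0) →
      (∀ M, MatC c V W' M → ∀ (E : WeierstrassCurve Qb) (s : Fin r → ℤ),
        (∀ i, W' i ≠ E → s i = 0) → ∀ lam : E.toAffine.Point →+ ℂ,
        (∀ P, lam ((c.w E).k0 P) = c.ω E * lam P) →
        ∑ j, m j * (conj ((cx c W' M).transpose * cx c W' (N j)).det *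
          ((Matrix.fromCols (cx c W' M) (Matrix.replicateCol Unit fun i => (s i : ℂ))).transpose *
            Matrix.fromCols (cx c W' (N j))
              (Matrix.replicateCol Unit fun i => lam (trk (W' i) E (g j i)))).det) = 0) →
      IsOfFinAddOrder (∑ j, m j • clC c.w l (e + D) φ ξ u (N j) (g j))

end Pool.Agent.LibAC34
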