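import Pool.Agent.LibAC34.Defs

/-!
[TrApi] simple rules for `tr`.
-/

open WeierstrassCurve Pool.Agent.LibBH2 Pool.Agent.LibIG50 Pool.Agent.LibCHd
open scoped Classical

namespace Pool.Agent.LibAC34

variable {k : Type} [Field k] {F G : Type} [Field F] [Algebra k F] [Field G] [Algebra k G]
  {V W : WeierstrassCurve k}

theorem tr_self (p : (V⁄F).toAffine.Point) : tr V V p = p := by
  rw [tr, dif_pos rfl]

theorem tr_ne (h : V ≠ W) (p : (V⁄F).toAffine.Point) : tr V W p = 0 := dif_neg h

theorem tr_zero : tr V W (0 : (V⁄F).toAffine.Point) = 0 := by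
  by_cases h : V = W
  · subst h; rw [tr_self]
  · rw [tr_ne h]

theorem tr_add (p q : (V⁄F).toAffine.Point) : tr V W (p + q) = tr V W p + tr V W q := by
  by_cases h : V = W
  · subst h; rw [tr_self, tr_self, tr_self]
  · rw [tr_ne h, tr_ne h, tr_ne h, add_zero]

theorem tr_neg (p : (V⁄F).toAffine.Point) : tr V W (-p) = -tr V W p := by
  by_cases h : V = W
  · subst h; rw [tr_self, tr_self]
  · rw [tr_ne h, tr_ne h, neg_zero]

theorem tr_sub (p q : (V⁄F).toAffine.Point) : tr V W (p - q) = tr V W p - tr V W q := by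
  rw [sub_eq_add_neg, tr_add, tr_neg, ← sub_eq_add_neg]

theorem tr_zsmul (n : ℤ) (p : (V⁄F).toAffine.Point) : tr V W (n • p) = n • tr V W p := by
  by_cases h : V = W
  · subst h; rw [tr_self, tr_self]
  · rw [tr_ne h, tr_ne h, smul_zero]

theorem mp_tr (f : F →ₐ[k] G) (p : (V⁄F).toAffine.Point) :
    mp f (tr V W p) = tr V W (mp f p) := by
  by_cases h : V = W
  · subst h; rw [tr_self, tr_self]
  · rw [tr_ne h, tr_ne h, mp_zero]

theorem trk_self (p : V.toAffine.Point) : trk V V p = p := by
  rw [trk, dif_pos rfl]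

theorem trk_ne (h : V ≠ W) (p : V.toAffine.Point) : trk V W p = 0 := dif_neg h

omit [Algebra k F] in
theorem constPt_tr [Algebra k F] (p : V.toAffine.Point) :
    constPt F (trk V W p) = tr V W (constPt F p) := by
  by_cases h : V = W
  · subst h; rw [tr_self, trk_self]
  · rw [tr_ne h, trk_ne h]; rfl

end Pool.Agent.LibAC34
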